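import Pool.Agent.H51.CUD.DDef

/-!
# [H51 CUD DAL] The phase with the factor at S0: twists, sums over `XS`, change of one prime

As in `H51/CUB/AL2.lean`, `AL4.lean`, with the phase `EEs = EE + Lam`: `Lam (tw h ρ) = LamH h + Lam ρ` (`Λ.hvp`).
-/

set_option autoImplicit false

open scoped NumberField
open IsDedekindDomain
open scoped Classical

noncomputable section

namespace H51.CUD

open H63.MA H38.BB H38.BG H57.PC H77.PC3 H51.CUB

variable {K : Type} [Field K] [NumberField K] {p : ℕ} {ζ : K} {Ω : Type} [Field Ω] [Algebra K Ω]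
  [IsAlgClosure K Ω] {m l w N : ℕ} {P R : Type} [Group P] [Group R]

private theorem al2_dt {w : ℕ} (θ x y : Fin w → ZMod p) : dt θ (x + y) = dt θ x + dt θ y := by
  simp only [dt, Pi.add_apply, mul_add, Finset.sum_add_distrib]

omit [IsAlgClosure K Ω] in
theorem lam_tw {D : RD0 K p ζ} (Dg : GP p m l w N P R) (Λ : SF D Ω Dg) (h ρ : Gal(Ω/K) →* R)
    (hh : ∀ g, Dg.π (h g) = 1) : Lam Dg Λ (tw Dg h ρ hh) = LamH Dg Λ h + Lam Dg Λ ρ := by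
  unfold Lam LamH
  rw [← Finset.sum_add_distrib]
  refine Finset.sum_congr rfl fun j _ => ?_
  rw [← al2_dt]
  congr 1
  funext k
  rw [tw_apply, Λ.hvp _ _ _ (hh _), Pi.add_apply]

omit [IsAlgClosure K Ω] in
theorem lamH_tw {D : RD0 K p ζ} (Dg : GP p m l w N P R) (Λ : SF D Ω Dg) (h h' : Gal(Ω/K) →* R)
    (hh : ∀ g, Dg.π (h g) = 1) (hh' : ∀ g, Dg.π (h' g) = 1) :
    LamH Dg Λ (tw Dg h h' hh) = LamH Dg Λ h + LamH Dg Λ h' := by
  unfold LamH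
  rw [← Finset.sum_add_distrib]
  refine Finset.sum_congr rfl fun j _ => ?_
  rw [← al2_dt]
  congr 1
  funext k
  rw [tw_apply, Dg.vadd k _ _ (hh _) (hh' _), Pi.add_apply]

/-- the change of the phase under a twist -/
private def al2_lam {D : RD0 K p ζ} {L : LDs D Ω} (Dg : GP p m l w N P R) (Λ : SF D Ω Dg) (Fr : FR L)
    (n : Finset (Pl K)) (σ : Pl K → R) (ψ : Pl K → Fin w → ZMod p) (h : Gal(Ω/K) →* R) : ZMod p :=
  ∑ v ∈ n, dt (ψ v) (Dg.β (fun j => Dg.cv j (h (Fr.F v))) (sg Dg σ v)) + LamH Dg Λ h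

private theorem al2_lam_tw {D : RD0 K p ζ} {L : LDs D Ω} (Dg : GP p m l w N P R) (Λ : SF D Ω Dg) (Fr : FR L)
    (n : Finset (Pl K)) (σ : Pl K → R) (ψ : Pl K → Fin w → ZMod p) (h h' : Gal(Ω/K) →* R)
    (hh : ∀ g, Dg.π (h g) = 1) (hh' : ∀ g, Dg.π (h' g) = 1) :
    al2_lam Dg Λ Fr n σ ψ (tw Dg h h' hh) = al2_lam Dg Λ Fr n σ ψ h + al2_lam Dg Λ Fr n σ ψ h' := by
  unfold al2_lam
  rw [lamH_tw Dg Λ h h' hh hh', add_add_add_comm]
  congr 1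
  rw [← Finset.sum_add_distrib]
  refine Finset.sum_congr rfl fun v _ => ?_
  have h1 : (fun j => Dg.cv j (tw Dg h h' hh (Fr.F v))) =
      (fun j => Dg.cv j (h (Fr.F v))) + fun j => Dg.cv j (h' (Fr.F v)) := by
    funext j
    rw [tw_apply, Dg.vadd j _ _ (hh _) (hh' _), Pi.add_apply]
  rw [h1, map_add, LinearMap.add_apply, al2_dt]

theorem ees_tw [Finite R] {D : RD0 K p ζ} {L : LDs D Ω} (Fr : FR L) (Dg : GP p m l w N P R) (Λ : SF D Ω Dg)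
    (b : Fin m → Kˣ) (E : Finset (Pl K)) (ε : Pl K → Gal(Ω/K) → R) (n : Finset (Pl K))
    (σ : Pl K → R) (ψ : Pl K → Fin w → ZMod p) (hn : ∀ v ∈ n, v ∉ D.S0) {ρ : Gal(Ω/K) →* R}
    (hρ : ρ ∈ XS L Dg b E ε n σ) {h : Gal(Ω/K) →* R} (hh : h ∈ H1 L Dg) :
    EEs Dg Λ Fr n ψ (tw Dg h ρ hh.2.1) = EEs Dg Λ Fr n ψ ρ +
      (∑ v ∈ n, dt (ψ v) (Dg.β (fun j => Dg.cv j (h (Fr.F v))) (sg Dg σ v)) + LamH Dg Λ h) := by
  unfold EEs
  rw [lam_tw, ee_tw Fr Dg b E ε n σ ψ hn hρ hh]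
  ring

theorem ffs_val [Finite R] (hp : p.Prime) (hζ : IsPrimitiveRoot ζ p) {D : RD0 K p ζ} {L : LDs D Ω}
    (Fr : FR L) (Dg : GP p m l w N P R) (Λ : SF D Ω Dg) (b : Fin m → Kˣ) (E : Finset (Pl K))
    (ε : Pl K → Gal(Ω/K) → R) (n : Finset (Pl K)) (σ : Pl K → R) (ψ : Pl K → Fin w → ZMod p)
    (hn : ∀ v ∈ n, v ∉ D.S0) (hH : HIs Dg Λ Fr n σ ψ) {ρ : Gal(Ω/K) →* R}
    (hρ : ρ ∈ XS L Dg b E ε n σ) : FFs Dg Λ Fr b E ε n σ ψ = ep p (EEs Dg Λ Fr n ψ ρ) := by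
  have hc : HIs Dg Λ Fr n σ ψ ∧ ∃ ρ, ρ ∈ XS L Dg b E ε n σ := ⟨hH, ρ, hρ⟩
  unfold FFs
  rw [dif_pos hc]
  have hch := hc.2.choose_spec
  obtain ⟨h, hh, he⟩ := xs_diff hp hζ L Dg b E ε n σ hn hch hρ
  congr 1
  rw [he, ees_tw Fr Dg Λ b E ε n σ ψ hn hch hh, hH h hh, add_zero]

theorem ffs_ne {D : RD0 K p ζ} {L : LDs D Ω} (Fr : FR L) (Dg : GP p m l w N P R) (Λ : SF D Ω Dg) (b : Fin m → Kˣ)
    (E : Finset (Pl K)) (ε : Pl K → Gal(Ω/K) → R) (n : Finset (Pl K)) (σ : Pl K → R)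
    (ψ : Pl K → Fin w → ZMod p) (h : FFs Dg Λ Fr b E ε n σ ψ ≠ 0) :
    HIs Dg Λ Fr n σ ψ ∧ ∃ ρ, ρ ∈ XS L Dg b E ε n σ := by
  by_contra hc
  exact h (dif_neg hc)

theorem ffs_norm {D : RD0 K p ζ} {L : LDs D Ω} (Fr : FR L) (Dg : GP p m l w N P R) (Λ : SF D Ω Dg) (b : Fin m → Kˣ)
    (E : Finset (Pl K)) (ε : Pl K → Gal(Ω/K) → R) (n : Finset (Pl K)) (σ : Pl K → R)
    (ψ : Pl K → Fin w → ZMod p) : FFs Dg Λ Fr b E ε n σ ψ = 0 ∨ ‖FFs Dg Λ Fr b E ε n σ ψ‖ = 1 := by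
  unfold FFs
  split_ifs
  · exact Or.inr (ep_norm _ _)
  · exact Or.inl rfl

theorem ffs_sum [NeZero p] [Finite R] (hp : p.Prime) (hζ : IsPrimitiveRoot ζ p) (D : RD K p ζ)
    {L : LDs D.toRD0 Ω} (Fr : FR L) (Dg : GP p m l w N P R) (Λ : SF D.toRD0 Ω Dg) (b : Fin m → Kˣ) (E : Finset (Pl K))
    (ε : Pl K → Gal(Ω/K) → R) (n : Finset (Pl K)) (σ : Pl K → R) (ψ : Pl K → Fin w → ZMod p)
    (hE : ∀ v ∈ E, v ∉ D.S0) (hn : ∀ v ∈ n, v ∉ D.S0) :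
    ∑ ρ ∈ (xs_finite hp hζ D L Fr Dg b E ε n σ hn).toFinset, ep p (EEs Dg Λ Fr n ψ ρ) =
      (Nat.card (H1 L Dg) : ℂ) * FFs Dg Λ Fr b E ε n σ ψ := by
  have hfin := xs_finite hp hζ D L Fr Dg b E ε n σ hn
  have hF1 := h1_finite hp hζ D L Fr Dg
  by_cases hex : ∃ ρ₀, ρ₀ ∈ XS L Dg b E ε n σ
  swap
  · have h1 : (xs_finite hp hζ D L Fr Dg b E ε n σ hn).toFinset = ∅ := by
      rw [Finset.eq_empty_iff_forall_notMem]
      intro ρ hρ
      rw [Set.Finite.mem_toFinset] at hρ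
      exact hex ⟨ρ, hρ⟩
    rw [h1, Finset.sum_empty]
    unfold FFs
    rw [dif_neg fun h => hex h.2, mul_zero]
  obtain ⟨ρ₀, hρ₀⟩ := hex
  have hcard : (Nat.card (H1 L Dg) : ℂ) = hF1.toFinset.card := by
    rw [Nat.card_coe_set_eq, Set.ncard_eq_toFinset_card _ hF1]
  -- the sum over the twists
  have hsum : ∑ ρ ∈ (xs_finite hp hζ D L Fr Dg b E ε n σ hn).toFinset, ep p (EEs Dg Λ Fr n ψ ρ) =
      ∑ h ∈ hF1.toFinset, ep p (EEs Dg Λ Fr n ψ ρ₀) * ep p (al2_lam Dg Λ Fr n σ ψ h) := by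
    symm
    refine Finset.sum_bij (fun h hh => tw Dg h ρ₀ (hF1.mem_toFinset.1 hh).2.1) ?_ ?_ ?_ ?_
    · intro h hh
      rw [Set.Finite.mem_toFinset]
      exact xs_tw L Dg b E ε n σ hE hn hρ₀ (hF1.mem_toFinset.1 hh)
    · intro h hh h' hh' heq
      apply MonoidHom.ext
      intro g
      have h1 := congrArg (fun φ : Gal(Ω/K) →* R => φ g) heq
      simp only [tw_apply] at h1
      exact mul_right_cancel h1
    · intro ρ hρ
      rw [Set.Finite.mem_toFinset] at hρ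
      obtain ⟨h, hh, he⟩ := xs_diff hp hζ L Dg b E ε n σ hn hρ₀ hρ
      exact ⟨h, hF1.mem_toFinset.2 hh, he.symm⟩
    · intro h hh
      rw [ees_tw Fr Dg Λ b E ε n σ ψ hn hρ₀ (hF1.mem_toFinset.1 hh), ep_add hp]
      rfl
  rw [hsum, ← Finset.mul_sum]
  by_cases hH : HIs Dg Λ Fr n σ ψ
  · have h1 : ∀ h ∈ hF1.toFinset, ep p (al2_lam Dg Λ Fr n σ ψ h) = 1 := by
      intro h hh
      rw [show al2_lam Dg Λ Fr n σ ψ h = 0 from hH h (hF1.mem_toFinset.1 hh), ep_zero]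
    rw [Finset.sum_congr rfl h1, Finset.sum_const, nsmul_eq_mul, mul_one, hcard,
      ffs_val hp hζ Fr Dg Λ b E ε n σ ψ hn hH hρ₀]
    ring
  · have h1 : ∃ h₁ ∈ H1 L Dg, al2_lam Dg Λ Fr n σ ψ h₁ ≠ 0 := by
      by_contra hcon
      apply hH
      intro h hh
      by_contra hne
      exact hcon ⟨h, hh, hne⟩
    obtain ⟨h₁, hh₁, hne⟩ := h1
    obtain ⟨Z, hZ⟩ : ∃ Z, Z = ∑ h ∈ hF1.toFinset, ep p (al2_lam Dg Λ Fr n σ ψ h) := ⟨_, rfl⟩
    have hinj : Function.Injective fun h : Gal(Ω/K) →* R => tw Dg h₁ h hh₁.2.1 := by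
      intro h h' heq
      apply MonoidHom.ext
      intro g
      have h2 := congrArg (fun φ : Gal(Ω/K) →* R => φ g) heq
      simp only [tw_apply] at h2
      exact mul_left_cancel h2
    have hmem : ∀ h ∈ hF1.toFinset, tw Dg h₁ h hh₁.2.1 ∈ hF1.toFinset := by
      intro h hh
      rw [Set.Finite.mem_toFinset] at hh ⊢
      refine ⟨tw_ft Dg h₁ h hh₁.2.1 hh₁.1 hh.1, fun g => ?_, fun v hv τ hτ => ?_⟩
      · rw [tw_apply, map_mul, hh₁.2.1, hh.2.1, one_mul]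
      · rw [tw_apply, hh₁.2.2 v hv τ hτ, hh.2.2 v hv τ hτ, one_mul]
    have himg : hF1.toFinset.image (fun h => tw Dg h₁ h hh₁.2.1) = hF1.toFinset := by
      apply Finset.eq_of_subset_of_card_le
      · intro x hx
        obtain ⟨h, hh, rfl⟩ := Finset.mem_image.1 hx
        exact hmem h hh
      · rw [Finset.card_image_of_injective _ hinj]
    have hZ2 : Z = ep p (al2_lam Dg Λ Fr n σ ψ h₁) * Z := by
      have e1 : Z = ∑ h ∈ hF1.toFinset.image (fun h => tw Dg h₁ h hh₁.2.1),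
          ep p (al2_lam Dg Λ Fr n σ ψ h) := by
        rw [himg, hZ]
      rw [Finset.sum_image fun x _ y _ hxy => hinj hxy] at e1
      refine e1.trans ?_
      rw [hZ, Finset.mul_sum]
      refine Finset.sum_congr rfl fun h hh => ?_
      have hh' := hF1.mem_toFinset.1 hh
      rw [al2_lam_tw Dg Λ Fr n σ ψ h₁ h hh₁.2.1 hh'.2.1, ep_add hp]
    have hZ0 : Z = 0 := by
      have e2 : (1 - ep p (al2_lam Dg Λ Fr n σ ψ h₁)) * Z = 0 := by
        rw [sub_mul, one_mul, ← hZ2, sub_self]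
      rcases mul_eq_zero.1 e2 with e3 | e3
      · exfalso
        exact hne ((ep_eq_one hp _).1 (sub_eq_zero.1 e3).symm)
      · exact e3
    rw [← hZ, hZ0, mul_zero]
    unfold FFs
    rw [dif_neg fun h => hH h.1, mul_zero]

theorem his_edge (hp : p.Prime) (hζ : IsPrimitiveRoot ζ p)
    (D : RD K p ζ) {L : LDs D.toRD0 Ω} (Fr : FR L) (Dg : GP p m l w N P R) (Λ : SF D.toRD0 Ω Dg) (b : Fin m → Kˣ)
    (E : Finset (Pl K)) (n : Finset (Pl K)) (σ : Pl K → R) (ψ : Pl K → Fin w → ZMod p)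
    (q q' : Pl K) (hE : Edge D (L := L) Dg b E n σ q q') (τ : R) (φ : Fin w → ZMod p)
    (h : HIs Dg Λ Fr (insert q n) (Function.update σ q τ) (Function.update ψ q φ)) :
    HIs Dg Λ Fr (insert q' n) (Function.update σ q' τ) (Function.update ψ q' φ) := by
  have key : ∀ (x : Pl K) (h' : Gal(Ω/K) →* R), x ∉ n →
      ∑ v ∈ insert x n, dt (Function.update ψ x φ v) (Dg.β (fun j => Dg.cv j (h' (Fr.F v)))
        (sg Dg (Function.update σ x τ) v)) = dt φ (Dg.β (fun j => Dg.cv j (h' (Fr.F x)))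
        (pu Dg τ)) + ∑ v ∈ n, dt (ψ v) (Dg.β (fun j => Dg.cv j (h' (Fr.F v))) (sg Dg σ v)) := by
    intro x h' hx
    rw [Finset.sum_insert hx]
    congr 1
    · rw [Function.update_self]
      have h1 : sg Dg (Function.update σ x τ) x = pu Dg τ := by
        unfold sg pu
        rw [Function.update_self]
      rw [h1]
    · refine Finset.sum_congr rfl fun v hv => ?_
      have h3 : v ≠ x := fun h => hx (h ▸ hv)
      rw [Function.update_of_ne h3]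
      have h1 : sg Dg (Function.update σ x τ) v = sg Dg σ v := by
        unfold sg
        rw [Function.update_of_ne h3]
      rw [h1]
  intro h' hh'
  have h1 := h h' hh'
  rw [key q h' hE.gq.2.2] at h1
  rw [key q' h' hE.gq'.2.2, ← h1_q hp hζ D Fr Dg hh' hE.gq.1 hE.gq'.1 hE.cls]
  exact h1

theorem ffs_edge [NeZero p] [Finite R] (hp : p.Prime) (hp2 : MOne p K) (hζ : IsPrimitiveRoot ζ p)
    (D : RD K p ζ) {L : LDs D.toRD0 Ω} (Fr : FR L) (Dg : GP p m l w N P R) (Λ : SF D.toRD0 Ω Dg) (b : Fin m → Kˣ)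
    (E : Finset (Pl K)) (ε : Pl K → Gal(Ω/K) → R) (n : Finset (Pl K)) (σ : Pl K → R)
    (ψ : Pl K → Fin w → ZMod p) (q q' : Pl K) (hE : Edge D (L := L) Dg b E n σ q q') (τ : R)
    (hτ : τ ^ p = 1) (φ : Fin w → ZMod p)
    (h : FFs Dg Λ Fr b E ε (insert q n) (Function.update σ q τ) (Function.update ψ q φ) ≠ 0) :
    FFs Dg Λ Fr b E ε (insert q' n) (Function.update σ q' τ) (Function.update ψ q' φ) ≠ 0 := by
  obtain ⟨h1, h2⟩ := ffs_ne Fr Dg Λ b E ε _ _ _ h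
  have h3 := his_edge hp hζ D Fr Dg Λ b E n σ ψ q q' hE τ φ h1
  obtain ⟨ρ', hρ'⟩ := xs_edge hp hp2 hζ D Fr Dg b E ε n σ q q' hE τ hτ h2
  have hn : ∀ v ∈ insert q' n, v ∉ D.S0 := by
    intro v hv
    rcases Finset.mem_insert.1 hv with h4 | h4
    · rw [h4]; exact hE.gq'.1.1
    · exact (hE.gn v h4).1.1
  rw [ffs_val hp hζ Fr Dg Λ b E ε _ _ _ hn h3 hρ', ← norm_ne_zero_iff, ep_norm]
  exact one_ne_zero

end H51.CUD
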