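import Pool.Agent.H51.CUD.DAL

/-!
# [H51 CUD DVC] Congruence lemmas and the change of one added prime

As in `H51/CUB/VCa.lean`, with the phase at S0.
-/

set_option autoImplicit false

open scoped NumberField
open IsDedekindDomain
open scoped Classical

noncomputable section

namespace H51.CUD

open H63.MA H38.BB H38.BG H57.PC H77.PC3 H51.CUB

variable {K : Type} [Field K] [NumberField K] {p : ℕ} {ζ : K} {Ω : Type} [Field Ω] [Algebra K Ω]
  [IsAlgClosure K Ω] {m l w N : ℕ} {P R : Type} [Group P] [Group R]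

omit [IsAlgClosure K Ω] in
theorem his_congr {D : RD0 K p ζ} {L : LDs D Ω} (Dg : GP p m l w N P R) (Λ : SF D Ω Dg) (Fr : FR L)
    (n : Finset (Pl K)) {σ σ' : Pl K → R} {ψ ψ' : Pl K → Fin w → ZMod p}
    (hσ : ∀ v ∈ n, σ v = σ' v) (hψ : ∀ v ∈ n, ψ v = ψ' v) (h : HIs Dg Λ Fr n σ ψ) :
    HIs Dg Λ Fr n σ' ψ' := by
  intro g hg
  rw [← h g hg]
  congr 1
  refine Finset.sum_congr rfl fun v hv => ?_
  unfold sg
  rw [hσ v hv, hψ v hv]

private theorem vca_choose {α : Type} (S S' : Set α) (hS : S = S') (h : ∃ x, x ∈ S)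
    (h' : ∃ x, x ∈ S') : h.choose = h'.choose := by
  subst hS
  rfl

omit [IsAlgClosure K Ω] in
theorem ffs_congr {D : RD0 K p ζ} {L : LDs D Ω} (Dg : GP p m l w N P R) (Λ : SF D Ω Dg) (Fr : FR L)
    (b : Fin m → Kˣ) (E : Finset (Pl K)) (ε : Pl K → Gal(Ω/K) → R) (n : Finset (Pl K))
    {σ σ' : Pl K → R} {ψ ψ' : Pl K → Fin w → ZMod p}
    (hσ : ∀ v ∈ n, σ v = σ' v) (hψ : ∀ v ∈ n, ψ v = ψ' v) :
    FFs Dg Λ Fr b E ε n σ ψ = FFs Dg Λ Fr b E ε n σ' ψ' := by
  have hX := xs_congr L Dg b E ε n hσ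
  unfold FFs
  by_cases h : HIs Dg Λ Fr n σ ψ ∧ ∃ ρ, ρ ∈ XS L Dg b E ε n σ
  · have h' : HIs Dg Λ Fr n σ' ψ' ∧ ∃ ρ, ρ ∈ XS L Dg b E ε n σ' :=
      ⟨his_congr Dg Λ Fr n hσ hψ h.1, by rw [← hX]; exact h.2⟩
    rw [dif_pos h, dif_pos h', vca_choose _ _ hX h.2 h'.2, EEs, EEs, ee_congr Dg Fr n hψ]
  · have h' : ¬ (HIs Dg Λ Fr n σ' ψ' ∧ ∃ ρ, ρ ∈ XS L Dg b E ε n σ') := by
      rintro ⟨h1, h2⟩
      exact h ⟨his_congr Dg Λ Fr n (fun v hv => (hσ v hv).symm) (fun v hv => (hψ v hv).symm) h1,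
        by rw [hX]; exact h2⟩
    rw [dif_neg h, dif_neg h']

private theorem vca_ll_prod (hp : p.Prime) (hζ : IsPrimitiveRoot ζ p) (D : RD0 K p ζ) {v : Pl K}
    (hv : v ∉ D.S0) {ι : Type} (s : Finset ι) (x : ι → Kˣ) (e : ι → ℕ) :
    D.LL v (∏ j ∈ s, x j ^ e j) = ∑ j ∈ s, (e j : ZMod p) * D.LL v (x j) := by
  induction s using Finset.induction_on with
  | empty => rw [Finset.prod_empty, Finset.sum_empty, LL_one hp hζ D hv]
  | insert a s ha ih =>
    rw [Finset.prod_insert ha, Finset.sum_insert ha, LL_mul hp hζ D hv, ll_pow hp hζ D hv, ih]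

private theorem vca_vn {r : ℕ} (n : Finset (Pl K)) (q : Fin r → Pl K) (i : Fin r) (q' : Pl K) :
    vn n (Function.update q i q') = insert q' (n ∪ (Finset.univ.erase i).image q) := by
  unfold vn
  ext v
  simp only [Finset.mem_union, Finset.mem_image, Finset.mem_univ, true_and, Finset.mem_insert,
    Finset.mem_erase, and_true]
  constructor
  · rintro (h | ⟨j, hj⟩)
    · exact Or.inr (Or.inl h)
    · by_cases hji : j = i
      · rw [hji, Function.update_self] at hj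
        exact Or.inl hj.symm
      · rw [Function.update_of_ne hji] at hj
        exact Or.inr (Or.inr ⟨j, hji, hj⟩)
  · rintro (h | h | ⟨j, hji, hj⟩)
    · exact Or.inr ⟨i, by rw [Function.update_self, h]⟩
    · exact Or.inl h
    · exact Or.inr ⟨j, by rw [Function.update_of_ne hji, hj]⟩

theorem vfs_step [NeZero p] [Finite R] (hp : p.Prime) (hp2 : MOne p K) (hζ : IsPrimitiveRoot ζ p)
    (D : RD K p ζ) {L : LDs D.toRD0 Ω} (Fr : FR L) (Dg : GP p m l w N P R) (Λ : SF D.toRD0 Ω Dg) (b : Fin m → Kˣ)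
    (E : Finset (Pl K)) (ε : Pl K → Gal(Ω/K) → R) (n : Finset (Pl K)) (σ : Pl K → R)
    (ψ : Pl K → Fin w → ZMod p) (hB : Bse D.toRD0 b E n) {r : ℕ} (τ : Fin r → R)
    (hτ : ∀ i, τ i ^ p = 1) (φ : Fin r → Fin w → ZMod p) (Q : Fin r → Finset (Pl K))
    (hQ : ∀ i, Cell D.toRD0 Dg b E n σ (Q i)) (q : Fin r → Pl K) (hq : ∀ i, q i ∈ Q i) (i : Fin r)
    (q' : Pl K) (hq' : q' ∈ Q i) (hne : ∀ j, j ≠ i → q' ≠ q j)
    (hs : ∀ j, j ≠ i → D.LL (q j) (D.pi q') = D.LL (q j) (D.pi (q i)))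
    (h : VFs Dg Λ Fr b E ε n σ ψ τ φ q ≠ 0) :
    VFs Dg Λ Fr b E ε n σ ψ τ φ (Function.update q i q') ≠ 0 := by
  unfold VFs at h
  by_cases hc : Function.Injective q ∧ ∀ i, q i ∉ n
  swap
  · rw [if_neg hc] at h
    exact absurd rfl h
  rw [if_pos hc] at h
  obtain ⟨hinj, hqn⟩ := hc
  have hq'g := (hQ i).gd q' hq'
  have hinj' : Function.Injective (Function.update q i q') := by
    intro j j' hjj
    by_cases h1 : j = i
    · by_cases h2 : j' = i
      · rw [h1, h2]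
      · rw [h1, Function.update_self, Function.update_of_ne h2] at hjj
        exact absurd hjj (hne j' h2)
    · by_cases h2 : j' = i
      · rw [h2, Function.update_self, Function.update_of_ne h1] at hjj
        exact absurd hjj.symm (hne j h1)
      · rw [Function.update_of_ne h1, Function.update_of_ne h2] at hjj
        exact hinj hjj
  have hqn' : ∀ j, Function.update q i q' j ∉ n := by
    intro j
    by_cases h1 : j = i
    · rw [h1, Function.update_self]
      exact hq'g.2.2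
    · rw [Function.update_of_ne h1]
      exact hqn j
  unfold VFs
  rw [if_pos ⟨hinj', hqn'⟩, vca_vn]
  have hvn : vn n q = insert (q i) (n ∪ (Finset.univ.erase i).image q) := by
    have h1 := vca_vn n q i (q i)
    rwa [Function.update_eq_self] at h1
  rw [hvn] at h
  obtain ⟨n', hn'⟩ : ∃ n', n' = n ∪ (Finset.univ.erase i).image q := ⟨_, rfl⟩
  have hmem : ∀ v, v ∈ n' ↔ v ∈ n ∨ ∃ j, j ≠ i ∧ q j = v := by
    intro v
    rw [hn']
    simp only [Finset.mem_union, Finset.mem_image, Finset.mem_univ, Finset.mem_erase, and_true]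
  rw [← hn'] at h ⊢
  have hsq : ∀ {X : Type} (σ : Pl K → X) (τ : Fin r → X),
      Function.update (vs σ q τ) (q i) (τ i) = vs σ q τ := by
    intro X σ τ
    rw [← vs_q σ hinj τ i, Function.update_eq_self]
  rw [← hsq σ τ, ← hsq ψ φ] at h
  have hnew : ∀ {X : Type} (σ : Pl K → X) (τ : Fin r → X), ∀ v ∈ insert q' n',
      Function.update (vs σ q τ) q' (τ i) v = vs σ (Function.update q i q') τ v := by
    intro X σ τ v hv
    by_cases h1 : v = q'
    · rw [h1, Function.update_self]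
      have h2 := vs_q σ hinj' τ i
      rw [Function.update_self] at h2
      exact h2.symm
    · rw [Function.update_of_ne h1]
      have hv' : v ∈ n' := (Finset.mem_insert.1 hv).resolve_left h1
      rcases (hmem v).1 hv' with h2 | ⟨j, hj, h2⟩
      · rw [vs_out σ τ (fun j h3 => hqn j (by rw [h3]; exact h2)),
          vs_out σ τ (fun j h3 => hqn' j (by rw [h3]; exact h2))]
      · rw [← h2, vs_q σ hinj τ j]
        have h3 := vs_q σ hinj' τ j
        rw [Function.update_of_ne hj] at h3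
        exact h3.symm
  rw [← ffs_congr Dg Λ Fr b E ε (insert q' n') (hnew σ τ) (hnew ψ φ)]
  refine ffs_edge hp hp2 hζ D Fr Dg Λ b E ε n' (vs σ q τ) (vs ψ q φ) (q i) q' ?_ (τ i) (hτ i)
    (φ i) h
  have hqg := (hQ i).gd (q i) (hq i)
  refine ⟨?_, ⟨hqg.1, hqg.2.1, ?_⟩, ⟨hq'g.1, hq'g.2.1, ?_⟩, hB.bs,
    (hQ i).cls _ (hq i) _ hq', ?_, fun v hv => (hQ i).lE v hv _ (hq i) _ hq', ?_⟩
  · intro v hv
    rcases (hmem v).1 hv with h2 | ⟨j, hj, h2⟩
    · exact hB.gn v h2
    · rw [← h2]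
      exact ⟨((hQ j).gd _ (hq j)).1, ((hQ j).gd _ (hq j)).2.1⟩
  · intro hv
    rcases (hmem _).1 hv with h2 | ⟨j, hj, h2⟩
    · exact hqn i h2
    · exact hj (hinj h2)
  · intro hv
    rcases (hmem _).1 hv with h2 | ⟨j, hj, h2⟩
    · exact hq'g.2.2 h2
    · exact hne j hj h2.symm
  · intro v hv
    rcases (hmem v).1 hv with h2 | ⟨j, hj, h2⟩
    · exact (hQ i).ln v h2 _ (hq i) _ hq'
    · rw [← h2]
      exact (hs j hj).symm
  · intro k
    have hdis : Disjoint n ((Finset.univ.erase i).image q) := by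
      rw [Finset.disjoint_right]
      intro v hv
      obtain ⟨j, -, rfl⟩ := Finset.mem_image.1 hv
      exact hqn j
    have hak : CUB.ak D.toRD0 b n' (sg Dg (vs σ q τ)) k = CUB.ak D.toRD0 b n (sg Dg σ) k *
        ∏ j ∈ Finset.univ.erase i, D.pi (q j) ^ (sg Dg (vs σ q τ) (q j) k).val := by
      unfold CUB.ak
      rw [hn', Finset.prod_union hdis, Finset.prod_image fun a _ b _ h => hinj h, ← mul_assoc]
      congr 2
      refine Finset.prod_congr rfl fun v hv => ?_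
      unfold sg
      rw [vs_out σ τ (fun j h3 => hqn j (by rw [h3]; exact hv))]
    have hv1 : q i ∉ D.S0 := hqg.1.1
    have hv2 : q' ∉ D.S0 := hq'g.1.1
    rw [hak]
    change D.toRD0.LL (q i) _ = D.toRD0.LL q' _
    rw [LL_mul hp hζ D.toRD0 hv1, LL_mul hp hζ D.toRD0 hv2,
      vca_ll_prod hp hζ D.toRD0 hv1, vca_ll_prod hp hζ D.toRD0 hv2]
    congr 1
    · exact (hQ i).la k _ (hq i) _ hq'
    · refine Finset.sum_congr rfl fun j hj => ?_
      have hji := Finset.ne_of_mem_erase hj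
      congr 1
      have hgj := ((hQ j).gd _ (hq j)).1
      have r1 := D.rec2 (q i) (q j) hqg.1 hgj fun h3 => hji (hinj h3).symm
      have r2 := D.rec2 q' (q j) hq'g.1 hgj (hne j hji)
      have r3 := hs j hji
      have r4 : D.q (q i) = D.q q' := (hQ i).cls _ (hq i) _ hq'
      rw [← r4, ← r1] at r2
      linear_combination -r2 - r3

end H51.CUD
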