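import Pool.Agent.H51.CUD.DDu
import Pool.Agent.H89.BRG.Qd
import Pool.Agent.H51.CUB.RHX
import Pool.Agent.H63.MA.GLift

/-!
# [H51 CUD DMS] The master reciprocity law with a functional at S0

As `mas` in `H51/CUB/RCC.lean` (and `br_tri` in `H51/CUB/BRT.lean`: its group `GX p m` and the function `te A B C` are public; `te_coc`), but `A` is not a local `p`-th power at `S0`.
Let `D1 = dq D (q 0)`, `D2 = dq D (q 1)` (`PS` by `dq_ps`). On `dec (Q.P v)`, `v ∈ S0`, the characters `kk D1`, `kk D2` are `0` (`ps_triv`, `H63/MC/CLkC`), so `r` is additive there (`hr.add`); it has finite level.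
`lock` (`H63/MC/CLkC`) gives `x₀ ∈ Kˣ` with `kk x₀ = r` on all `dec (Q.P v)`, `v ∈ S0`; `hG x₀` gives `x`, `T₀` (good primes) with `x₀ * x⁻¹ ∈ PS`, so `kk x = kk x₀ = r` on `dec (Q.P v)` (`ps_triv`, `kk_mul_arg`).
Put `r' = r - kk x`: `r' (g h) = r' g + r' h + kk D2 g * kk D1 h`, `r' = 0` on `dec (Q.P v)`, `r' (L.t v) = - ord v x` for `v ∉ S0` (`kk x (L.t v) = ord v x`, see `hkt` in `br_tri`), `r' (F v) = r (F v) - LL v x` (`Fr.kf`).
Homomorphism `ρ : Γ → GX p m`, `m 0 2 = 1`, `m 1 0 = 1`, other entries `0`, `a = ![D1, D2, A]`: `ρ g = (kk (a i) g, y)` with `y 0 2 = Y g`, `y 1 0 = r' g`, other entries `0`. Cocycle `e = te A' B' 0`, `A' 1 0 2 = 1`, `B' 1 0 2 = 1` (other entries 0; the condition of `te_coc` holds as `m 0 2 = m 1 0 = 1`), i.e.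
`e (ρ g) (ρ h) = kk D2 g * Y h + r' g * kk A h`. Apply `brg2q` (`H89/BRG/Qd`) with `Q`, `c = ![D2, A]`:
* `hk`: `e (ρ g) (ρ h) = 0` if `kk D2 g = 0` and `kk A h = 0` (take the function `0`); `hS`: on `dec (Q.P v)`: `kk D2 g = 0`, `r' g = 0`, so it is `0`.
* `htm`: `ρ τ ^ p = 1` for `τ ∈ inr L v`: `m i j * x_i * x_j = 0` there: `ord v D1 * ord v A = 0` (`hAq`), `ord v D2 * ord v D1 = 0` (distinct primes), so `ρ τ ^ k = (k x, k y)` as in `br_tri` (the entry `y 1 0` may be nonzero, this does not matter).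
* `T` = the four primes `q i e`, `S` and `T₀`; all are good, so `hnp` is empty. `hur`: for `v ∉ S0 ∪ T`: `ρ (L.t v) = 1`: all orders are `0` mod `p`, `Y (L.t v) = r (L.t v) = 0`.
* `iv e (ρ (F v)) (ρ (L.t v)) = LL v D2 * 0 + (r (F v) - LL v x) * ord v A - ord v D2 * Y (F v) + ord v x * LL v A`.
The sum over `T` is `0`: `∑ v ∈ T, ord v A * r (F v) = ∑ v ∈ S` (`ord v A = 0` mod `p` outside `S`), `∑ v ∈ T, ord v D2 * Y (F v) = df Fr Y (q 1)` (`dq_ord`), `∑ v ∈ T, (ord v A * LL v x - ord v x * LL v A) = - F x = - ∑ j, c j * kk x (σ j) = - ∑ j, c j * r (σ j)` by `hD x T` and `kk x = r` on `dec`.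
-/

set_option autoImplicit false

open scoped NumberField
open IsDedekindDomain
open scoped Classical

noncomputable section

namespace H51.CUD

open H63.MA H38.BB H38.BG H57.PC H57.BRA H51.CUB H89.BRG

/-- the group of the master law: `(kk D1, kk D2, kk A, Y, r)` -/
@[ext] structure GM (p : ℕ) where
  a : ZMod p
  b : ZMod p
  c : ZMod p
  y : ZMod p
  r : ZMod p

instance (p : ℕ) : Group (GM p) where
  mul s t := ⟨s.a + t.a, s.b + t.b, s.c + t.c, s.y + t.y + s.a * t.c, s.r + t.r + s.b * t.a⟩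
  one := ⟨0, 0, 0, 0, 0⟩
  inv s := ⟨-s.a, -s.b, -s.c, -s.y + s.a * s.c, -s.r + s.b * s.a⟩
  mul_assoc s t u := by
    change (⟨s.a + t.a + u.a, s.b + t.b + u.b, s.c + t.c + u.c,
      s.y + t.y + s.a * t.c + u.y + (s.a + t.a) * u.c,
      s.r + t.r + s.b * t.a + u.r + (s.b + t.b) * u.a⟩ : GM p) =
      ⟨s.a + (t.a + u.a), s.b + (t.b + u.b), s.c + (t.c + u.c),
      s.y + (t.y + u.y + t.a * u.c) + s.a * (t.c + u.c),
      s.r + (t.r + u.r + t.b * u.a) + s.b * (t.a + u.a)⟩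
    refine GM.ext ?_ ?_ ?_ ?_ ?_ <;> ring
  one_mul s := by
    change (⟨0 + s.a, 0 + s.b, 0 + s.c, 0 + s.y + 0 * s.c, 0 + s.r + 0 * s.a⟩ : GM p) = s
    refine GM.ext ?_ ?_ ?_ ?_ ?_ <;> simp
  mul_one s := by
    change (⟨s.a + 0, s.b + 0, s.c + 0, s.y + 0 + s.a * 0, s.r + 0 + s.b * 0⟩ : GM p) = s
    refine GM.ext ?_ ?_ ?_ ?_ ?_ <;> simp
  inv_mul_cancel s := by
    change (⟨-s.a + s.a, -s.b + s.b, -s.c + s.c, -s.y + s.a * s.c + s.y + -s.a * s.c,
      -s.r + s.b * s.a + s.r + -s.b * s.a⟩ : GM p) = ⟨0, 0, 0, 0, 0⟩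
    refine GM.ext ?_ ?_ ?_ ?_ ?_ <;> ring

private theorem gm_mul {p : ℕ} (s t : GM p) : s * t =
    ⟨s.a + t.a, s.b + t.b, s.c + t.c, s.y + t.y + s.a * t.c, s.r + t.r + s.b * t.a⟩ := rfl

private theorem gm_one {p : ℕ} : (1 : GM p) = ⟨0, 0, 0, 0, 0⟩ := rfl

private theorem gm_pow {p : ℕ} (s : GM p) (h1 : s.a * s.c = 0) (h2 : s.b * s.a = 0) (k : ℕ) :
    s ^ k = ⟨(k : ZMod p) * s.a, (k : ZMod p) * s.b, (k : ZMod p) * s.c, (k : ZMod p) * s.y,
      (k : ZMod p) * s.r⟩ := by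
  induction k with
  | zero =>
    rw [pow_zero, gm_one, Nat.cast_zero]
    refine GM.ext ?_ ?_ ?_ ?_ ?_ <;> simp
  | succ k ih =>
    rw [pow_succ, ih, gm_mul, Nat.cast_succ]
    refine GM.ext ?_ ?_ ?_ ?_ ?_
    · show (k : ZMod p) * s.a + s.a = _
      ring
    · show (k : ZMod p) * s.b + s.b = _
      ring
    · show (k : ZMod p) * s.c + s.c = _
      ring
    · show (k : ZMod p) * s.y + s.y + (k : ZMod p) * s.a * s.c = ((k : ZMod p) + 1) * s.y
      linear_combination (k : ZMod p) * h1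
    · show (k : ZMod p) * s.r + s.r + (k : ZMod p) * s.b * s.a = ((k : ZMod p) + 1) * s.r
      linear_combination (k : ZMod p) * h2

private theorem gm_finite {p : ℕ} [NeZero p] : Finite (GM p) := by
  have h : Function.Injective (fun s : GM p => (s.a, s.b, s.c, s.y, s.r)) := by
    intro s t hst
    simp only [Prod.mk.injEq] at hst
    exact GM.ext hst.1 hst.2.1 hst.2.2.1 hst.2.2.2.1 hst.2.2.2.2
  exact Finite.of_injective _ h

/-- the cocycle `kk D2 ∪ Y + r ∪ kk A` -/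
def em {p : ℕ} (s t : GM p) : ZMod p := s.b * t.y + s.r * t.c

private theorem em_coc {p : ℕ} : Coc p (em (p := p)) := by
  refine ⟨fun s => ?_, fun s => ?_, fun s t u => ?_⟩
  · show (0 : ZMod p) * s.y + 0 * s.c = 0
    ring
  · show s.b * (0 : ZMod p) + s.r * 0 = 0
    ring
  · show t.b * u.y + t.r * u.c + (s.b * (t.y + u.y + t.a * u.c) + s.r * (t.c + u.c)) =
      (s.b + t.b) * u.y + (s.r + t.r + s.b * t.a) * u.c + (s.b * t.y + s.r * t.c)
    ring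

variable {K : Type} [Field K] [NumberField K] {p : ℕ} {ζ : K} {Ω : Type} [Field Ω] [Algebra K Ω]
  [IsAlgClosure K Ω]

theorem mas_s (hp : p.Prime) (hp2 : MOne p K) (hζ : IsPrimitiveRoot ζ p) (hz : Z2 p K)
    {D : RD0 K p ζ} {L : LDs D Ω} (Fr : FR L) (Q : DP K Ω) (hG : GdRep D)
    (q : Fin 2 → Fin 2 → Pl K) (hq : SqP D q) (A : Kˣ) (S : Finset (Pl K))
    (hS : ∀ v ∈ S, D.Gd v) (hAS : ∀ v, v ∉ D.S0 → v ∉ S → ((ord v A : ℤ) : ZMod p) = 0)
    (hAq : ∀ i e, ((ord (q i e) A : ℤ) : ZMod p) = 0)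
    {s : ℕ} (pl : Fin s → Pl K) (hpl : ∀ j, pl j ∈ D.S0) (σ : Fin s → Gal(Ω/K))
    (hσ : ∀ j, σ j ∈ dec (K := K) (Q.P (pl j))) (c : Fin s → ZMod p)
    (hD : DuA D (fun x => ∑ j, c j * kk p ζ x (σ j)) A)
    {Y r : Gal(Ω/K) → ZMod p} (hY : Rho L (dq D (q 0)) A Y)
    (hr : Rho L (dq D (q 1)) (dq D (q 0)) r) :
    df Fr Y (q 1) = ∑ v ∈ S, ((ord v A : ℤ) : ZMod p) * r (Fr.F v) + ∑ j, c j * r (σ j) := by
  have hne : NeZero p := ⟨hp.ne_zero⟩
  have hfin : Finite (GM p) := gm_finite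
  obtain ⟨D1, hD1⟩ : ∃ D1, D1 = dq D (q 0) := ⟨_, rfl⟩
  obtain ⟨D2, hD2⟩ : ∃ D2, D2 = dq D (q 1) := ⟨_, rfl⟩
  have hps1 : PS p ζ D.S0 D1 := by
    rw [hD1]
    exact dq_ps hp D hq 0
  have hps2 : PS p ζ D.S0 D2 := by
    rw [hD2]
    exact dq_ps hp D hq 1
  rw [← hD1] at hY
  rw [← hD1, ← hD2] at hr
  have hr1 : r 1 = 0 := rho_map_one hr
  have hkt : ∀ (x : Kˣ) (v : Pl K), v ∉ D.S0 → kk p ζ x (L.t v) = ((ord v x : ℤ) : ZMod p) := by
    intro x v hv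
    rw [gtw_t L v hv]
    exact ld_kk_t hp hζ (fun h => hv (D.above v h)) (D.pi_self v hv) (L.ld v hv) x
  -- the element `x`
  have hadd : ∀ v ∈ D.S0, ∀ u u' : Gal(Ω/K), u ∈ dec (K := K) (Q.P v) →
      r (u * u') = r u + r u' := by
    intro v hv u u' hu
    rw [hr.add, ps_triv hp hp2 hζ D Q D2 hps2 v hv u hu, zero_mul, add_zero]
  obtain ⟨δ, hδ⟩ : ∃ δ : (v : Pl K) → dec (K := K) (Q.P v) →* Multiplicative (ZMod p),
      ∀ v ∈ D.S0, ∀ u : dec (K := K) (Q.P v), δ v u = Multiplicative.ofAdd (r u) := by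
    refine ⟨fun v => if h : v ∈ D.S0 then MonoidHom.mk'
      (fun u : dec (K := K) (Q.P v) => Multiplicative.ofAdd (r u)) (fun u u' => by
        show Multiplicative.ofAdd (r ((u : Gal(Ω/K)) * (u' : Gal(Ω/K)))) = _
        rw [hadd v h _ _ u.2]
        rfl) else 1, fun v hv u => ?_⟩
    simp only [dif_pos hv]
    rfl
  obtain ⟨x₀, hx₀⟩ := lock hp hζ D.S0 Q δ (by
    intro v hv
    obtain ⟨F, hF, h1⟩ := hr.lev
    refine ⟨F, hF, fun u hu => ?_⟩
    have h2 := h1 1 u hu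
    rw [one_mul, hr1] at h2
    rw [hδ v hv, h2]
    rfl)
  obtain ⟨x, T₀, hT₀, hxT, hxps⟩ := hG x₀
  have hx : ∀ v ∈ D.S0, ∀ u ∈ dec (K := K) (Q.P v), kk p ζ x u = r u := by
    intro v hv u hu
    have h1 := hx₀ v hv ⟨u, hu⟩
    rw [hδ v hv] at h1
    have h2 : kk p ζ x₀ u = kk p ζ (x₀ * x⁻¹) u + kk p ζ x u := by
      rw [← kk_mul_arg hp hζ, inv_mul_cancel_right]
    rw [ps_triv hp hp2 hζ D Q _ hxps v hv u hu, zero_add] at h2
    rw [← h2]
    exact h1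
  -- the set of primes
  obtain ⟨T, hTd⟩ : ∃ T : Finset (Pl K), T = (Finset.univ.image fun ie : Fin 2 × Fin 2 =>
    q ie.1 ie.2) ∪ S ∪ T₀ := ⟨_, rfl⟩
  have hqT : ∀ i e, q i e ∈ T := by
    intro i e
    rw [hTd]
    exact Finset.mem_union_left _ (Finset.mem_union_left _
      (Finset.mem_image.2 ⟨(i, e), Finset.mem_univ _, rfl⟩))
  have hST : S ⊆ T := by
    intro v hv
    rw [hTd]
    exact Finset.mem_union_left _ (Finset.mem_union_right _ hv)
  have hT₀T : T₀ ⊆ T := by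
    intro v hv
    rw [hTd]
    exact Finset.mem_union_right _ hv
  have hTG : ∀ v ∈ T, D.Gd v := by
    intro v hv
    rw [hTd, Finset.mem_union, Finset.mem_union] at hv
    rcases hv with (hv | hv) | hv
    · obtain ⟨⟨i, e⟩, -, rfl⟩ := Finset.mem_image.1 hv
      exact hq.gd i e
    · exact hS v hv
    · exact hT₀ v hv
  have hord1 : ∀ v, v ∉ D.S0 → v ∉ T → ((ord v D1 : ℤ) : ZMod p) = 0 := by
    intro v hv hvT
    have e0 : v ≠ q 0 0 := fun h => hvT (by rw [h]; exact hqT 0 0)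
    have e1 : v ≠ q 0 1 := fun h => hvT (by rw [h]; exact hqT 0 1)
    rw [hD1, dq_ord D hq 0 v hv, if_neg e0, if_neg e1, sub_zero, Int.cast_zero]
  have hord2 : ∀ v, v ∉ D.S0 → v ∉ T → ((ord v D2 : ℤ) : ZMod p) = 0 := by
    intro v hv hvT
    have e0 : v ≠ q 1 0 := fun h => hvT (by rw [h]; exact hqT 1 0)
    have e1 : v ≠ q 1 1 := fun h => hvT (by rw [h]; exact hqT 1 1)
    rw [hD2, dq_ord D hq 1 v hv, if_neg e0, if_neg e1, sub_zero, Int.cast_zero]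
  have hdis : ∀ v, v ∉ D.S0 → ((ord v D2 : ℤ) : ZMod p) * ((ord v D1 : ℤ) : ZMod p) = 0 := by
    intro v hv
    rw [hD1, hD2, dq_ord D hq 0 v hv, dq_ord D hq 1 v hv]
    have hne' : ∀ e e', q 0 e ≠ q 1 e' := fun e e' h => absurd (hq.inj _ _ _ _ h).1 (by decide)
    by_cases h1 : v = q 0 0
    · have e0 : v ≠ q 1 0 := by rw [h1]; exact hne' 0 0
      have e1 : v ≠ q 1 1 := by rw [h1]; exact hne' 0 1
      rw [if_neg e0, if_neg e1, sub_zero, Int.cast_zero, zero_mul]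
    · by_cases h2 : v = q 0 1
      · have e0 : v ≠ q 1 0 := by rw [h2]; exact hne' 1 0
        have e1 : v ≠ q 1 1 := by rw [h2]; exact hne' 1 1
        rw [if_neg e0, if_neg e1, sub_zero, Int.cast_zero, zero_mul]
      · rw [if_neg h1, if_neg h2, sub_zero, Int.cast_zero, mul_zero]
  have hdisA : ∀ v, v ∉ D.S0 → ((ord v D1 : ℤ) : ZMod p) * ((ord v A : ℤ) : ZMod p) = 0 := by
    intro v hv
    by_cases h1 : v = q 0 0
    · rw [h1, hAq, mul_zero]
    · by_cases h2 : v = q 0 1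
      · rw [h2, hAq, mul_zero]
      · rw [hD1, dq_ord D hq 0 v hv, if_neg h1, if_neg h2, sub_zero, Int.cast_zero, zero_mul]
  -- the homomorphism
  let ρ : Gal(Ω/K) →* GM p := MonoidHom.mk'
    (fun g => ⟨kk p ζ D1 g, kk p ζ D2 g, kk p ζ A g, Y g, r g - kk p ζ x g⟩) (by
      intro g h
      rw [gm_mul]
      refine GM.ext (kk_mul _ _ _) (kk_mul _ _ _) (kk_mul _ _ _) (hY.add g h) ?_
      show r (g * h) - kk p ζ x (g * h) = r g - kk p ζ x g + (r h - kk p ζ x h) +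
        kk p ζ D2 g * kk p ζ D1 h
      rw [hr.add, kk_mul]
      ring)
  have hft : H38.ML.FT ρ := by
    have h1 : Lev (fun g : Gal(Ω/K) => (kk p ζ D1 g, kk p ζ D2 g)) :=
      gtriv_lev (gtriv_kk hp hζ D1) (gtriv_kk hp hζ D2) fun a b => (a, b)
    have h2 : Lev (fun g : Gal(Ω/K) => (kk p ζ A g, Y g)) :=
      gtriv_lev (gtriv_kk hp hζ A) hY.lev fun a b => (a, b)
    have h3 : Lev (fun g : Gal(Ω/K) => r g - kk p ζ x g) :=
      gtriv_lev hr.lev (gtriv_kk hp hζ x) fun a b => a - b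
    have h4 := gtriv_lev h1 (gtriv_lev h2 h3 fun a b => (a, b))
      fun a b => (⟨a.1, a.2, b.1.1, b.1.2, b.2⟩ : GM p)
    obtain ⟨F, hF, h5⟩ := h4
    refine ⟨F, hF, fun u hu => ?_⟩
    have h6 := h5 1 u hu
    rw [one_mul] at h6
    rw [MonoidHom.mem_ker]
    have h7 : ρ u = ρ 1 := h6
    rw [h7, map_one]
  have hkey := brg2q hp hp2 hζ hz Q Fr (em_coc (p := p)) hft ![D2, A]
    (by
      refine ⟨fun _ => 0, gtriv_const 0, fun g hg h hh => ?_⟩
      have h1 : kk p ζ D2 g = 0 := hg 0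
      have h2 : kk p ζ A h = 0 := hh 1
      show (0 : ZMod p) = 0 + 0 + (kk p ζ D2 g * Y h + (r g - kk p ζ x g) * kk p ζ A h)
      rw [h1, h2]
      ring)
    (by
      intro v hv
      refine ⟨fun _ => 0, gtriv_const 0, fun g hg h hh => ?_⟩
      have h1 : kk p ζ D2 g = 0 := ps_triv hp hp2 hζ D Q D2 hps2 v hv g hg
      show (0 : ZMod p) = 0 + 0 + (kk p ζ D2 g * Y h + (r g - kk p ζ x g) * kk p ζ A h)
      rw [h1, hx v hv g hg]
      ring)
    (by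
      intro v hv τ hτ
      have e1 := kk_inr hp hζ L v hv D1 τ hτ
      have e2 := kk_inr hp hζ L v hv D2 τ hτ
      have e3 := kk_inr hp hζ L v hv A τ hτ
      rw [gm_pow, gm_one]
      · refine GM.ext ?_ ?_ ?_ ?_ ?_ <;> (rw [ZMod.natCast_self]; exact zero_mul _)
      · show kk p ζ D1 τ * kk p ζ A τ = 0
        rw [e1, e3]
        linear_combination (kk p ζ (D.pi v) τ) ^ 2 * hdisA v hv
      · show kk p ζ D2 τ * kk p ζ D1 τ = 0
        rw [e1, e2]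
        linear_combination (kk p ζ (D.pi v) τ) ^ 2 * hdis v hv)
    T (fun v hv => (hTG v hv).1)
    (by
      intro v hv hvT
      rw [gm_one]
      refine GM.ext ?_ ?_ ?_ (hY.tz v hv) ?_
      · show kk p ζ D1 (L.t v) = 0
        rw [hkt _ v hv, hord1 v hv hvT]
      · show kk p ζ D2 (L.t v) = 0
        rw [hkt _ v hv, hord2 v hv hvT]
      · show kk p ζ A (L.t v) = 0
        rw [hkt _ v hv, hAS v hv fun h => hvT (hST h)]
      · show r (L.t v) - kk p ζ x (L.t v) = 0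
        rw [hr.tz v hv, hkt _ v hv, hxT v hv fun h => hvT (hT₀T h), Int.cast_zero, sub_zero])
    (fun v hv hnp => absurd (hTG v hv).2 hnp)
  have hiv : ∀ v ∈ T, iv em (ρ (Fr.F v)) (ρ (L.t v)) =
      ((ord v A : ℤ) : ZMod p) * r (Fr.F v) - ((ord v D2 : ℤ) : ZMod p) * Y (Fr.F v) -
      (((ord v A : ℤ) : ZMod p) * D.LL v x - ((ord v x : ℤ) : ZMod p) * D.LL v A) := by
    intro v hv
    have hv0 := (hTG v hv).1
    show kk p ζ D2 (Fr.F v) * Y (L.t v) + (r (Fr.F v) - kk p ζ x (Fr.F v)) * kk p ζ A (L.t v) -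
      (kk p ζ D2 (L.t v) * Y (Fr.F v) + (r (L.t v) - kk p ζ x (L.t v)) * kk p ζ A (Fr.F v)) = _
    simp only [hY.tz v hv0, hr.tz v hv0, hkt _ v hv0, Fr.kf v hv0]
    ring
  rw [Finset.sum_congr rfl hiv, Finset.sum_sub_distrib, Finset.sum_sub_distrib] at hkey
  have h1 : ∑ v ∈ T, ((ord v A : ℤ) : ZMod p) * r (Fr.F v) =
      ∑ v ∈ S, ((ord v A : ℤ) : ZMod p) * r (Fr.F v) := by
    symm
    refine Finset.sum_subset hST fun v hv hvS => ?_
    rw [hAS v (hTG v hv).1 hvS, zero_mul]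
  have h2 : ∑ v ∈ T, ((ord v D2 : ℤ) : ZMod p) * Y (Fr.F v) = df Fr Y (q 1) := by
    have h : ∀ v ∈ T, ((ord v D2 : ℤ) : ZMod p) * Y (Fr.F v) =
        (if v = q 1 0 then Y (Fr.F v) else 0) - (if v = q 1 1 then Y (Fr.F v) else 0) := by
      intro v hv
      rw [hD2, dq_ord D hq 1 v (hTG v hv).1, Int.cast_sub, sub_mul]
      congr 1
      · split_ifs
        · rw [Int.cast_one, one_mul]
        · rw [Int.cast_zero, zero_mul]
      · split_ifs
        · rw [Int.cast_one, one_mul]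
        · rw [Int.cast_zero, zero_mul]
    rw [Finset.sum_congr rfl h, Finset.sum_sub_distrib, Finset.sum_ite_eq', Finset.sum_ite_eq',
      if_pos (hqT 1 0), if_pos (hqT 1 1)]
    rfl
  have h3 := hD x T hTG fun v hv hvT => ⟨by
    rw [hxT v hv fun h => hvT (hT₀T h), Int.cast_zero], hAS v hv fun h => hvT (hST h)⟩
  have h4 : ∑ j, c j * kk p ζ x (σ j) = ∑ j, c j * r (σ j) :=
    Finset.sum_congr rfl fun j _ => by rw [hx (pl j) (hpl j) (σ j) (hσ j)]
  rw [h1, h2] at hkey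
  have h5 : (fun x => ∑ j, c j * kk p ζ x (σ j)) x = ∑ j, c j * r (σ j) := h4
  rw [h5] at h3
  linear_combination -hkey - h3

end H51.CUD
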