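import Pool.Agent.H51.CUB.SQP
import Pool.Agent.H51.CUD.DCB

/-!
# [H51 CUD DSQ] The phase over a square, with the phase at S0

As in `H51/CUB/SQP.lean` (read its header). The points `Λ.σ j` behave as the Frobenius elements of the primes of `n` (`sf_pi`).
-/

set_option autoImplicit false

open scoped NumberField
open IsDedekindDomain
open scoped Classical

noncomputable section

namespace H51.CUD

open H63.MA H38.BB H38.BG H57.PC H77.PC3 H51.CUB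

variable {K : Type} [Field K] [NumberField K] {p : ℕ} {ζ : K} {Ω : Type} [Field Ω] [Algebra K Ω]
  [IsAlgClosure K Ω] {m l w N : ℕ} {P R : Type} [Group P] [Group R]

section aux

private theorem sq_two (a : Fin 2) : a = 0 ∨ a = 1 := by
  revert a
  decide

private theorem sq_inv (hp : p.Prime) (hζ : IsPrimitiveRoot ζ p) (a : Kˣ) (g : Gal(Ω/K)) :
    kk p ζ a⁻¹ g = -kk p ζ a g := by
  have h := kk_mul_arg hp hζ a a⁻¹ g
  rw [mul_inv_cancel, gkum_one_arg hp hζ] at h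
  exact (neg_eq_of_add_eq_zero_right h.symm).symm

private theorem sq_div (hp : p.Prime) (hζ : IsPrimitiveRoot ζ p) (a b : Kˣ) (g : Gal(Ω/K)) :
    kk p ζ (a / b) g = kk p ζ a g - kk p ζ b g := by
  rw [div_eq_mul_inv, kk_mul_arg hp hζ, sq_inv hp hζ, sub_eq_add_neg]

private theorem sq_pow (hp : p.Prime) (hζ : IsPrimitiveRoot ζ p) (a : Kˣ) (n : ℕ)
    (g : Gal(Ω/K)) : kk p ζ (a ^ n) g = (n : ZMod p) * kk p ζ a g := by
  rw [← zpow_natCast, kk_zpow_arg hp hζ, Int.cast_natCast]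

private theorem sq_kkt (hp : p.Prime)
    (hζ : IsPrimitiveRoot ζ p) {D : RD0 K p ζ} (L : LDs D Ω) (a : Kˣ) (v : Pl K) (hv : v ∉ D.S0) :
    kk p ζ a (L.t v) = ((ord v a : ℤ) : ZMod p) := by
  rw [gtw_t L v hv]
  exact ld_kk_t hp hζ (fun h => hv (D.above v h)) (D.pi_self v hv) (L.ld v hv) a

/-- sums over `vn` -/
private theorem sq_vn {A : Type} [AddCommMonoid A] {n : Finset (Pl K)} {q : Fin 2 → Pl K}
    (hq : Function.Injective q) (hn : ∀ i, q i ∉ n) (f : Pl K → A) :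
    ∑ v ∈ vn n q, f v = ∑ v ∈ n, f v + ∑ i, f (q i) := by
  unfold vn
  rw [Finset.sum_union, Finset.sum_image (fun x _ y _ h => hq h)]
  rw [Finset.disjoint_left]
  intro v hv hv'
  obtain ⟨i, -, rfl⟩ := Finset.mem_image.1 hv'
  exact hn i hv

private theorem sq_inj {D : RD0 K p ζ} {b : Fin m → Kˣ} {E n : Finset (Pl K)}
    {q : Fin 2 → Fin 2 → Pl K} (hq : SquH D b E n q) (e : Fin 2 → Fin 2) :
    Function.Injective fun i => q i (e i) := fun i j h => (hq.sq.inj i _ j _ h).1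

private theorem sq_out {D : RD0 K p ζ} {b : Fin m → Kˣ} {E n : Finset (Pl K)}
    {q : Fin 2 → Fin 2 → Pl K} (hq : SquH D b E n q) (e : Fin 2 → Fin 2) {v : Pl K} (hv : v ∈ n)
    (i : Fin 2) : q i (e i) ≠ v := by
  rintro rfl
  exact (hq.out i (e i)).2 hv

private theorem sq_vsn {X : Type} {D : RD0 K p ζ} {b : Fin m → Kˣ} {E n : Finset (Pl K)}
    {q : Fin 2 → Fin 2 → Pl K} (hq : SquH D b E n q) (e : Fin 2 → Fin 2) {v : Pl K} (hv : v ∈ n)
    (σ : Pl K → X) (τ : Fin 2 → X) : vs σ (fun i => q i (e i)) τ v = σ v :=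
  vs_out σ τ (sq_out hq e hv)

private theorem sq_vsq {X : Type} {D : RD0 K p ζ} {b : Fin m → Kˣ} {E n : Finset (Pl K)}
    {q : Fin 2 → Fin 2 → Pl K} (hq : SquH D b E n q) (e : Fin 2 → Fin 2)
    (σ : Pl K → X) (τ : Fin 2 → X) (j : Fin 2) :
    vs σ (fun i => q i (e i)) τ (q j (e j)) = τ j :=
  vs_q σ (sq_inj hq e) τ j

/-- the Kummer data -/
private theorem sq_ak [NeZero p] (hp : p.Prime) (hζ : IsPrimitiveRoot ζ p) {D : RD0 K p ζ}
    (Dg : GP p m l w N P R) {b : Fin m → Kˣ} {E n : Finset (Pl K)} {q : Fin 2 → Fin 2 → Pl K}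
    (hq : SquH D b E n q) (e : Fin 2 → Fin 2) (σ : Pl K → R) (τ : Fin 2 → R) (k : Fin m)
    (g : Gal(Ω/K)) :
    kk p ζ (CUB.ak D b (vn n fun i => q i (e i)) (sg Dg (vs σ (fun i => q i (e i)) τ)) k) g =
      kk p ζ (b k) g + ∑ v ∈ n, sg Dg σ v k * kk p ζ (D.pi v) g +
        ∑ i, pu Dg (τ i) k * kk p ζ (D.pi (q i (e i))) g := by
  unfold CUB.ak
  rw [kk_mul_arg hp hζ, kk_prod_arg hp hζ, sq_vn (sq_inj hq e) (fun i => (hq.out i (e i)).2),
    add_assoc]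
  congr 2
  · refine Finset.sum_congr rfl fun v hv => ?_
    rw [sq_pow hp hζ, ZMod.natCast_zmod_val]
    unfold sg
    rw [sq_vsn hq e hv]
  · refine Finset.sum_congr rfl fun i _ => ?_
    rw [sq_pow hp hζ, ZMod.natCast_zmod_val]
    unfold sg
    rw [sq_vsq hq e]
    rfl

/-- the Kummer functions of the two directions -/
private def sqf (Ω : Type) [Field Ω] [Algebra K Ω] (D : RD0 K p ζ) (q : Fin 2 → Fin 2 → Pl K)
    (e : Fin 2 → Fin 2) (i : Fin 2) (g : Gal(Ω/K)) : ZMod p :=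
  if e i = 1 then kk p ζ (D.pi (q i 1)) g - kk p ζ (D.pi (q i 0)) g else 0

private def sqd (Ω : Type) [Field Ω] [Algebra K Ω] (D : RD0 K p ζ) (q : Fin 2 → Fin 2 → Pl K)
    (e : Fin 2 → Fin 2) : Fin 3 → Gal(Ω/K) → ZMod p :=
  ![sqf Ω D q e 0, sqf Ω D q e 1, fun _ => 0]

private def sqt (τ : Fin 2 → R) : Fin 3 → R := ![τ 0, τ 1, 1]

private theorem sq_fadd (D : RD0 K p ζ) (q : Fin 2 → Fin 2 → Pl K)
    (e : Fin 2 → Fin 2) (i : Fin 2) (g h : Gal(Ω/K)) :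
    sqf Ω D q e i (g * h) = sqf Ω D q e i g + sqf Ω D q e i h := by
  unfold sqf
  split_ifs
  · rw [kk_mul, kk_mul]
    ring
  · rw [add_zero]

private theorem sq_yh [NeZero p] (hp : p.Prime) (hζ : IsPrimitiveRoot ζ p) {D : RD0 K p ζ}
    {L : LDs D Ω} (Dg : GP p m l w N P R) {b : Fin m → Kˣ} {E n : Finset (Pl K)}
    {ε : Pl K → Gal(Ω/K) → R} {q : Fin 2 → Fin 2 → Pl K}
    (hq : SquH D b E n q) {σ : Pl K → R} {τ : Fin 2 → R} (hτ : ∀ i, τ i ^ p = 1)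
    {ρ : (Fin 2 → Fin 2) → (Gal(Ω/K) →* R)}
    (hρ : ∀ e, ρ e ∈ XS L Dg b E ε (vn n fun i => q i (e i)) (vs σ (fun i => q i (e i)) τ))
    (e : Fin 2 → Fin 2) : YH Dg (ρ 0) (ρ e) (sqd Ω D q e) (sqt τ) where
  add i g h := by
    fin_cases i
    · exact sq_fadd D q e 0 g h
    · exact sq_fadd D q e 1 g h
    · exact (add_zero (0 : ZMod p)).symm
  pow i := by
    fin_cases i
    · exact hτ 0
    · exact hτ 1
    · exact one_pow p
  pr g := by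
    funext k
    have h1 := (hρ e).2.1 g k
    have h2 := (hρ 0).2.1 g k
    rw [sq_ak hp hζ Dg hq e σ τ k g] at h1
    rw [sq_ak hp hζ Dg hq 0 σ τ k g] at h2
    have h3 : ∑ i : Fin 3, sqd Ω D q e i g • pu Dg (sqt τ i) =
        ∑ i : Fin 2, sqf Ω D q e i g • pu Dg (τ i) := by
      rw [Fin.sum_univ_three, Fin.sum_univ_two]
      show sqf Ω D q e 0 g • pu Dg (τ 0) + sqf Ω D q e 1 g • pu Dg (τ 1) +
        (0 : ZMod p) • pu Dg (1 : R) = _
      rw [zero_smul, add_zero]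
    rw [h3, Pi.add_apply, Finset.sum_apply]
    unfold pu at *
    rw [← h1, ← h2, add_assoc, add_assoc, add_assoc]
    congr 2
    rw [← Finset.sum_add_distrib]
    refine Finset.sum_congr rfl fun i _ => ?_
    rw [Pi.smul_apply, smul_eq_mul]
    unfold sqf
    rcases sq_two (e i) with h | h
    · rw [if_neg (by rw [h]; decide), h, zero_mul, add_zero]
      rfl
    · rw [if_pos h, h]
      have hz : (0 : Fin 2 → Fin 2) i = 0 := rfl
      rw [hz]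
      ring

omit [IsAlgClosure K Ω] in
/-- the value at the inertia generators -/
private theorem sq_rt {D : RD0 K p ζ}
    {L : LDs D Ω} {Dg : GP p m l w N P R} {b : Fin m → Kˣ} {E : Finset (Pl K)}
    {ε : Pl K → Gal(Ω/K) → R} {n' : Finset (Pl K)} {σ : Pl K → R} {ρ : Gal(Ω/K) →* R}
    (hρ : ρ ∈ XS L Dg b E ε n' σ) {v : Pl K} (hv : v ∉ D.S0) (hvn : v ∉ n') :
    ρ (L.t v) = if v ∈ E then ε v (L.t v) else 1 := by
  split_ifs with h
  · exact hρ.2.2.2.1 v h _ (H63.BU.uinr_t L v)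
  · exact hρ.2.2.2.2 v hv h hvn _ (H63.BU.uinr_t L v)

private theorem sq_out' {n : Finset (Pl K)} {q : Fin 2 → Fin 2 → Pl K} (e : Fin 2 → Fin 2)
    {v : Pl K} (hn : v ∉ n) (h : ∀ i, q i (e i) ≠ v) : v ∉ vn n fun i => q i (e i) := by
  intro hv
  rcases Finset.mem_union.1 hv with h1 | h1
  · exact hn h1
  · obtain ⟨i, -, h2⟩ := Finset.mem_image.1 h1
    exact h i h2

private theorem sq_in {n : Finset (Pl K)} {q : Fin 2 → Fin 2 → Pl K} (e : Fin 2 → Fin 2)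
    (j : Fin 2) : q j (e j) ∈ vn n fun i => q i (e i) :=
  Finset.mem_union_right _ (Finset.mem_image_of_mem _ (Finset.mem_univ j))

omit [IsAlgClosure K Ω] in
private theorem sq_wd (D : RD0 K p ζ) (q : Fin 2 → Fin 2 → Pl K) (e : Fin 2 → Fin 2)
    (τ : Fin 2 → R) (g : Gal(Ω/K)) : Wd3 (sqd Ω D q e) (sqt τ) g =
      τ 0 ^ (sqf Ω D q e 0 g).val * τ 1 ^ (sqf Ω D q e 1 g).val := by
  show τ 0 ^ (sqf Ω D q e 0 g).val * τ 1 ^ (sqf Ω D q e 1 g).val * (1 : R) ^ (0 : ZMod p).val = _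
  rw [one_pow, mul_one]

omit [IsAlgClosure K Ω] in
private theorem sq_wd0 (D : RD0 K p ζ) (q : Fin 2 → Fin 2 → Pl K) (e : Fin 2 → Fin 2)
    (τ : Fin 2 → R) (g : Gal(Ω/K)) (h : ∀ i, sqf Ω D q e i g = 0) :
    Wd3 (sqd Ω D q e) (sqt τ) g = 1 := by
  rw [sq_wd, h, h, ZMod.val_zero, pow_zero, pow_zero, one_mul]

omit [IsAlgClosure K Ω] in
private theorem sq_wd1 (D : RD0 K p ζ) (q : Fin 2 → Fin 2 → Pl K) (e : Fin 2 → Fin 2)
    (τ : Fin 2 → R) (g : Gal(Ω/K)) (j : Fin 2) (h : ∀ i, i ≠ j → sqf Ω D q e i g = 0) :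
    Wd3 (sqd Ω D q e) (sqt τ) g = τ j ^ (sqf Ω D q e j g).val := by
  rw [sq_wd]
  rcases sq_two j with hj | hj
  · rw [hj, h 1 (by rw [hj]; decide), ZMod.val_zero, pow_zero, mul_one]
  · rw [hj, h 0 (by rw [hj]; decide), ZMod.val_zero, pow_zero, one_mul]

private theorem sq_add [NeZero p] {u : R} (hu : u ^ p = 1) (a b : ZMod p) :
    u ^ (a + b).val = u ^ a.val * u ^ b.val := by
  rw [ZMod.val_add, ← pow_add]
  exact (pow_eq_pow_mod (a.val + b.val) hu).symm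

private theorem sq_dt (hp : p.Prime) (hζ : IsPrimitiveRoot ζ p) {D : RD0 K p ζ} (L : LDs D Ω)
    {b : Fin m → Kˣ} {E n : Finset (Pl K)} {q : Fin 2 → Fin 2 → Pl K} (hq : SquH D b E n q)
    (e : Fin 2 → Fin 2) {v : Pl K} (hv : v ∉ D.S0) (i : Fin 2) (h : ∀ a, q i a ≠ v) :
    sqf Ω D q e i (L.t v) = 0 := by
  unfold sqf
  split_ifs
  · rw [sq_kkt hp hζ L _ v hv, sq_kkt hp hζ L _ v hv,
      D.pi_ne _ _ (hq.sq.gd i 1).1 hv (h 1).symm, D.pi_ne _ _ (hq.sq.gd i 0).1 hv (h 0).symm,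
      sub_self]
  · rfl

private theorem sq_inert [NeZero p] (hp : p.Prime) (hζ : IsPrimitiveRoot ζ p) {D : RD0 K p ζ}
    {L : LDs D Ω} (Dg : GP p m l w N P R) {b : Fin m → Kˣ} {E n : Finset (Pl K)}
    {ε : Pl K → Gal(Ω/K) → R} {q : Fin 2 → Fin 2 → Pl K}
    (hq : SquH D b E n q) {σ : Pl K → R} {τ : Fin 2 → R} (hτ : ∀ i, τ i ^ p = 1)
    {ρ : (Fin 2 → Fin 2) → (Gal(Ω/K) →* R)}
    (hρ : ∀ e, ρ e ∈ XS L Dg b E ε (vn n fun i => q i (e i)) (vs σ (fun i => q i (e i)) τ))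
    (e : Fin 2 → Fin 2) (v : Pl K) (hv : v ∉ D.S0) :
    ρ e (L.t v) = ρ 0 (L.t v) * Wd3 (sqd Ω D q e) (sqt τ) (L.t v) := by
  by_cases h : ∃ j a, q j a = v
  · obtain ⟨j, a, rfl⟩ := h
    have hp1 : Fact (1 < p) := ⟨hp.one_lt⟩
    have hval : (1 : ZMod p).val = 1 := ZMod.val_one p
    have hgd := hq.out j a
    rw [sq_wd1 D q e τ _ j fun i hi => sq_dt hp hζ L hq e hv i
      fun a' h' => hi (hq.sq.inj _ _ _ _ h').1]
    have h1 : ∀ e' : Fin 2 → Fin 2, ρ e' (L.t (q j a)) = if e' j = a then τ j else 1 := by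
      intro e'
      split_ifs with h2
      · have h3 := ((hρ e').2.2.1 (q j (e' j)) (sq_in e' j)).1
        rw [sq_vsq hq e', h2] at h3
        exact h3
      · have h4 : ∀ i, q i (e' i) ≠ q j a := by
          intro i h5
          obtain ⟨h6, h7⟩ := hq.sq.inj _ _ _ _ h5
          rw [h6] at h7
          exact h2 h7
        have h5 := sq_rt (hρ e') hv (sq_out' e' hgd.2 h4)
        rw [if_neg hgd.1] at h5
        exact h5
    rw [h1, h1]
    have h2 : kk p ζ (D.pi (q j 1)) (L.t (q j a)) - kk p ζ (D.pi (q j 0)) (L.t (q j a)) =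
        if a = 1 then 1 else -1 := by
      rw [sq_kkt hp hζ L _ _ hv, sq_kkt hp hζ L _ _ hv]
      split_ifs with h3
      · rw [h3, D.pi_self _ (hq.sq.gd j 1).1,
          D.pi_ne _ _ (hq.sq.gd j 0).1 (hq.sq.gd j 1).1 fun h4 => by
            have := (hq.sq.inj _ _ _ _ h4).2
            exact absurd this (by decide)]
        simp
      · have h4 : a = 0 := by
          rcases sq_two a with h | h
          · exact h
          · exact absurd h h3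
        rw [h4, D.pi_self _ (hq.sq.gd j 0).1,
          D.pi_ne _ _ (hq.sq.gd j 1).1 (hq.sq.gd j 0).1 fun h4 => by
            have := (hq.sq.inj _ _ _ _ h4).2
            exact absurd this (by decide)]
        simp
    unfold sqf
    rw [h2]
    have hz : (0 : Fin 2 → Fin 2) j = 0 := rfl
    rw [hz]
    rcases sq_two (e j) with h3 | h3
    · rw [h3, if_neg (show ¬ (0 : Fin 2) = 1 by decide), ZMod.val_zero, pow_zero, mul_one]
    · rw [h3, if_pos (rfl : (1 : Fin 2) = 1)]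
      rcases sq_two a with h4 | h4
      · rw [h4, if_neg (show ¬ (1 : Fin 2) = 0 by decide), if_pos (rfl : (0 : Fin 2) = 0),
          if_neg (show ¬ (0 : Fin 2) = 1 by decide)]
        have h5 := sq_add (hτ j) 1 (-1)
        rw [add_neg_cancel, ZMod.val_zero, pow_zero, hval, pow_one] at h5
        exact h5
      · rw [h4, if_pos (rfl : (1 : Fin 2) = 1), if_neg (show ¬ (0 : Fin 2) = 1 by decide),
          if_pos (rfl : (1 : Fin 2) = 1), hval, pow_one, one_mul]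
  · have h0 : ∀ j a, q j a ≠ v := fun j a h1 => h ⟨j, a, h1⟩
    rw [sq_wd0 D q e τ _ fun i => sq_dt hp hζ L hq e hv i (h0 i), mul_one]
    by_cases hn : v ∈ n
    · rw [((hρ e).2.2.1 v (Finset.mem_union_left _ hn)).1,
        ((hρ 0).2.2.1 v (Finset.mem_union_left _ hn)).1, sq_vsn hq e hn, sq_vsn hq 0 hn]
    · rw [sq_rt (hρ e) hv (sq_out' e hn fun i => h0 i _),
        sq_rt (hρ 0) hv (sq_out' 0 hn fun i => h0 i _)]

/-- sums over the vertices of the square -/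
private theorem sq_sum4 {F : Type} [CommRing F] (f : (Fin 2 → Fin 2) → F) :
    ∑ e : Fin 2 → Fin 2, (-1) ^ (∑ i, (e i).val) * f e =
      f ![0, 0] - f ![1, 0] - f ![0, 1] + f ![1, 1] := by
  have h : (Finset.univ : Finset (Fin 2 → Fin 2)) = {![0, 0], ![1, 0], ![0, 1],
      ![1, 1]} := by decide
  rw [h, Finset.sum_insert (by decide), Finset.sum_insert (by decide),
    Finset.sum_insert (by decide), Finset.sum_singleton]
  simp only [Fin.sum_univ_two, Matrix.cons_val_zero, Matrix.cons_val_one, Fin.val_zero,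
    Fin.val_one]
  ring

private theorem sq_alt4 {V F : Type} [AddCommGroup V] [CommRing F]
    (EEf : (Fin 2 → Fin 2) → F) (c₀ : F) (c : Fin 2 → Fin 2 → F) (N : V →+ F)
    (M : Fin 2 → Fin 2 → V →+ F) (y : (Fin 2 → Fin 2) → V) (hy0 : y ![0, 0] = 0)
    (hE : ∀ e, EEf e = c₀ + N (y e) + ∑ j, (c j (e j) + M j (e j) (y e))) (h' y01 y10 : V)
    (h01 : y01 = y ![0, 1]) (h10 : y10 = y ![1, 0])
    (hh : h' = y ![1, 1] - y ![1, 0] - y ![0, 1]) :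
    ∑ e : Fin 2 → Fin 2, (-1) ^ (∑ i, (e i).val) * EEf e =
      N h' + (M 0 1 h' + M 1 1 h') + ((M 0 1 y01 - M 0 0 y01) + (M 1 1 y10 - M 1 0 y10)) := by
  rw [sq_sum4]
  rw [hE, hE, hE, hE, hy0]
  subst h01 h10 hh
  simp only [Fin.sum_univ_two, Matrix.cons_val_zero, Matrix.cons_val_one,
    map_sub, map_zero]
  ring

private theorem sq_y0 (D : RD0 K p ζ) (Dg : GP p m l w N P R) (q : Fin 2 → Fin 2 → Pl K)
    (τ : Fin 2 → R) (ρ : (Fin 2 → Fin 2) → (Gal(Ω/K) →* R)) :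
    yd Dg (ρ 0) (ρ 0) (sqd Ω D q 0) (sqt τ) = 0 := by
  funext g
  refine yd_zero Dg g ?_
  rw [sq_wd0 D q 0 τ g fun i => ?_, mul_one]
  unfold sqf
  exact if_neg (show ¬ (0 : Fin 2) = 1 by decide)

private theorem sq_rho [NeZero p] (hp : p.Prime) (hζ : IsPrimitiveRoot ζ p) {D : RD0 K p ζ}
    (L : LDs D Ω) (Dg : GP p m l w N P R) (q : Fin 2 → Fin 2 → Pl K) (τ : Fin 2 → R) (i j : Fin 2)
    (z : Gal(Ω/K) → Fin l → ZMod p) (hl : ∀ k, Lev fun g => z g k)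
    (ht : ∀ v, v ∉ D.S0 → z (L.t v) = 0)
    (ha : ∀ g h, z (g * h) = z g + z h +
      ((kk p ζ (D.pi (q j 1)) g - kk p ζ (D.pi (q j 0)) g) *
        (kk p ζ (D.pi (q i 1)) h - kk p ζ (D.pi (q i 0)) h)) •
          Dg.kV (pu Dg (τ j)) (pu Dg (τ i))) (k : Fin l) :
    Rho L ((dq D (q j)) ^ (Dg.kV (pu Dg (τ j)) (pu Dg (τ i)) k).val)
        (dq D (q i)) fun g => z g k := by
  refine ⟨hl k, fun g h => ?_, fun v hv => ?_⟩
  · show z (g * h) k = z g k + z h k + _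
    unfold dq
    rw [ha, Pi.add_apply, Pi.add_apply, Pi.smul_apply, smul_eq_mul, sq_pow hp hζ,
      sq_div hp hζ, sq_div hp hζ, ZMod.natCast_zmod_val]
    ring
  · show z (L.t v) k = 0
    rw [ht v hv]
    rfl

omit [IsAlgClosure K Ω] in
private theorem sq_dta (θ x y : Fin w → ZMod p) : dt θ (x + y) = dt θ x + dt θ y := by
  unfold dt
  rw [← Finset.sum_add_distrib]
  exact Finset.sum_congr rfl fun k _ => by rw [Pi.add_apply, mul_add]

/-- the linear functional of one prime -/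
private def sqL (Dg : GP p m l w N P R) (g : Gal(Ω/K)) (θ : Fin w → ZMod p) (s : Fin m → ZMod p) :
    (Gal(Ω/K) → Fin l → ZMod p) →+ ZMod p where
  toFun z := dt θ (Dg.β (z g) s)
  map_zero' := by
    rw [Pi.zero_apply, map_zero, LinearMap.zero_apply]
    unfold dt
    exact Finset.sum_eq_zero fun k _ => by rw [Pi.zero_apply, mul_zero]
  map_add' z z' := by rw [Pi.add_apply, map_add, LinearMap.add_apply, sq_dta]

omit [IsAlgClosure K Ω] in
private theorem sq_cq {D : RD0 K p ζ} {L : LDs D Ω} (Fr : FR L) (Dg : GP p m l w N P R)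
    (ρ : Gal(Ω/K) →* R) (v : Pl K) (y : Fin l → ZMod p) (r s : R)
    (h1 : ρ (Fr.F v) = vof Dg y * r) (h2 : ρ (L.t v) = s)
    (hc : ρ (Fr.F v) * s = s * ρ (Fr.F v)) (θ : Fin w → ZMod p) :
    dt θ (cq Dg Fr ρ v) = dt θ (Dg.cm r s) + dt θ (Dg.β y (pu Dg s)) := by
  have hrs : r * s = s * r := by
    rw [h1, mul_assoc] at hc
    have h3 : s * (vof Dg y * r) = vof Dg y * (s * r) := by
      rw [← mul_assoc, ← Dg.vcen _ (vof_pi Dg y) s, mul_assoc]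
    rw [h3] at hc
    exact mul_left_cancel hc
  rw [← sq_dta]
  congr 1
  funext k
  unfold cq
  rw [h1, h2, cm_v Dg _ _ _ (vof_pi Dg y) hrs k, Pi.add_apply,
    show (fun j => Dg.cv j (vof Dg y)) = y from funext fun j => vof_cv Dg y j]

private theorem sq_lev (hp : p.Prime) (hζ : IsPrimitiveRoot ζ p) (D : RD0 K p ζ)
    (q : Fin 2 → Fin 2 → Pl K) (e : Fin 2 → Fin 2) (i : Fin 3) : Lev (sqd Ω D q e i) := by
  have h1 : ∀ j, Lev (sqf Ω D q e j) := by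
    intro j
    unfold sqf
    by_cases h : e j = 1
    · simp only [if_pos h]
      exact gtriv_lev (gtriv_kk hp hζ _) (gtriv_kk hp hζ _) fun x y => x - y
    · simp only [if_neg h]
      exact gtriv_const 0
  fin_cases i
  · exact h1 0
  · exact h1 1
  · exact gtriv_const 0

/-- the linear functional at S0 -/
private def sqS {D : RD0 K p ζ} (Dg : GP p m l w N P R) (Λ : SF D Ω Dg) :
    (Gal(Ω/K) → Fin l → ZMod p) →+ ZMod p where
  toFun z := ∑ j, dt (Λ.c j) (z (Λ.σ j))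
  map_zero' := by
    refine Finset.sum_eq_zero fun j _ => ?_
    rw [Pi.zero_apply]
    unfold dt
    exact Finset.sum_eq_zero fun k _ => by rw [Pi.zero_apply, mul_zero]
  map_add' z z' := by
    rw [← Finset.sum_add_distrib]
    refine Finset.sum_congr rfl fun j _ => ?_
    rw [Pi.add_apply, sq_dta]

private theorem sq_lam [NeZero p] (hp : p.Prime) (hp2 : MOne p K) (hζ : IsPrimitiveRoot ζ p)
    {D : RD0 K p ζ} {L : LDs D Ω} (Dg : GP p m l w N P R) (Λ : SF D Ω Dg) {b : Fin m → Kˣ}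
    {E : Finset (Pl K)} {ε : Pl K → Gal(Ω/K) → R} {n : Finset (Pl K)} {σ : Pl K → R}
    {τ : Fin 2 → R} (hτ : ∀ i, τ i ^ p = 1) {q : Fin 2 → Fin 2 → Pl K} (hq : SquH D b E n q)
    {ρ : (Fin 2 → Fin 2) → (Gal(Ω/K) →* R)}
    (hρ : ∀ e, ρ e ∈ XS L Dg b E ε (vn n fun i => q i (e i)) (vs σ (fun i => q i (e i)) τ))
    (e : Fin 2 → Fin 2) :
    Lam Dg Λ (ρ e) = Lam Dg Λ (ρ 0) + sqS Dg Λ (yd Dg (ρ 0) (ρ e) (sqd Ω D q e) (sqt τ)) := by
  have hY := sq_yh hp hζ Dg hq hτ hρ e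
  unfold Lam sqS
  change _ = _ + ∑ j, dt (Λ.c j) (yd Dg (ρ 0) (ρ e) (sqd Ω D q e) (sqt τ) (Λ.σ j))
  rw [← Finset.sum_add_distrib]
  refine Finset.sum_congr rfl fun j _ => ?_
  have h1 : ρ e (Λ.σ j) = vof Dg (yd Dg (ρ 0) (ρ e) (sqd Ω D q e) (sqt τ) (Λ.σ j)) *
      ρ 0 (Λ.σ j) := by
    have h2 := yd_eq Dg hY (Λ.σ j)
    rw [sq_wd0 D q e τ _ fun i => ?_, mul_one] at h2
    · exact h2
    · unfold sqf
      split_ifs
      · rw [sf_pi hp hp2 hζ Dg Λ (hq.sq.gd i 1).1 (hq.sq.gd i 0).1 (hq.sq.cls i).symm j, sub_self]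
      · rfl
  have h2 : Λ.vp j (ρ e (Λ.σ j)) = Λ.vp j (ρ 0 (Λ.σ j)) +
      yd Dg (ρ 0) (ρ e) (sqd Ω D q e) (sqt τ) (Λ.σ j) := by
    funext k
    rw [h1, Λ.hvp j _ _ (vof_pi Dg _) k, vof_cv, Pi.add_apply, add_comm]
  rw [h2, sq_dta]

/-- the phase of one vertex -/
private theorem sq_ee [NeZero p] [Finite R] (hp : p.Prime) (hp2 : MOne p K)
    (hζ : IsPrimitiveRoot ζ p)
    {D : RD0 K p ζ} {L : LDs D Ω} (Fr : FR L) (Dg : GP p m l w N P R) (Λ : SF D Ω Dg) {b : Fin m → Kˣ}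
    {E : Finset (Pl K)} {ε : Pl K → Gal(Ω/K) → R} {n : Finset (Pl K)} {σ : Pl K → R}
    (ψ : Pl K → Fin w → ZMod p) {τ : Fin 2 → R} (hτ : ∀ i, τ i ^ p = 1)
    (φ : Fin 2 → Fin w → ZMod p) {q : Fin 2 → Fin 2 → Pl K} (hq : SquH D b E n q)
    {ρ : (Fin 2 → Fin 2) → (Gal(Ω/K) →* R)}
    (hρ : ∀ e, ρ e ∈ XS L Dg b E ε (vn n fun i => q i (e i)) (vs σ (fun i => q i (e i)) τ))
    (e : Fin 2 → Fin 2) :
    EEs Dg Λ Fr (vn n fun i => q i (e i)) (vs ψ (fun i => q i (e i)) φ) (ρ e) =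
      (∑ v ∈ n, dt (ψ v) (Dg.cm (ρ 0 (Fr.F v)) (σ v)) + Lam Dg Λ (ρ 0)) +
      (∑ v ∈ n, sqL Dg (Fr.F v) (ψ v) (sg Dg σ v) + sqS Dg Λ) (yd Dg (ρ 0) (ρ e) (sqd Ω D q e) (sqt τ)) +
      ∑ j, (dt (φ j) (Dg.cm (ρ 0 (Fr.F (q j (e j))) * τ j ^
          (if e j = 1 then kk p ζ (D.pi (q j 1)) (Fr.F (q j (e j))) -
            kk p ζ (D.pi (q j 0)) (Fr.F (q j (e j))) else 0).val) (τ j)) +
        sqL Dg (Fr.F (q j (e j))) (φ j) (pu Dg (τ j))
          (yd Dg (ρ 0) (ρ e) (sqd Ω D q e) (sqt τ))) := by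
  have hY := sq_yh hp hζ Dg hq hτ hρ e
  unfold EEs
  rw [AddMonoidHom.add_apply, add_add_add_comm, add_right_comm,
    sq_lam hp hp2 hζ Dg Λ hτ hq hρ e]
  congr 1
  unfold EE
  rw [sq_vn (sq_inj hq e) (fun i => (hq.out i (e i)).2), AddMonoidHom.finsetSum_apply,
    ← Finset.sum_add_distrib]
  congr 1
  · refine Finset.sum_congr rfl fun v hv => ?_
    have hv0 : v ∉ D.S0 := (hq.bse.gn v hv).1.1
    have hvn : v ∈ vn n fun i => q i (e i) := Finset.mem_union_left _ hv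
    rw [sq_vsn hq e hv]
    have h1 : ρ e (Fr.F v) = vof Dg (yd Dg (ρ 0) (ρ e) (sqd Ω D q e) (sqt τ) (Fr.F v)) *
        ρ 0 (Fr.F v) := by
      have h2 := yd_eq Dg hY (Fr.F v)
      rw [sq_wd0 D q e τ _ fun i => ?_, mul_one] at h2
      · exact h2
      · unfold sqf
        split_ifs
        · rw [Fr.kf v hv0, Fr.kf v hv0, hq.hn v hv i, sub_self]
        · rfl
    have h3 : ρ e (L.t v) = σ v := by
      rw [((hρ e).2.2.1 v hvn).1, sq_vsn hq e hv]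
    have h4 := xs_com Fr Dg b E ε _ _ (hρ e) v hvn hv0
    rw [sq_vsn hq e hv] at h4
    exact sq_cq Fr Dg (ρ e) v _ _ _ h1 h3 h4 (ψ v)
  · refine Finset.sum_congr rfl fun j _ => ?_
    have hv0 : q j (e j) ∉ D.S0 := (hq.sq.gd j (e j)).1
    rw [sq_vsq hq e]
    have h1 : ρ e (Fr.F (q j (e j))) =
        vof Dg (yd Dg (ρ 0) (ρ e) (sqd Ω D q e) (sqt τ) (Fr.F (q j (e j)))) *
        (ρ 0 (Fr.F (q j (e j))) * τ j ^
          (if e j = 1 then kk p ζ (D.pi (q j 1)) (Fr.F (q j (e j))) -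
            kk p ζ (D.pi (q j 0)) (Fr.F (q j (e j))) else 0).val) := by
      have h2 := yd_eq Dg hY (Fr.F (q j (e j)))
      rw [sq_wd1 D q e τ _ j fun i hi => ?_, mul_assoc] at h2
      · exact h2
      · unfold sqf
        split_ifs
        · rw [Fr.kf _ hv0, Fr.kf _ hv0, hq.hs i j hi (e j), sub_self]
        · rfl
    have h3 : ρ e (L.t (q j (e j))) = τ j := by
      rw [((hρ e).2.2.1 _ (sq_in e j)).1, sq_vsq hq e]
    have h4 := xs_com Fr Dg b E ε _ _ (hρ e) _ (sq_in e j) hv0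
    rw [sq_vsq hq e] at h4
    exact sq_cq Fr Dg (ρ e) _ _ _ _ h1 h3 h4 (φ j)

private theorem sq_dts (Dg : GP p m l w N P R) (θ : Fin w → ZMod p) (s : Fin m → ZMod p)
    (a b : Fin l → ZMod p) :
    dt θ (Dg.β (a - b) s) = dt θ (Dg.β a s) - dt θ (Dg.β b s) := by
  have h := sq_dta θ (Dg.β (a - b) s) (Dg.β b s)
  rw [← LinearMap.add_apply, ← map_add, sub_add_cancel] at h
  rw [h, add_sub_cancel_right]

end aux

theorem squares_phase [NeZero p] [Finite R] (hp : p.Prime) (hp2 : MOne p K)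
    (hζ : IsPrimitiveRoot ζ p)
    (D : RD0 K p ζ) {L : LDs D Ω} (Fr : FR L) (Dg : GP p m l w N P R) (Λ : SF D Ω Dg) (b : Fin m → Kˣ)
    (E : Finset (Pl K)) (ε : Pl K → Gal(Ω/K) → R) (n : Finset (Pl K)) (σ : Pl K → R)
    (ψ : Pl K → Fin w → ZMod p) (τ : Fin 2 → R) (hτ : ∀ i, τ i ^ p = 1)
    (φ : Fin 2 → Fin w → ZMod p) (q : Fin 2 → Fin 2 → Pl K) (hq : SquH D b E n q)
    (ρ : (Fin 2 → Fin 2) → (Gal(Ω/K) →* R))
    (hρ : ∀ e, ρ e ∈ XS L Dg b E ε (vn n fun i => q i (e i)) (vs σ (fun i => q i (e i)) τ)) :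
    ∃ y y01 y10 : Gal(Ω/K) → Fin l → ZMod p,
      (∀ k, Rho L ((dq D (q 1)) ^ (Dg.kV (pu Dg (τ 1)) (pu Dg (τ 0)) k).val)
        (dq D (q 0)) fun g => y g k) ∧
      (∀ k, (Lev fun g => y01 g k) ∧ (∀ v, v ∉ D.S0 → y01 (L.t v) k = 0) ∧
        ∀ g h, y01 (g * h) k = y01 g k + y01 h k -
          kk p ζ (dq D (q 1)) g * Dg.kV (pu Dg (τ 1)) (pu Dg (ρ 0 h)) k) ∧
      (∀ k, (Lev fun g => y10 g k) ∧ (∀ v, v ∉ D.S0 → y10 (L.t v) k = 0) ∧
        ∀ g h, y10 (g * h) k = y10 g k + y10 h k -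
          kk p ζ (dq D (q 0)) g * Dg.kV (pu Dg (τ 0)) (pu Dg (ρ 0 h)) k) ∧
      ∑ e : Fin 2 → Fin 2, (-1) ^ (∑ i, (e i).val) *
          EEs Dg Λ Fr (vn n fun i => q i (e i)) (vs ψ (fun i => q i (e i)) φ) (ρ e) =
        (∑ v ∈ n, dt (ψ v) (Dg.β (y (Fr.F v)) (sg Dg σ v)) + ∑ j, dt (Λ.c j) (y (Λ.σ j))) +
        (dt (φ 0) (Dg.β (y (Fr.F (q 0 1))) (pu Dg (τ 0))) +
          dt (φ 1) (Dg.β (y (Fr.F (q 1 1))) (pu Dg (τ 1)))) +
        (dt (φ 0) (Dg.β (y01 (Fr.F (q 0 1)) - y01 (Fr.F (q 0 0))) (pu Dg (τ 0))) +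
          dt (φ 1) (Dg.β (y10 (Fr.F (q 1 1)) - y10 (Fr.F (q 1 0))) (pu Dg (τ 1)))) := by
  have hY := fun e => sq_yh hp hζ Dg hq hτ hρ e
  obtain ⟨y, hy⟩ : ∃ y : (Fin 2 → Fin 2) → Gal(Ω/K) → Fin l → ZMod p,
      y = fun e => yd Dg (ρ 0) (ρ e) (sqd Ω D q e) (sqt τ) := ⟨_, rfl⟩
  have hyl : ∀ e k, Lev fun g => y e g k := fun e k => by
    rw [hy]
    exact yd_lev Dg (hρ 0).1 (hρ e).1 (sq_lev hp hζ D q e) k
  have hyt : ∀ e v, v ∉ D.S0 → y e (L.t v) = 0 := fun e v hv => by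
    rw [hy]
    exact yd_zero Dg _ (sq_inert hp hζ Dg hq hτ hρ e v hv)
  have hya : ∀ e g h, y e (g * h) = y e g + y e h +
      (sqf Ω D q e 0 g • Dg.kV (pu Dg (τ 0)) (pu Dg (ρ 0 h)) +
        sqf Ω D q e 1 g • Dg.kV (pu Dg (τ 1)) (pu Dg (ρ 0 h))) +
      (sqf Ω D q e 1 g * sqf Ω D q e 0 h) • Dg.kV (pu Dg (τ 1)) (pu Dg (τ 0)) := fun e g h => by
    have h1 := yd_add Dg (hY e) g h
    rw [Fin.sum_univ_three] at h1
    have h2 : sqd Ω D q e 2 g = 0 := rfl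
    have h3 : sqd Ω D q e 0 g = sqf Ω D q e 0 g := rfl
    have h4 : sqd Ω D q e 1 g = sqf Ω D q e 1 g := rfl
    have h5 : sqd Ω D q e 0 h = sqf Ω D q e 0 h := rfl
    have h6 : sqt τ 0 = τ 0 := rfl
    have h7 : sqt τ 1 = τ 1 := rfl
    rw [h2, h3, h4, h5, h6, h7, zero_smul, zero_mul, zero_smul, zero_mul, zero_smul, add_zero,
      add_zero, add_zero] at h1
    rw [hy]
    exact h1
  have hy0 : y ![0, 0] = 0 := by
    have h1 : (![0, 0] : Fin 2 → Fin 2) = 0 := by decide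
    rw [h1, hy]
    exact sq_y0 D Dg q τ ρ
  have hsub : ∀ f g : Gal(Ω/K) → Fin l → ZMod p, (∀ k, Lev fun x => f x k) →
      (∀ k, Lev fun x => g x k) → ∀ k, Lev fun x => (f - g) x k := fun f g hf hg k =>
    gtriv_lev (hf k) (hg k) fun a b => a - b
  obtain ⟨y01, h01⟩ : ∃ z, z = y ![0, 1] := ⟨_, rfl⟩
  obtain ⟨y10, h10⟩ : ∃ z, z = y ![1, 0] := ⟨_, rfl⟩
  obtain ⟨h', hh'⟩ : ∃ z, z = y ![1, 1] - y ![1, 0] - y ![0, 1] := ⟨_, rfl⟩
  have f010 : ∀ g : Gal(Ω/K), sqf Ω D q ![0, 1] 0 g = 0 := fun g => if_neg (by decide)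
  have f011 : ∀ g : Gal(Ω/K), sqf Ω D q ![0, 1] 1 g =
      kk p ζ (D.pi (q 1 1)) g - kk p ζ (D.pi (q 1 0)) g := fun g => if_pos rfl
  have f100 : ∀ g : Gal(Ω/K), sqf Ω D q ![1, 0] 0 g =
      kk p ζ (D.pi (q 0 1)) g - kk p ζ (D.pi (q 0 0)) g := fun g => if_pos rfl
  have f101 : ∀ g : Gal(Ω/K), sqf Ω D q ![1, 0] 1 g = 0 := fun g => if_neg (by decide)
  have f110 : ∀ g : Gal(Ω/K), sqf Ω D q ![1, 1] 0 g =
      kk p ζ (D.pi (q 0 1)) g - kk p ζ (D.pi (q 0 0)) g := fun g => if_pos rfl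
  have f111 : ∀ g : Gal(Ω/K), sqf Ω D q ![1, 1] 1 g =
      kk p ζ (D.pi (q 1 1)) g - kk p ζ (D.pi (q 1 0)) g := fun g => if_pos rfl
  refine ⟨h', y01, y10, sq_rho hp hζ L Dg q τ 0 1 h' ?_ ?_ ?_, fun k => ⟨?_, ?_, ?_⟩,
    fun k => ⟨?_, ?_, ?_⟩, ?_⟩
  · rw [hh']
    exact hsub _ _ (hsub _ _ (hyl _) (hyl _)) (hyl _)
  · intro v hv
    rw [hh']
    simp only [Pi.sub_apply]
    rw [hyt _ v hv, hyt _ v hv, hyt _ v hv, sub_zero, sub_zero]
  · intro g h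
    rw [hh']
    simp only [Pi.sub_apply]
    rw [hya, hya, hya]
    simp only [f010, f011, f100, f101, f110, f111, zero_smul, zero_mul, mul_zero]
    abel
  · rw [h01]
    exact hyl _ k
  · intro v hv
    rw [h01, hyt _ v hv]
    rfl
  · intro g h
    rw [h01, hya]
    simp only [f010, f011, Pi.add_apply, Pi.smul_apply, smul_eq_mul]
    unfold dq
    rw [sq_div hp hζ]
    ring
  · rw [h10]
    exact hyl _ k
  · intro v hv
    rw [h10, hyt _ v hv]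
    rfl
  · intro g h
    rw [h10, hya]
    simp only [f100, f101, Pi.add_apply, Pi.smul_apply, smul_eq_mul]
    unfold dq
    rw [sq_div hp hζ]
    ring
  · rw [sq_dts, sq_dts]
    refine (sq_alt4 (fun e => EEs Dg Λ Fr (vn n fun i => q i (e i)) (vs ψ (fun i => q i (e i)) φ)
      (ρ e)) (∑ v ∈ n, dt (ψ v) (Dg.cm (ρ 0 (Fr.F v)) (σ v)) + Lam Dg Λ (ρ 0))
      (fun j a => dt (φ j) (Dg.cm (ρ 0 (Fr.F (q j a)) * τ j ^
          (if a = 1 then kk p ζ (D.pi (q j 1)) (Fr.F (q j a)) -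
            kk p ζ (D.pi (q j 0)) (Fr.F (q j a)) else 0).val) (τ j)))
      (∑ v ∈ n, sqL Dg (Fr.F v) (ψ v) (sg Dg σ v) + sqS Dg Λ)
      (fun j a => sqL Dg (Fr.F (q j a)) (φ j) (pu Dg (τ j))) y hy0 (fun e => ?_) h' y01 y10
      h01 h10 hh').trans ?_
    · rw [hy]
      exact sq_ee hp hp2 hζ Fr Dg Λ ψ hτ φ hq hρ e
    · rw [AddMonoidHom.add_apply, AddMonoidHom.finsetSum_apply]
      rfl

end H51.CUD
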