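import Pool.Agent.H51.CUB.C2M
import Pool.Agent.H51.CUD.DSQ
import Pool.Agent.H51.CUD.DC3
import Pool.Agent.H51.CUD.DMS

/-!
# [H51 CUD DC2] The square property of `VFs`, main pattern

As in `H51/CUB/C2M.lean` (read its header), with the phase at S0: the element `A` satisfies `DuA` with the functional `x ↦ Lam1 Λ (kV s_1 s_0) (kk x)`, and `mas_s` replaces `mas`.
-/

set_option autoImplicit false

open scoped NumberField ComplexConjugate
open IsDedekindDomain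
open scoped Classical

noncomputable section

namespace H51.CUD

open H63.MA H38.BB H38.BG H57.PC H77.PC3 H57.BRA H51.CUB

variable {K : Type} [Field K] [NumberField K] {p : ℕ} {ζ : K} {Ω : Type} [Field Ω] [Algebra K Ω]
  [IsAlgClosure K Ω] {m l w N : ℕ} {P R : Type} [Group P] [Group R]

theorem c2s_vertex [NeZero p] [Finite R] (hp : p.Prime) (hp2 : MOne p K)
    (hζ : IsPrimitiveRoot ζ p)
    (D : RD K p ζ) {L : LDs D.toRD0 Ω} (Fr : FR L) (Dg : GP p m l w N P R) (Λ : SF D.toRD0 Ω Dg)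
    (b : Fin m → Kˣ) (E : Finset (Pl K)) (ε : Pl K → Gal(Ω/K) → R) (n : Finset (Pl K))
    (σ : Pl K → R) (ψ : Pl K → Fin w → ZMod p) (hB : Bse D.toRD0 b E n) {r : ℕ} (τ : Fin r → R)
    (hτ : ∀ i, τ i ^ p = 1) (φ : Fin r → Fin w → ZMod p) (Q : Fin r → Finset (Pl K))
    (hQ : ∀ i, Cell D.toRD0 Dg b E n σ (Q i)) (q : Fin r → Fin 2 → Pl K)
    (hqQ : ∀ i e, q i e ∈ Q i) (hinj : ∀ i e j e', q i e = q j e' → i = j ∧ e = e')
    (hs : ∀ i j, i ≠ j → ∀ e, D.LL (q j e) (D.pi (q i 0)) = D.LL (q j e) (D.pi (q i 1)))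
    (e : Fin r → Fin 2) (i : Fin r) (x : Fin 2)
    (h : VFs Dg Λ Fr b E ε n σ ψ τ φ (fun j => q j (e j)) ≠ 0) (he : e i = 0) :
    VFs Dg Λ Fr b E ε n σ ψ τ φ (fun j => q j (Function.update e i x j)) ≠ 0 := by
  by_cases hx : x = 0
  · have h1 : Function.update e i x = e := by rw [hx, ← he, Function.update_eq_self]
    rw [h1]
    exact h
  · have hx1 : x = 1 := Fin.eq_one_of_ne_zero x hx
    have h1 : (fun j => q j (Function.update e i x j)) =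
        Function.update (fun j => q j (e j)) i (q i x) := by
      funext j
      exact Function.apply_update (fun j => q j) e i x j
    rw [h1]
    refine vfs_step hp hp2 hζ D Fr Dg Λ b E ε n σ ψ hB τ hτ φ Q hQ (fun j => q j (e j))
      (fun j => hqQ j (e j)) i (q i x) (hqQ i x) ?_ ?_ h
    · intro j hj hh
      exact hj (hinj _ _ _ _ hh).1.symm
    · intro j hj
      show D.LL (q j (e j)) (D.pi (q i x)) = D.LL (q j (e j)) (D.pi (q i (e i)))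
      rw [he, hx1]
      exact (hs i j hj.symm (e j)).symm

theorem c2s_data [NeZero p] [Finite R] (hp : p.Prime)
    (hζ : IsPrimitiveRoot ζ p)
    {D : RD0 K p ζ} {L : LDs D Ω} (Fr : FR L) (Dg : GP p m l w N P R) (Λ : SF D Ω Dg)
    (b : Fin m → Kˣ) (E : Finset (Pl K)) (ε : Pl K → Gal(Ω/K) → R) (n : Finset (Pl K))
    (σ : Pl K → R) (ψ : Pl K → Fin w → ZMod p) (hn : ∀ v ∈ n, v ∉ D.S0) {r : ℕ} (τ : Fin r → R)
    (φ : Fin r → Fin w → ZMod p) (q : Fin r → Pl K) (hq : ∀ i, q i ∉ D.S0)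
    (h : VFs Dg Λ Fr b E ε n σ ψ τ φ q ≠ 0) :
    ∃ ρ, ρ ∈ XS L Dg b E ε (vn n q) (vs σ q τ) ∧ HIs Dg Λ Fr (vn n q) (vs σ q τ) (vs ψ q φ) ∧
      VFs Dg Λ Fr b E ε n σ ψ τ φ q = ep p (EEs Dg Λ Fr (vn n q) (vs ψ q φ) ρ) := by
  unfold VFs at h ⊢
  by_cases hc : Function.Injective q ∧ ∀ i, q i ∉ n
  swap
  · rw [if_neg hc] at h
    exact absurd rfl h
  rw [if_pos hc] at h ⊢
  obtain ⟨h1, ρ, h2⟩ := ffs_ne Fr Dg Λ b E ε _ _ _ h
  refine ⟨ρ, h2, h1, ffs_val hp hζ Fr Dg Λ b E ε _ _ _ ?_ h1 h2⟩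
  intro v hv
  unfold vn at hv
  rcases Finset.mem_union.1 hv with h3 | h3
  · exact hn v h3
  · obtain ⟨i, -, hi⟩ := Finset.mem_image.1 h3
    rw [← hi]
    exact hq i

/-- the invariance of the phase, in coordinates -/
theorem his_vn [Finite R] (hp : p.Prime) (hζ : IsPrimitiveRoot ζ p) {D : RD0 K p ζ} {L : LDs D Ω}
    (Fr : FR L) (Dg : GP p m l w N P R) (Λ : SF D Ω Dg) (n : Finset (Pl K)) (σ : Pl K → R)
    (ψ : Pl K → Fin w → ZMod p) {r : ℕ} (τ : Fin r → R) (φ : Fin r → Fin w → ZMod p)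
    (q : Fin r → Pl K) (hq : Function.Injective q) (hqn : ∀ i, q i ∉ n)
    (h : HIs Dg Λ Fr (vn n q) (vs σ q τ) (vs ψ q φ)) (y : Gal(Ω/K) → Fin l → ZMod p)
    (hy : ∀ k, Rho L 1 1 fun g => y g k) :
    ∑ v ∈ n, dt (ψ v) (Dg.β (y (Fr.F v)) (sg Dg σ v)) +
      ∑ i, dt (φ i) (Dg.β (y (Fr.F (q i))) (pu Dg (τ i))) +
      ∑ j, dt (Λ.c j) (y (Λ.σ j)) = 0 := by
  obtain ⟨h0, hh0, hv0⟩ := h1_of_coord hp hζ L Dg y hy
  have h1 := h h0 hh0
  have h2 : ∀ g, (fun j => Dg.cv j (h0 g)) = y g := by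
    intro g
    funext j
    rw [hv0, vof_cv]
  have hdis : Disjoint n (Finset.univ.image q) := by
    rw [Finset.disjoint_right]
    intro v hv
    obtain ⟨j, -, rfl⟩ := Finset.mem_image.1 hv
    exact hqn j
  unfold vn at h1
  rw [Finset.sum_union hdis, Finset.sum_image fun a _ b _ h => hq h] at h1
  refine Eq.trans ?_ h1
  refine congrArg₂ (· + ·) (congrArg₂ (· + ·) ?_ ?_) ?_
  · refine Finset.sum_congr rfl fun v hv => ?_
    unfold sg
    rw [vs_out σ τ (fun j h3 => hqn j (by rw [h3]; exact hv)),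
      vs_out ψ φ (fun j h3 => hqn j (by rw [h3]; exact hv)), h2]
  · refine Finset.sum_congr rfl fun i _ => ?_
    unfold sg
    rw [vs_q σ hq τ i, vs_q ψ hq φ i, h2]
    rfl
  · unfold LamH
    exact Finset.sum_congr rfl fun j _ => by rw [h2]

/-- the data over a square -/
theorem c2s_core [NeZero p] [Finite R] (hp : p.Prime) (hp2 : MOne p K)
    (hζ : IsPrimitiveRoot ζ p)
    (D : RD K p ζ) {L : LDs D.toRD0 Ω} (Fr : FR L) (Dg : GP p m l w N P R) (Λ : SF D.toRD0 Ω Dg)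
    (b : Fin m → Kˣ) (E : Finset (Pl K)) (ε : Pl K → Gal(Ω/K) → R) (n : Finset (Pl K))
    (σ : Pl K → R) (ψ : Pl K → Fin w → ZMod p) (hB : Bse D.toRD0 b E n) (τ : Fin 2 → R)
    (hτ : ∀ i, τ i ^ p = 1) (φ : Fin 2 → Fin w → ZMod p) (Q : Fin 2 → Finset (Pl K))
    (hQ : ∀ i, Cell D.toRD0 Dg b E n σ (Q i)) (q : Fin 2 → Fin 2 → Pl K)
    (hqQ : ∀ i e, q i e ∈ Q i) (hS : SquH D.toRD0 b E n q)
    (h0 : VFs Dg Λ Fr b E ε n σ ψ τ φ ![q 0 0, q 1 0] ≠ 0) :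
    ∃ ρ : (Fin 2 → Fin 2) → (Gal(Ω/K) →* R),
      (∀ e : Fin 2 → Fin 2, ρ e ∈ XS L Dg b E ε (vn n fun i => q i (e i)) (vs σ (fun i => q i (e i)) τ)) ∧
      (∀ e : Fin 2 → Fin 2, HIs Dg Λ Fr (vn n fun i => q i (e i)) (vs σ (fun i => q i (e i)) τ)
        (vs ψ (fun i => q i (e i)) φ)) ∧
      VFs Dg Λ Fr b E ε n σ ψ τ φ ![q 0 0, q 1 0] * conj (VFs Dg Λ Fr b E ε n σ ψ τ φ ![q 0 1, q 1 0]) *
        conj (VFs Dg Λ Fr b E ε n σ ψ τ φ ![q 0 0, q 1 1] *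
          conj (VFs Dg Λ Fr b E ε n σ ψ τ φ ![q 0 1, q 1 1])) =
      ep p (∑ e : Fin 2 → Fin 2, (-1) ^ (∑ i, (e i).val) *
          EEs Dg Λ Fr (vn n fun i => q i (e i)) (vs ψ (fun i => q i (e i)) φ) (ρ e)) := by
  have hvec : ∀ e : Fin 2 → Fin 2, (fun j => q j (e j)) = ![q 0 (e 0), q 1 (e 1)] :=
    fun e => c2_vec _
  have hV0 : VFs Dg Λ Fr b E ε n σ ψ τ φ (fun j => q j ((0 : Fin 2 → Fin 2) j)) ≠ 0 := by
    rw [hvec]
    exact h0
  have step := c2s_vertex hp hp2 hζ D Fr Dg Λ b E ε n σ ψ hB τ hτ φ Q hQ q hqQ hS.sq.inj hS.hs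
  have hV : ∀ e : Fin 2 → Fin 2, VFs Dg Λ Fr b E ε n σ ψ τ φ (fun j => q j (e j)) ≠ 0 := by
    intro e
    have s1 := step 0 0 (e 0) hV0 rfl
    have s2 := step _ 1 (e 1) s1 (by rw [Function.update_of_ne (by decide)]; rfl)
    have h1 : Function.update (Function.update (0 : Fin 2 → Fin 2) 0 (e 0)) 1 (e 1) = e := by
      funext i
      have d01 : (0 : Fin 2) ≠ 1 := by decide
      rcases (show i = 0 ∨ i = 1 by fin_cases i <;> simp) with h | h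
      · rw [h, Function.update_of_ne d01, Function.update_self]
      · rw [h, Function.update_self]
    rw [h1] at s2
    exact s2
  have hdat := fun e : Fin 2 → Fin 2 => c2s_data hp hζ Fr Dg Λ b E ε n σ ψ
    (fun v hv => (hB.gn v hv).1.1) τ φ (fun j => q j (e j)) (fun i => (hS.sq.gd i (e i)).1) (hV e)
  choose ρ hρ hHI hval using hdat
  refine ⟨ρ, hρ, hHI, ?_⟩
  rw [c2_alt]
  have hG : ∀ x y : Fin 2, VFs Dg Λ Fr b E ε n σ ψ τ φ ![q 0 x, q 1 y] =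
      ep p (EEs Dg Λ Fr (vn n fun j => q j ((![x, y] : Fin 2 → Fin 2) j))
        (vs ψ (fun j => q j ((![x, y] : Fin 2 → Fin 2) j)) φ) (ρ ![x, y])) := by
    intro x y
    rw [← hval ![x, y], hvec ![x, y]]
    rfl
  simp only [hG, c2_conj hp, ← ep_add hp]
  congr 1
  ring

/-- the square property from the main computation -/
theorem c2s_of_core [NeZero p] [Finite R] (hp : p.Prime) (hp2 : MOne p K) (hζ : IsPrimitiveRoot ζ p)
    (D : RD K p ζ) {L : LDs D.toRD0 Ω} (Fr : FR L) (Dg : GP p m l w N P R) (Λ : SF D.toRD0 Ω Dg)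
    (b : Fin m → Kˣ) (E : Finset (Pl K)) (ε : Pl K → Gal(Ω/K) → R) (n : Finset (Pl K))
    (σ : Pl K → R) (ψ : Pl K → Fin w → ZMod p) (hB : Bse D.toRD0 b E n) (τ : Fin 2 → R)
    (hτ : ∀ i, τ i ^ p = 1) (φ : Fin 2 → Fin w → ZMod p) (Q : Fin 2 → Finset (Pl K))
    (hQ : ∀ i, Cell D.toRD0 Dg b E n σ (Q i)) (A : Kˣ)
    (hmain : ∀ q : Fin 2 → Fin 2 → Pl K, (∀ i e, q i e ∈ Q i) → SquH D.toRD0 b E n q →
      VFs Dg Λ Fr b E ε n σ ψ τ φ ![q 0 0, q 1 0] ≠ 0 → ∀ Y, Rho L (dq D.toRD0 (q 0)) A Y →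
      VFs Dg Λ Fr b E ε n σ ψ τ φ ![q 0 0, q 1 0] * conj (VFs Dg Λ Fr b E ε n σ ψ τ φ ![q 0 1, q 1 0]) *
        conj (VFs Dg Λ Fr b E ε n σ ψ τ φ ![q 0 0, q 1 1] *
          conj (VFs Dg Λ Fr b E ε n σ ψ τ φ ![q 0 1, q 1 1])) = ep p (df Fr Y (q 1))) :
    C2 D.toRD0 Fr 1 A (Q 0) (Q 1) (fun x y => VFs Dg Λ Fr b E ε n σ ψ τ φ ![x, y]) := by
  have hvinj : ∀ x y, VFs Dg Λ Fr b E ε n σ ψ τ φ ![x, y] ≠ 0 →
      Function.Injective (![x, y] : Fin 2 → Pl K) := by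
    intro x y h
    by_contra h1
    apply h
    unfold VFs
    rw [if_neg fun h2 => h1 h2.1]
  have hvne : ∀ x y, VFs Dg Λ Fr b E ε n σ ψ τ φ ![x, y] ≠ 0 → x ≠ y := by
    intro x y h h2
    have h1 := hvinj x y h
    exact absurd (h1 (show (![x, y] : Fin 2 → Pl K) 0 = ![x, y] 1 from h2)) (by decide)
  have hstep := fun (x y : Pl K) (hx : x ∈ Q 0) (hy : y ∈ Q 1) =>
    vfs_step hp hp2 hζ D Fr Dg Λ b E ε n σ ψ hB τ hτ φ Q hQ ![x, y] (fun i => by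
      fin_cases i
      · exact hx
      · exact hy)
  have u0 : ∀ x y x' : Pl K, Function.update ![x, y] (0 : Fin 2) x' = ![x', y] := by
    intro x y x'
    funext i
    fin_cases i <;> rfl
  have u1 : ∀ x y x' : Pl K, Function.update ![x, y] (1 : Fin 2) x' = ![x, x'] := by
    intro x y x'
    funext i
    fin_cases i <;> rfl
  have hg : ∀ i, ∀ v ∈ Q i, D.Gd v := fun i v hv => ((hQ i).gd v hv).1
  refine ⟨?_, ?_, ?_, ?_, ?_⟩
  · intro x _ y _ h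
    by_contra h1
    exact hvne x y h1 h
  · intro x _ y _ h
    exact (vfs_norm Fr Dg Λ b E ε n σ ψ τ φ _).resolve_left h
  · intro x hx x' hx' y hy hxy h1 h3
    have h4 := hstep x y hx hy 0 x' hx' (by
      intro j hj
      fin_cases j
      · exact absurd rfl hj
      · exact hxy) (by
      intro j hj
      fin_cases j
      · exact absurd rfl hj
      · exact h1) h3
    rwa [u0] at h4
  · intro x hx y hy y' hy' hyx h1 h3
    have h5 := hvne x y h3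
    have h6 := c2_sw D (hg 0 x hx) (hg 1 y hy) (hg 1 y' hy') h5 hyx.symm
      ((hQ 1).cls _ hy _ hy') h1
    have h4 := hstep x y hx hy 1 y' hy' (by
      intro j hj
      fin_cases j
      · exact hyx
      · exact absurd rfl hj) (by
      intro j hj
      fin_cases j
      · exact h6
      · exact absurd rfl hj) h3
    rwa [u1] at h4
  · intro a ha a' ha' x hx x' hx' haa hxx hax h0 Y hY
    obtain ⟨q, hq⟩ : ∃ q : Fin 2 → Fin 2 → Pl K, q = ![![a, a'], ![x, x']] := ⟨_, rfl⟩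
    have q00 : q 0 0 = a := by rw [hq]; rfl
    have q01 : q 0 1 = a' := by rw [hq]; rfl
    have q10 : q 1 0 = x := by rw [hq]; rfl
    have q11 : q 1 1 = x' := by rw [hq]; rfl
    have hm0 : ∀ e, q 0 e ∈ ({a, a'} : Finset (Pl K)) := by
      intro e
      fin_cases e
      · show q 0 0 ∈ _
        rw [q00]; exact Finset.mem_insert_self _ _
      · show q 0 1 ∈ _
        rw [q01]; exact Finset.mem_insert_of_mem (Finset.mem_singleton_self _)
    have hm1 : ∀ e, q 1 e ∈ ({x, x'} : Finset (Pl K)) := by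
      intro e
      fin_cases e
      · show q 1 0 ∈ _
        rw [q10]; exact Finset.mem_insert_self _ _
      · show q 1 1 ∈ _
        rw [q11]; exact Finset.mem_insert_of_mem (Finset.mem_singleton_self _)
    have hqQ : ∀ i e, q i e ∈ Q i := by
      intro i e
      fin_cases i <;> fin_cases e
      · show q 0 0 ∈ Q 0
        rwa [q00]
      · show q 0 1 ∈ Q 0
        rwa [q01]
      · show q 1 0 ∈ Q 1
        rwa [q10]
      · show q 1 1 ∈ Q 1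
        rwa [q11]
    have hneq : ∀ i, q i 0 ≠ q i 1 := by
      intro i
      fin_cases i
      · show q 0 0 ≠ q 0 1
        rwa [q00, q01]
      · show q 1 0 ≠ q 1 1
        rwa [q10, q11]
    have n01 : ∀ e e', q 0 e ≠ q 1 e' := fun e e' => (hax _ (hm0 e) _ (hm1 e')).1
    have l01 : ∀ e e' f f', D.LL (q 1 e') (D.pi (q 0 e)) = D.LL (q 1 f') (D.pi (q 0 f)) :=
      fun e e' f f' => (hax _ (hm0 e) _ (hm1 e')).2.trans (hax _ (hm0 f) _ (hm1 f')).2.symm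
    have hgd : ∀ i e, D.Gd (q i e) := fun i e => hg i _ (hqQ i e)
    have hcls : ∀ i, D.q (q i 0) = D.q (q i 1) := fun i => (hQ i).cls _ (hqQ i 0) _ (hqQ i 1)
    have hinj : ∀ i e j e', q i e = q j e' → i = j ∧ e = e' := by
      intro i e j e' h
      have hij : i = j := by
        by_contra hij
        fin_cases i <;> fin_cases j
        · exact hij rfl
        · exact n01 e e' h
        · exact n01 e' e h.symm
        · exact hij rfl
      refine ⟨hij, ?_⟩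
      subst hij
      by_contra he
      fin_cases e <;> fin_cases e'
      · exact he rfl
      · exact hneq i h
      · exact hneq i h.symm
      · exact he rfl
    have hs : ∀ i j, i ≠ j → ∀ e, D.LL (q j e) (D.pi (q i 0)) = D.LL (q j e) (D.pi (q i 1)) := by
      intro i j hij e
      fin_cases i <;> fin_cases j
      · exact absurd rfl hij
      · exact l01 _ _ _ _
      · exact (c2_sw D (hgd 0 e) (hgd 1 0) (hgd 1 1) (n01 e 0) (n01 e 1) (hcls 1)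
          (l01 _ _ _ _)).symm
      · exact absurd rfl hij
    have hSq : SquH D.toRD0 b E n q := by
      refine ⟨hB, ⟨hgd, hinj, hcls⟩, fun i e => ((hQ i).gd _ (hqQ i e)).2, ?_, hs⟩
      intro v hv i
      exact (hQ i).ln v hv _ (hqQ i 0) _ (hqQ i 1)
    have h0' : VFs Dg Λ Fr b E ε n σ ψ τ φ ![q 0 0, q 1 0] ≠ 0 := by
      rw [q00, q10]
      exact h0
    have hY' : Rho L (dq D.toRD0 (q 0)) A Y := by
      unfold dq
      rw [q00, q01]
      exact hY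
    have hfin := hmain q hqQ hSq h0' Y hY'
    unfold df at hfin
    rw [q00, q01, q10, q11] at hfin
    rw [one_mul]
    exact hfin

theorem c2ms [NeZero p] [Finite R] (hp : p.Prime) (hp2 : MOne p K) (hζ : IsPrimitiveRoot ζ p)
    (hz : Z2 p K) (D : RD K p ζ) {L : LDs D.toRD0 Ω} (Fr : FR L) (Dg : GP p m l w N P R) (Λ : SF D.toRD0 Ω Dg)
    (b : Fin m → Kˣ) (E : Finset (Pl K)) (ε : Pl K → Gal(Ω/K) → R) (n : Finset (Pl K))
    (σ : Pl K → R) (ψ : Pl K → Fin w → ZMod p) (hB : Bse D.toRD0 b E n) (τ : Fin 2 → R)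
    (hτ : ∀ i, τ i ^ p = 1) (φ : Fin 2 → Fin w → ZMod p) (Q : Fin 2 → Finset (Pl K))
    (hQ : ∀ i, Cell D.toRD0 Dg b E n σ (Q i))
    (hφ : ∀ i (v : Fin l → ZMod p), dt (φ i) (Dg.β v (pu Dg (τ i))) = 0) (A : Kˣ)
    (hG : GdRep D.toRD0)
    (hA : DuA D.toRD0 (fun x => Lam1 Dg Λ (Dg.kV (pu Dg (τ 1)) (pu Dg (τ 0)))
      (fun g => kk p ζ x g)) A) (hA1 : ∀ v, v ∉ D.S0 → v ∉ n → ((ord v A : ℤ) : ZMod p) = 0)
    (hA2 : ∀ v ∈ n, ((ord v A : ℤ) : ZMod p) =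
      dt (ψ v) (Dg.β (Dg.kV (pu Dg (τ 1)) (pu Dg (τ 0))) (sg Dg σ v))) :
    C2 D.toRD0 Fr 1 A (Q 0) (Q 1) (fun x y => VFs Dg Λ Fr b E ε n σ ψ τ φ ![x, y]) := by
  refine c2s_of_core hp hp2 hζ D Fr Dg Λ b E ε n σ ψ hB τ hτ φ Q hQ A ?_
  intro q hqQ hS h0 Y hY
  obtain ⟨ρ, hρ, hHI, hprod⟩ := c2s_core hp hp2 hζ D Fr Dg Λ b E ε n σ ψ hB τ hτ φ Q hQ q hqQ hS h0
  obtain ⟨y, y01, y10, hy, -, -, hsum⟩ := squares_phase hp hp2 hζ D.toRD0 Fr Dg Λ b E ε n σ ψ τ hτ φ q hS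
    ρ hρ
  rw [hprod, hsum, hφ, hφ, hφ, hφ]
  obtain ⟨r, hr⟩ := c2_box hp hp2 hζ D L hS
  have hne : ∀ i j e e', i ≠ j → q i e ≠ q j e' :=
    fun i j e e' h h' => h (hS.sq.inj _ _ _ _ h').1
  have hH : ∀ k, Rho L 1 1 fun g =>
      (fun g => y g - r g • Dg.kV (pu Dg (τ 1)) (pu Dg (τ 0))) g k := by
    intro k
    have h1 := rho_sub hp hζ (hy k)
      (rho_smul_left hp hζ hr (Dg.kV (pu Dg (τ 1)) (pu Dg (τ 0)) k).val)
    rw [ZMod.natCast_zmod_val] at h1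
    have h2 : (fun g => (fun g => y g - r g • Dg.kV (pu Dg (τ 1)) (pu Dg (τ 0))) g k) =
        fun g => y g k - Dg.kV (pu Dg (τ 1)) (pu Dg (τ 0)) k * r g := by
      funext g
      show (y g - r g • Dg.kV (pu Dg (τ 1)) (pu Dg (τ 0))) k = _
      rw [Pi.sub_apply, Pi.smul_apply, smul_eq_mul, mul_comm]
    rw [h2]
    exact h1
  have hinj : Function.Injective fun i => q i 1 := fun i j h => (hS.sq.inj _ _ _ _ h).1
  have h3 := his_vn hp hζ Fr Dg Λ n σ ψ τ φ (fun i => q i 1) hinj (fun i => (hS.out i 1).2)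
    (hHI fun _ => 1) _ hH
  have h4 : ∑ i, dt (φ i) (Dg.β ((fun g => y g - r g • Dg.kV (pu Dg (τ 1)) (pu Dg (τ 0)))
      (Fr.F (q i 1))) (pu Dg (τ i))) = 0 := Finset.sum_eq_zero fun i _ => hφ i _
  rw [h4, add_zero] at h3
  have h5 : ∑ v ∈ n, dt (ψ v) (Dg.β (y (Fr.F v)) (sg Dg σ v)) + ∑ j, dt (Λ.c j) (y (Λ.σ j)) =
      ∑ v ∈ n, ((ord v A : ℤ) : ZMod p) * r (Fr.F v) +
        ∑ j, dt (Λ.c j) (Dg.kV (pu Dg (τ 1)) (pu Dg (τ 0))) * r (Λ.σ j) := by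
    rw [← sub_eq_zero, add_sub_add_comm, ← Finset.sum_sub_distrib, ← Finset.sum_sub_distrib, ← h3]
    refine congrArg₂ (· + ·) (Finset.sum_congr rfl fun v hv => ?_)
      (Finset.sum_congr rfl fun j _ => ?_)
    · rw [hA2 v hv]
      show _ = dt (ψ v) (Dg.β (y (Fr.F v) - r (Fr.F v) • Dg.kV (pu Dg (τ 1)) (pu Dg (τ 0)))
        (sg Dg σ v))
      rw [sub_eq_add_neg (y (Fr.F v)), ← neg_smul, map_add, LinearMap.add_apply, c2_dt, map_smul,
        LinearMap.smul_apply, c2_dts]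
      ring
    · show _ = dt (Λ.c j) (y (Λ.σ j) - r (Λ.σ j) • Dg.kV (pu Dg (τ 1)) (pu Dg (τ 0)))
      rw [sub_eq_add_neg (y (Λ.σ j)), ← neg_smul, c2_dt, c2_dts]
      ring
  have h6 := mas_s hp hp2 hζ hz Fr Λ.Q hG q hS.sq A n (fun v hv => (hB.gn v hv).1) hA1
    (fun i e => hA1 _ (hS.sq.gd i e).1 (hS.out i e).2) Λ.pl Λ.hpl Λ.σ Λ.mem
    (fun j => dt (Λ.c j) (Dg.kV (pu Dg (τ 1)) (pu Dg (τ 0)))) hA hY hr
  rw [h5, ← h6, add_zero, add_zero, add_zero]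

end H51.CUD
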