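import Pool.Agent.H51.CUB.PFA
import Pool.Agent.H51.CUD.DVC

/-!
# [H51 CUD DPA] `PFs` as a sum over the labels

As in `H51/CUB/PFA.lean` (read its header), with the phase at S0.
-/

set_option autoImplicit false

open scoped NumberField
open IsDedekindDomain
open scoped Classical

noncomputable section

namespace H51.CUD

open H63.MA H38.BB H38.BG H57.PC H77.PC3 H51.CUB

variable {K : Type} [Field K] [NumberField K] {p : ℕ} {ζ : K} {Ω : Type} [Field Ω] [Algebra K Ω]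
  {m l w N : ℕ} {P R : Type} [Group P] [Group R] {J : Type} [Fintype J]

private theorem pfa_un {g : J → Finset (Pl K)} {v : Pl K} : v ∈ un g ↔ ∃ a, v ∈ g a := by
  unfold CUB.un
  rw [Finset.mem_biUnion]
  exact ⟨fun ⟨a, _, h⟩ => ⟨a, h⟩, fun ⟨a, h⟩ => ⟨a, Finset.mem_univ _, h⟩⟩

variable [IsAlgClosure K Ω]

theorem pfs_eq [NeZero p] [Finite R] (hp : p.Prime) (hζ : IsPrimitiveRoot ζ p) (D : RD K p ζ)
    {L : LDs D.toRD0 Ω} (Fr : FR L) (Dg : GP p m l w N P R) (Λ : SF D.toRD0 Ω Dg) (T : TY N w p J) (b : Fin m → Kˣ)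
    (E : Finset (Pl K)) (hE : ∀ v ∈ E, v ∉ D.S0) (ε : Pl K → Gal(Ω/K) → R)
    {g : J → Finset (Pl K)} (hg : Dj g) (hG : ∀ a, ∀ v ∈ g a, v ∉ D.S0) :
    PFs Dg Λ Fr T b E ε g = (Nat.card (H1 L Dg) : ℂ) *
      ∑ σ ∈ LB (clv Dg T g) (un g), FFs Dg Λ Fr b E ε (un g) σ (psv T g) := by
  have hn : ∀ v ∈ un g, v ∉ D.S0 := by
    intro v hv
    obtain ⟨a, ha⟩ := pfa_un.1 hv
    exact hG a v ha
  have hfin := rh_fin hp hζ D Fr Dg T b E ε hg hG
  have hRH : RHf L Dg b E ε (clf T g) = (LB (clv Dg T g) (un g)).biUnion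
      fun σ => (xs_finite hp hζ D L Fr Dg b E ε (un g) σ hn).toFinset := by
    unfold RHf
    rw [dif_pos hfin]
    ext ρ
    rw [Set.Finite.mem_toFinset, Finset.mem_biUnion, rh_xs L Dg T b E ε hg ρ]
    constructor
    · rintro ⟨σ, hσ, h⟩
      exact ⟨σ, hσ, (Set.Finite.mem_toFinset _).2 h⟩
    · rintro ⟨σ, hσ, h⟩
      exact ⟨σ, hσ, (Set.Finite.mem_toFinset _).1 h⟩
  have hdis : ((LB (clv Dg T g) (un g) : Finset (Pl K → R)) : Set (Pl K → R)).PairwiseDisjoint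
      fun σ => (xs_finite hp hζ D L Fr Dg b E ε (un g) σ hn).toFinset := by
    intro σ hσ σ' hσ' hne
    rw [Function.onFun, Finset.disjoint_left]
    intro ρ h1 h2
    rw [Set.Finite.mem_toFinset] at h1 h2
    apply hne
    funext v
    by_cases hv : v ∈ un g
    · rw [← (h1.2.2.1 v hv).1, ← (h2.2.2.1 v hv).1]
    · rw [((mem_LB _ _ _).1 (Finset.mem_coe.1 hσ)).2 v hv,
        ((mem_LB _ _ _).1 (Finset.mem_coe.1 hσ')).2 v hv]
  have hph : ∀ ρ : Gal(Ω/K) →* R, ∑ a, ∑ v ∈ g a, dt (T.psi a) (cq Dg Fr ρ v) +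
      Lam Dg Λ ρ =
      EEs Dg Λ Fr (un g) (psv T g) ρ := by
    intro ρ
    unfold EEs EE CUB.un
    congr 1
    rw [Finset.sum_biUnion (fun a _ a' _ h => hg a a' h)]
    exact Finset.sum_congr rfl fun a _ => Finset.sum_congr rfl fun v hv => by
      rw [psv_eq T hg hv]
  unfold PFs
  rw [hRH, Finset.sum_biUnion hdis, Finset.mul_sum]
  refine Finset.sum_congr rfl fun σ _ => ?_
  rw [← ffs_sum hp hζ D Fr Dg Λ b E ε (un g) σ (psv T g) hE hn]
  exact Finset.sum_congr rfl fun ρ _ => by rw [hph]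

end H51.CUD
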