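import Pool.Agent.H51.CUB.PFB
import Pool.Agent.H51.CUD.DPA

/-!
# [H51 CUD DPB] `PFs` of a family with added primes

As in `H51/CUB/PFB.lean` (read its header), with the phase at S0.
-/

set_option autoImplicit false

open scoped NumberField
open IsDedekindDomain
open scoped Classical

noncomputable section

namespace H51.CUD

open H63.MA H38.BB H38.BG H57.PC H77.PC3 H51.CUB

variable {K : Type} [Field K] [NumberField K] {p : ℕ} {ζ : K} {Ω : Type} [Field Ω] [Algebra K Ω]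
  {m l w N : ℕ} {P R : Type} [Group P] [Group R] {J : Type} [Fintype J]

private theorem pfb_un {g : J → Finset (Pl K)} {v : Pl K} : v ∈ un g ↔ ∃ a, v ∈ g a := by
  unfold CUB.un
  rw [Finset.mem_biUnion]
  exact ⟨fun ⟨a, _, h⟩ => ⟨a, h⟩, fun ⟨a, h⟩ => ⟨a, Finset.mem_univ _, h⟩⟩

private theorem pfb_vn {r : ℕ} {n : Finset (Pl K)} {q : Fin r → Pl K} {v : Pl K} :
    v ∈ vn n q ↔ v ∈ n ∨ ∃ i, q i = v := by
  unfold vn
  rw [Finset.mem_union, Finset.mem_image]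
  simp only [Finset.mem_univ, true_and]

variable [IsAlgClosure K Ω]

theorem pfs_addr [NeZero p] [Finite R] (hp : p.Prime) (hζ : IsPrimitiveRoot ζ p) (D : RD K p ζ)
    {L : LDs D.toRD0 Ω} (Fr : FR L) (Dg : GP p m l w N P R) (Λ : SF D.toRD0 Ω Dg) (T : TY N w p J) (b : Fin m → Kˣ)
    (E : Finset (Pl K)) (hE : ∀ v ∈ E, v ∉ D.S0) (ε : Pl K → Gal(Ω/K) → R) {r : ℕ}
    {g : J → Finset (Pl K)} (τ : Fin r → J) {q : Fin r → Pl K} (h : QH D.toRD0 E g q) :
    PFs Dg Λ Fr T b E ε (addr g τ q) = (Nat.card (H1 L Dg) : ℂ) *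
      ∑ σ ∈ LB (clv Dg T g) (un g),
        ∑ x ∈ Fintype.piFinset (fun i => clR Dg (T.cls (τ i))),
          VFs Dg Λ Fr b E ε (un g) σ (psv T g) x (fun i => T.psi (τ i)) q := by
  have hdj : Dj (addr g τ q) := addr_dj τ h.dj h.inj h.out
  have hS : ∀ a, ∀ v ∈ addr g τ q a, v ∉ D.S0 := by
    intro a v hv
    rw [mem_addr] at hv
    rcases hv with hv | ⟨i, _, hi⟩
    · exact (h.gd a v hv).1.1
    · rw [← hi]
      exact (h.qd i).1.1
  have hqn : ∀ i, q i ∉ un g := by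
    intro i hi
    obtain ⟨a, ha⟩ := pfb_un.1 hi
    exact h.out i a ha
  have hqne : ∀ v ∈ un g, ∀ i, q i ≠ v := by
    rintro v hv i rfl
    exact hqn i hv
  rw [pfs_eq hp hζ D Fr Dg Λ T b E hE ε hdj hS, un_addr]
  congr 1
  have hcn : ∀ v ∈ un g, clv Dg T (addr g τ q) v = clv Dg T g v := by
    intro v hv
    obtain ⟨a, ha⟩ := pfb_un.1 hv
    rw [clv_eq Dg T h.dj ha, clv_eq Dg T hdj ((mem_addr _ _ _ _ _).2 (Or.inl ha))]
  have hcq : ∀ i, clv Dg T (addr g τ q) (q i) = clR Dg (T.cls (τ i)) := fun i =>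
    clv_eq Dg T hdj ((mem_addr _ _ _ _ _).2 (Or.inr ⟨i, rfl, rfl⟩))
  have hpn : ∀ v ∈ un g, psv T (addr g τ q) v = psv T g v := by
    intro v hv
    obtain ⟨a, ha⟩ := pfb_un.1 hv
    rw [psv_eq T h.dj ha, psv_eq T hdj ((mem_addr _ _ _ _ _).2 (Or.inl ha))]
  have hpq : ∀ i, psv T (addr g τ q) (q i) = T.psi (τ i) := fun i =>
    psv_eq T hdj ((mem_addr _ _ _ _ _).2 (Or.inr ⟨i, rfl, rfl⟩))
  have hvs : ∀ σ ∈ LB (clv Dg T (addr g τ q)) (vn (un g) q),
      vs (fun v => if v ∈ un g then σ v else 1) q (fun i => σ (q i)) = σ := by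
    intro σ hσ
    funext v
    by_cases hv : ∃ i, q i = v
    · obtain ⟨i, rfl⟩ := hv
      rw [vs_q _ h.inj]
    · rw [vs_out _ _ fun i hi => hv ⟨i, hi⟩]
      show (if v ∈ un g then σ v else 1) = σ v
      by_cases hvn : v ∈ un g
      · rw [if_pos hvn]
      · rw [if_neg hvn, ((mem_LB _ _ _).1 hσ).2 v]
        rw [pfb_vn]
        rintro (h1 | h1)
        · exact hvn h1
        · exact hv h1
  rw [← Finset.sum_product' (LB (clv Dg T g) (un g))
    (Fintype.piFinset fun i => clR Dg (T.cls (τ i)))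
    (fun σ x => VFs Dg Λ Fr b E ε (un g) σ (psv T g) x (fun i => T.psi (τ i)) q)]
  refine Finset.sum_nbij' (fun σ => (fun v => if v ∈ un g then σ v else 1, fun i => σ (q i)))
    (fun z => vs z.1 q z.2) ?_ ?_ ?_ ?_ ?_
  · intro σ hσ
    have h1 := (mem_LB _ _ _).1 hσ
    rw [Finset.mem_product, mem_LB, Fintype.mem_piFinset]
    refine ⟨⟨fun v hv => ?_, fun v hv => if_neg hv⟩, fun i => ?_⟩
    · show (if v ∈ un g then σ v else 1) ∈ clv Dg T g v
      rw [if_pos hv, ← hcn v hv]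
      exact h1.1 v (pfb_vn.2 (Or.inl hv))
    · have h2 := h1.1 (q i) (pfb_vn.2 (Or.inr ⟨i, rfl⟩))
      rw [hcq] at h2
      exact h2
  · intro z hz
    rw [Finset.mem_product, mem_LB, Fintype.mem_piFinset] at hz
    obtain ⟨⟨h1, h2⟩, h3⟩ := hz
    rw [mem_LB]
    refine ⟨fun v hv => ?_, fun v hv => ?_⟩
    · rcases pfb_vn.1 hv with h4 | ⟨i, rfl⟩
      · rw [vs_out z.1 z.2 (hqne v h4), hcn v h4]
        exact h1 v h4
      · rw [vs_q z.1 h.inj, hcq]
        exact h3 i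
    · rw [pfb_vn, not_or] at hv
      rw [vs_out z.1 z.2 fun i hi => hv.2 ⟨i, hi⟩]
      exact h2 v hv.1
  · intro σ hσ
    exact hvs σ hσ
  · intro z hz
    rw [Finset.mem_product, mem_LB, Fintype.mem_piFinset] at hz
    obtain ⟨⟨h1, h2⟩, h3⟩ := hz
    refine Prod.ext ?_ ?_
    · funext v
      show (if v ∈ un g then vs z.1 q z.2 v else 1) = z.1 v
      by_cases hvn : v ∈ un g
      · rw [if_pos hvn, vs_out z.1 z.2 (hqne v hvn)]
      · rw [if_neg hvn, h2 v hvn]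
    · funext i
      exact vs_q z.1 h.inj z.2 i
  · intro σ hσ
    show FFs Dg Λ Fr b E ε (vn (un g) q) σ (psv T (addr g τ q)) =
      VFs Dg Λ Fr b E ε (un g) (fun v => if v ∈ un g then σ v else 1) (psv T g) (fun i => σ (q i))
        (fun i => T.psi (τ i)) q
    unfold VFs
    rw [if_pos ⟨h.inj, hqn⟩, hvs σ hσ]
    refine ffs_congr Dg Λ Fr b E ε (vn (un g) q) (fun _ _ => rfl) fun v hv => ?_
    rcases pfb_vn.1 hv with h4 | ⟨i, rfl⟩
    · rw [vs_out (psv T g) _ (hqne v h4), hpn v h4]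
    · rw [vs_q (psv T g) h.inj, hpq]

theorem pfs_le [NeZero p] [Finite R] (hp : p.Prime) (hζ : IsPrimitiveRoot ζ p) (D : RD K p ζ)
    {L : LDs D.toRD0 Ω} (Fr : FR L) (Dg : GP p m l w N P R) (Λ : SF D.toRD0 Ω Dg) (T : TY N w p J) (b : Fin m → Kˣ)
    (E : Finset (Pl K)) (hE : ∀ v ∈ E, v ∉ D.S0) (ε : Pl K → Gal(Ω/K) → R)
    {g : J → Finset (Pl K)} (hg : Dj g) (hG : ∀ a, ∀ v ∈ g a, v ∉ D.S0) :
    ‖PFs Dg Λ Fr T b E ε g‖ ≤ (Nat.card (H1 L Dg) : ℝ) * (Nat.card R : ℝ) ^ (∑ a, (g a).card) := by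
  rw [pfs_eq hp hζ D Fr Dg Λ T b E hE ε hg hG, norm_mul, Complex.norm_natCast]
  refine mul_le_mul_of_nonneg_left ?_ (Nat.cast_nonneg _)
  refine (norm_sum_le _ _).trans ?_
  have h1 : ∀ σ ∈ LB (clv Dg T g) (un g), ‖FFs Dg Λ Fr b E ε (un g) σ (psv T g)‖ ≤ 1 := by
    intro σ _
    rcases ffs_norm Fr Dg Λ b E ε (un g) σ (psv T g) with h | h
    · rw [h, norm_zero]
      exact zero_le_one
    · exact h.le
  refine (Finset.sum_le_sum h1).trans ?_
  rw [Finset.sum_const, nsmul_eq_mul, mul_one]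
  have h2 : ∀ v ∈ un g, (clv Dg T g v).card ≤ Nat.card R := by
    intro v _
    have hR : Fintype R := Fintype.ofFinite R
    rw [Nat.card_eq_fintype_card]
    exact Finset.card_le_univ _
  have h3 := card_LB (clv Dg T g) (un g) (Nat.card R) h2
  have h4 : (un g).card = ∑ a, (g a).card := by
    unfold CUB.un
    rw [Finset.card_biUnion (fun a _ a' _ h => hg a a' h)]
  rw [h4] at h3
  exact_mod_cast h3

end H51.CUD
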