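import Pool.Agent.H51.CUB.TWC
import Pool.Agent.H51.CUD.DVC

/-!
# [H51 CUD DTW] Permutations of the added primes

As `vf_perm` in `H51/CUB/TWC.lean`, with the phase at S0.
-/

set_option autoImplicit false

open scoped NumberField ComplexConjugate
open IsDedekindDomain
open scoped Classical

noncomputable section

namespace H51.CUD

open H63.MA H38.BB H38.BG H57.PC H77.PC3 H57.TLS H51.CUB

variable {K : Type} [Field K] [NumberField K] {p : ℕ} {ζ : K} {Ω : Type} [Field Ω] [Algebra K Ω]
  {m l w N : ℕ} {P R : Type} [Group P] [Group R]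

theorem vfs_perm {D : RD0 K p ζ} {L : LDs D Ω} (Dg : GP p m l w N P R) (Λ : SF D Ω Dg) (Fr : FR L) (b : Fin m → Kˣ)
    (E : Finset (Pl K)) (ε : Pl K → Gal(Ω/K) → R) (n : Finset (Pl K)) (σ : Pl K → R)
    (ψ : Pl K → Fin w → ZMod p) {r : ℕ} (τ : Fin r → R) (φ : Fin r → Fin w → ZMod p)
    (q : Fin r → Pl K) (e : Equiv.Perm (Fin r)) :
    VFs Dg Λ Fr b E ε n σ ψ (τ ∘ e) (φ ∘ e) (q ∘ e) = VFs Dg Λ Fr b E ε n σ ψ τ φ q := by
  unfold VFs
  by_cases h : Function.Injective q ∧ ∀ i, q i ∉ n
  · have h' : Function.Injective (q ∘ e) ∧ ∀ i, (q ∘ e) i ∉ n :=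
      ⟨h.1.comp e.injective, fun i => h.2 (e i)⟩
    have hvn : vn n (q ∘ e) = vn n q := by
      unfold vn
      congr 1
      ext v
      simp only [Finset.mem_image, Finset.mem_univ, true_and, Function.comp_apply]
      constructor
      · rintro ⟨i, hi⟩
        exact ⟨e i, hi⟩
      · rintro ⟨i, hi⟩
        exact ⟨e.symm i, by rw [Equiv.apply_symm_apply]; exact hi⟩
    have hvs : ∀ {X : Type} (s : Pl K → X) (t : Fin r → X) (v : Pl K),
        vs s (q ∘ e) (t ∘ e) v = vs s q t v := by
      intro X s t v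
      by_cases hv : ∃ i, q i = v
      · obtain ⟨i, rfl⟩ := hv
        rw [vs_q s h.1 t i]
        have h1 := vs_q s h'.1 (t ∘ e) (e.symm i)
        simp only [Function.comp_apply, Equiv.apply_symm_apply] at h1
        exact h1
      · push Not at hv
        rw [vs_out s t hv, vs_out s (q := q ∘ e) (t ∘ e) (fun i => hv (e i))]
    rw [if_pos h, if_pos h', hvn]
    exact ffs_congr Dg Λ Fr b E ε _ (fun v _ => hvs σ τ v) (fun v _ => hvs ψ φ v)
  · have h' : ¬ (Function.Injective (q ∘ e) ∧ ∀ i, (q ∘ e) i ∉ n) := by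
      rintro ⟨h1, h2⟩
      apply h
      refine ⟨?_, fun i => ?_⟩
      · have h3 := h1.comp e.symm.injective
        have h4 : (q ∘ e) ∘ e.symm = q := by
          funext i
          simp
        rw [h4] at h3
        exact h3
      · have h3 := h2 (e.symm i)
        simp only [Function.comp_apply, Equiv.apply_symm_apply] at h3
        exact h3
    rw [if_neg h, if_neg h']

end H51.CUD
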