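import Pool.Agent.H51.CUB.CLA
import Pool.Agent.H51.CUD.DPB
import Pool.Agent.H51.CUD.DTW

/-!
# [H51 CUD DCA] The sum over a product of cells

As `pf_cells` in `H51/CUB/CLA.lean`, with the phase at S0.
-/

set_option autoImplicit false

open scoped NumberField
open IsDedekindDomain
open scoped Classical

noncomputable section

namespace H51.CUD

open H63.MA H38.BB H38.BG H57.PC H77.PC3 H51.CUB

variable {K : Type} [Field K] [NumberField K] {p : ℕ} {ζ : K} {Ω : Type} [Field Ω] [Algebra K Ω]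
  {m l w N : ℕ} {P R : Type} [Group P] [Group R] {J : Type} [Fintype J]

theorem pfs_cells [NeZero p] [Finite R] [IsAlgClosure K Ω] (hp : p.Prime)
    (hζ : IsPrimitiveRoot ζ p) (D : RD K p ζ)
    {L : LDs D.toRD0 Ω} (Fr : FR L) (Dg : GP p m l w N P R) (Λ : SF D.toRD0 Ω Dg) (T : TY N w p J) (b : Fin m → Kˣ)
    (E : Finset (Pl K)) (hE : ∀ v ∈ E, v ∉ D.S0) (ε : Pl K → Gal(Ω/K) → R)
    (u : J → Pl K → ZMod p) (lam : J → J → ZMod p) {r : ℕ}
    {g : J → Finset (Pl K)} (hg : Dj g) (hG : ∀ a, ∀ v ∈ g a, D.Gd v ∧ v ∉ E) (τ : Fin r → J)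
    (Q : Fin r → Finset (Pl K)) (hQ : ∀ i, ∀ v ∈ Q i, D.Gd v ∧ v ∉ E ∧ ∀ a, v ∉ g a) :
    ∑ q ∈ Fintype.piFinset Q, (if Function.Injective q then
      PFs Dg Λ Fr T b E ε (addr g τ q) * ep p (UU D.toRD0 u lam (addr g τ q)) else 0) =
    (Nat.card (H1 L Dg) : ℂ) * ep p (UU D.toRD0 u lam g) *
      ∑ σ ∈ LB (clv Dg T g) (un g), ∑ x ∈ Fintype.piFinset (fun i => clR Dg (T.cls (τ i))),
        ∑ q ∈ Fintype.piFinset Q,
          VFs Dg Λ Fr b E ε (un g) σ (psv T g) x (fun i => T.psi (τ i)) q *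
            ep p (∑ i, ff1 D.toRD0 u lam g (τ i) (q i) +
              ∑ i, ∑ j, (if i = j then 0 else lam (τ i) (τ j) * D.LL (q i) (D.pi (q j)))) := by
  have h1 : ∀ q ∈ Fintype.piFinset Q, (if Function.Injective q then
      PFs Dg Λ Fr T b E ε (addr g τ q) * ep p (UU D.toRD0 u lam (addr g τ q)) else 0) =
      (Nat.card (H1 L Dg) : ℂ) * ep p (UU D.toRD0 u lam g) *
        ∑ σ ∈ LB (clv Dg T g) (un g), ∑ x ∈ Fintype.piFinset (fun i => clR Dg (T.cls (τ i))),
          VFs Dg Λ Fr b E ε (un g) σ (psv T g) x (fun i => T.psi (τ i)) q *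
            ep p (∑ i, ff1 D.toRD0 u lam g (τ i) (q i) +
              ∑ i, ∑ j, (if i = j then 0 else
                lam (τ i) (τ j) * D.LL (q i) (D.pi (q j)))) := by
    intro q hq
    rw [Fintype.mem_piFinset] at hq
    by_cases hi : Function.Injective q
    · have hQH : QH D.toRD0 E g q :=
        ⟨hg, hG, hi, fun i => ⟨(hQ i (q i) (hq i)).1, (hQ i (q i) (hq i)).2.1⟩,
          fun i => (hQ i (q i) (hq i)).2.2⟩
      rw [if_pos hi, pfs_addr hp hζ D Fr Dg Λ T b E hE ε τ hQH,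
        uu_addr hp hζ D.toRD0 u lam τ hi hQH.out (fun i => (hQH.qd i).1.1), add_assoc, ep_add hp]
      simp only [← Finset.sum_mul]
      unfold ff1
      ring
    · rw [if_neg hi]
      have h2 : ∀ σ x, VFs Dg Λ Fr b E ε (un g) σ (psv T g) x (fun i => T.psi (τ i)) q = 0 := by
        intro σ x
        unfold VFs
        rw [if_neg fun h => hi h.1]
      simp only [h2, zero_mul, Finset.sum_const_zero, mul_zero]
  rw [Finset.sum_congr rfl h1, ← Finset.mul_sum]
  congr 1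
  rw [Finset.sum_comm]
  refine Finset.sum_congr rfl fun σ _ => ?_
  rw [Finset.sum_comm]

end H51.CUD
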