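import Pool.Agent.H51.CUB.LBA
import Pool.Agent.H51.CUB.TDU
import Pool.Agent.H63.MC.CLkC

/-!
# H51-CUD-DDEF: cubes and squares with a factor at S0 (MP_b39724_nt), definitions

The chapter `H51/CUD` is `H51/CUB` with an additional phase which depends on the restriction of `ρ` to decomposition groups at `S0`.
* `SF D Ω Dg`: elements `σ j` of the decomposition groups of the primes `Q.P (pl j)` over `pl j ∈ S0`, functionals `c j` on `V`, and `V`-parts
  `vp j` on `R` (`vp j (v r) = cv v + vp j r` for `v ∈ V`).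
* `Lam Λ ρ = ∑ j, c j · vp j (ρ (σ j))`. `LamH Λ h = ∑ j, c j · cv (h (σ j))` for `h : Γ → V`. `Lam1 Λ y f = ∑ j, (c j · y) * f (σ j)` for `y ∈ V` and a function `f` on `Γ`.
* `EEs`, `HIs`, `FFs`, `VFs`: as `EE`, `HI`, `FF`, `VF` with the phase `EE + Lam`.
* `PFs`, `TSV`: as `PF`, `TSU` with the additional phase.
* `Nps Λ y`: the functional `Lam1 Λ y` is not zero on the Kummer characters of `K`.
-/

set_option autoImplicit false

open scoped NumberField ComplexConjugate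
open IsDedekindDomain
open scoped Classical

noncomputable section

namespace H51.CUD

open H63.MA H38.BB H38.BG H57.PC H57.TLS H51.CUB

variable {K : Type} [Field K] [NumberField K] {p : ℕ} {ζ : K} {Ω : Type} [Field Ω] [Algebra K Ω]
  {m l w N : ℕ} {P R : Type} [Group P] [Group R]

/-- evaluations at the places of `S0` -/
structure SF (D : RD0 K p ζ) (Ω : Type) [Field Ω] [Algebra K Ω] (Dg : GP p m l w N P R) where
  Q : DP K Ω
  s : ℕ
  pl : Fin s → Pl K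
  hpl : ∀ j, pl j ∈ D.S0
  σ : Fin s → Gal(Ω/K)
  mem : ∀ j, σ j ∈ dec (K := K) (Q.P (pl j))
  c : Fin s → Fin l → ZMod p
  vp : Fin s → R → Fin l → ZMod p
  hvp : ∀ j v r, Dg.π v = 1 → ∀ k, vp j (v * r) k = Dg.cv k v + vp j r k

section conf

variable {D : RD0 K p ζ}

/-- the phase at `S0` -/
def Lam (Dg : GP p m l w N P R) (Λ : SF D Ω Dg) (ρ : Gal(Ω/K) →* R) : ZMod p :=
  ∑ j, dt (Λ.c j) (Λ.vp j (ρ (Λ.σ j)))

/-- the phase at `S0` of a homomorphism to `V` -/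
def LamH (Dg : GP p m l w N P R) (Λ : SF D Ω Dg) (h : Gal(Ω/K) →* R) : ZMod p :=
  ∑ j, dt (Λ.c j) (fun k => Dg.cv k (h (Λ.σ j)))

/-- the functional on functions given by an element of `V` -/
def Lam1 (Dg : GP p m l w N P R) (Λ : SF D Ω Dg) (y : Fin l → ZMod p) (f : Gal(Ω/K) → ZMod p) :
    ZMod p := ∑ j, dt (Λ.c j) y * f (Λ.σ j)

/-- the functional `Lam1 Λ y` does not vanish on the Kummer characters -/
def Nps (Dg : GP p m l w N P R) (Λ : SF D Ω Dg) (y : Fin l → ZMod p) : Prop :=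
  ∃ x : Kˣ, Lam1 Dg Λ y (fun g => kk p ζ x g) ≠ 0

/-- the phase -/
def EEs {L : LDs D Ω} (Dg : GP p m l w N P R) (Λ : SF D Ω Dg) (Fr : FR L) (n : Finset (Pl K))
    (ψ : Pl K → Fin w → ZMod p) (ρ : Gal(Ω/K) →* R) : ZMod p :=
  EE Dg Fr n ψ ρ + Lam Dg Λ ρ

/-- the phase is invariant under `H1` -/
def HIs {L : LDs D Ω} (Dg : GP p m l w N P R) (Λ : SF D Ω Dg) (Fr : FR L) (n : Finset (Pl K))
    (σ : Pl K → R) (ψ : Pl K → Fin w → ZMod p) : Prop :=
  ∀ h ∈ H1 L Dg, ∑ v ∈ n, dt (ψ v) (Dg.β (fun j => Dg.cv j (h (Fr.F v))) (sg Dg σ v)) +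
    LamH Dg Λ h = 0

/-- `0`, or the common value of `ep (EEs ρ)`, `ρ ∈ XS` -/
def FFs {L : LDs D Ω} (Dg : GP p m l w N P R) (Λ : SF D Ω Dg) (Fr : FR L) (b : Fin m → Kˣ)
    (E : Finset (Pl K)) (ε : Pl K → Gal(Ω/K) → R) (n : Finset (Pl K)) (σ : Pl K → R)
    (ψ : Pl K → Fin w → ZMod p) : ℂ :=
  if h : HIs Dg Λ Fr n σ ψ ∧ ∃ ρ, ρ ∈ XS L Dg b E ε n σ then ep p (EEs Dg Λ Fr n ψ h.2.choose)
  else 0

/-- `FFs` of a configuration with added primes -/
def VFs {L : LDs D Ω} (Dg : GP p m l w N P R) (Λ : SF D Ω Dg) (Fr : FR L) (b : Fin m → Kˣ)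
    (E : Finset (Pl K)) (ε : Pl K → Gal(Ω/K) → R) (n : Finset (Pl K)) (σ : Pl K → R)
    (ψ : Pl K → Fin w → ZMod p) {r : ℕ} (τ : Fin r → R) (φ : Fin r → Fin w → ZMod p)
    (q : Fin r → Pl K) : ℂ :=
  if Function.Injective q ∧ ∀ i, q i ∉ n then
    FFs Dg Λ Fr b E ε (vn n q) (vs σ q τ) (vs ψ q φ) else 0

end conf

section sums

variable {D : RD0 K p ζ} {J : Type} [Fintype J]

/-- the sum over the homomorphisms of the phases of a typed family and of the phase at `S0` -/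
def PFs [NeZero p] {L : LDs D Ω} (Dg : GP p m l w N P R) (Λ : SF D Ω Dg) (Fr : FR L)
    (T : TY N w p J) (b : Fin m → Kˣ) (E : Finset (Pl K)) (ε : Pl K → Gal(Ω/K) → R)
    (g : J → Finset (Pl K)) : ℂ :=
  ∑ ρ ∈ RHf L Dg b E ε (clf T g),
    ep p (∑ a, ∑ v ∈ g a, dt (T.psi a) (cq Dg Fr ρ v) + Lam Dg Λ ρ)

/-- the sum over the typed families with the extra phases of level one and at `S0` -/
def TSV [NeZero p] {L : LDs D Ω} (Dg : GP p m l w N P R) (Λ : SF D Ω Dg) (Fr : FR L)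
    (T : TY N w p J) (b : Fin m → Kˣ) (E : Finset (Pl K)) (ε : Pl K → Gal(Ω/K) → R)
    (u : J → Pl K → ZMod p) (lam : J → J → ZMod p) (ω : Finset J → ℂ) (Y : ℝ) : ℂ :=
  ∑ g ∈ Fintype.piFinset (fun _ : J => GF D (2 * Y)),
    if Wd D T E Y g ∧ SpR Dg.cr b (clf T g) then
      ω (spt g) * ((∏ a, T.wt a ^ (g a).card : ℝ) : ℂ) * ((wl ((∏ a, nr (g a)) / Y) : ℝ) : ℂ) *
        PFs Dg Λ Fr T b E ε g * ep p (UU D u lam g)
    else 0

end sums

end H51.CUD
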