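import Pool.Agent.H51.CUB.RCC
import Pool.Agent.H63.MC.CLkC

/-!
# H51-CUD-DDU: duality between functionals at S0 and elements (MP_b39724_nt), definitions

* `DuA D F A`: for all `x` and all finite sets `T` of good primes which contain the primes outside `S0` of `x` and `A`:
  `F x + ∑ v ∈ T, (ord v A * LL v x - ord v x * LL v A) = 0`.
* `GdRep D`: every `x ∈ Kˣ` is, modulo elements which are locally `p`-th powers at `S0`, an element supported on `S0` and good primes.
-/

set_option autoImplicit false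

open scoped NumberField
open IsDedekindDomain
open scoped Classical

noncomputable section

namespace H51.CUD

open H63.MA

variable {K : Type} [Field K] [NumberField K] {p : ℕ} {ζ : K}

/-- duality between a functional at `S0` and an element -/
def DuA (D : RD0 K p ζ) (F : Kˣ → ZMod p) (A : Kˣ) : Prop :=
  ∀ (x : Kˣ) (T : Finset (Pl K)), (∀ v ∈ T, D.Gd v) →
    (∀ v, v ∉ D.S0 → v ∉ T → ((ord v x : ℤ) : ZMod p) = 0 ∧ ((ord v A : ℤ) : ZMod p) = 0) →
    F x + ∑ v ∈ T, (((ord v A : ℤ) : ZMod p) * D.LL v x -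
      ((ord v x : ℤ) : ZMod p) * D.LL v A) = 0

/-- every element is supported on `S0` and good primes, modulo local `p`-th powers at `S0` -/
def GdRep (D : RD0 K p ζ) : Prop :=
  ∀ x : Kˣ, ∃ (x' : Kˣ) (T : Finset (Pl K)), (∀ v ∈ T, D.Gd v) ∧
    (∀ v, v ∉ D.S0 → v ∉ T → ord v x' = 0) ∧ PS p ζ D.S0 (x * x'⁻¹)

end H51.CUD
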