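import Pool.Agent.H51.CUB.CL3
import Pool.Agent.H51.CUD.DCA
import Pool.Agent.H51.CUD.DC3

/-!
# [H51 CUD DL3] Three added primes with nonzero linking number: sums over boxes

As in `H51/CUB/CL3.lean` (read its header), with the phase at S0.
-/

set_option autoImplicit false

open scoped NumberField
open IsDedekindDomain
open scoped Classical

noncomputable section

namespace H51.CUD

open H63.MA H38.BB H38.BG H57.PC H77.PC3 H57.BRA H51.CUB

variable {K : Type} [Field K] [NumberField K] {p : ℕ} {ζ : K} {Ω : Type} [Field Ω] [Algebra K Ω]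
  [IsAlgClosure K Ω] {m l w N : ℕ} {P R : Type} [Group P] [Group R]

/-- the reduction of a sum over boxes to cells and labels -/
theorem bxs_red [NeZero p] [Finite R] (hp : p.Prime) (hζ : IsPrimitiveRoot ζ p) (D : RD K p ζ)
    {L : LDs D.toRD0 Ω} (Fr : FR L) (Dg : GP p m l w N P R) (Λ : SF D.toRD0 Ω Dg) {J : Type} [Fintype J]
    (T : TY N w p J) (b : Fin m → Kˣ) (E : Finset (Pl K)) (hE : ∀ v ∈ E, v ∉ D.S0)
    (ε : Pl K → Gal(Ω/K) → R) (u : J → Pl K → ZMod p) (lam : J → J → ZMod p) {r : ℕ}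
    {g : J → Finset (Pl K)} (hg : Dj g) (hG : ∀ a, ∀ v ∈ g a, D.Gd v ∧ v ∉ E) (τ : Fin r → J)
    (Q : Fin r → Finset (Pl K)) (hQ : ∀ i, ∀ v ∈ Q i, D.Gd v ∧ v ∉ E ∧ ∀ a, v ∉ g a)
    (B : ℝ) (hB : 0 ≤ B)
    (h : ∀ c : Fin r → (Fin D.r → ZMod p) × (↥(un g ∪ E) → ZMod p) × (Fin m → ZMod p),
      ∀ σ ∈ LB (clv Dg T g) (un g),
      ‖∑ x ∈ Fintype.piFinset (fun i => clR Dg (T.cls (τ i))),
        ∑ q ∈ Fintype.piFinset (fun i => (Q i).filter fun x => cfn D.toRD0 Dg T b E g x = c i),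
          VFs Dg Λ Fr b E ε (un g) σ (psv T g) x (fun i => T.psi (τ i)) q *
            ep p (∑ i, ff1 D.toRD0 u lam g (τ i) (q i) +
              ∑ i, ∑ j, (if i = j then 0 else lam (τ i) (τ j) * D.LL (q i) (D.pi (q j))))‖ ≤ B) :
    ‖∑ q ∈ Fintype.piFinset Q, (if Function.Injective q then
        PFs Dg Λ Fr T b E ε (addr g τ q) * ep p (UU D.toRD0 u lam (addr g τ q)) else 0)‖ ≤
      ((p : ℝ) ^ (D.r + m + (un g).card + E.card)) ^ r * ((Nat.card (H1 L Dg) : ℝ) *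
        ((Nat.card R : ℝ) ^ (un g).card * B)) := by
  have hh : (0 : ℝ) ≤ Nat.card (H1 L Dg) := Nat.cast_nonneg _
  have hM : (0 : ℝ) ≤ (Nat.card R : ℝ) ^ (un g).card := pow_nonneg (Nat.cast_nonneg _) _
  have hB' : 0 ≤ (Nat.card (H1 L Dg) : ℝ) * ((Nat.card R : ℝ) ^ (un g).card * B) :=
    mul_nonneg hh (mul_nonneg hM hB)
  refine (cells_sum Q (cfn D.toRD0 Dg T b E g) _
    ((Nat.card (H1 L Dg) : ℝ) * ((Nat.card R : ℝ) ^ (un g).card * B)) fun c => ?_).trans ?_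
  · have hQ' : ∀ i, ∀ v ∈ (Q i).filter fun x => cfn D.toRD0 Dg T b E g x = c i,
        D.Gd v ∧ v ∉ E ∧ ∀ a, v ∉ g a := fun i v hv => hQ i v (Finset.mem_filter.1 hv).1
    have key : ‖∑ q ∈ Fintype.piFinset
        (fun i => (Q i).filter fun x => cfn D.toRD0 Dg T b E g x = c i),
        (if Function.Injective q then
        PFs Dg Λ Fr T b E ε (addr g τ q) * ep p (UU D.toRD0 u lam (addr g τ q)) else 0)‖ ≤
        (Nat.card (H1 L Dg) : ℝ) * ((Nat.card R : ℝ) ^ (un g).card * B) := by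
      rw [pfs_cells hp hζ D Fr Dg Λ T b E hE ε u lam hg hG τ _ hQ', norm_mul, norm_mul, ep_norm,
        mul_one, Complex.norm_natCast]
      refine mul_le_mul_of_nonneg_left ?_ hh
      refine (norm_sum_le _ _).trans ?_
      refine (Finset.sum_le_sum fun σ hσ => h c σ hσ).trans ?_
      rw [Finset.sum_const, nsmul_eq_mul]
      refine mul_le_mul_of_nonneg_right ?_ hB
      have : Fintype R := Fintype.ofFinite R
      have h1 := card_LB (clv Dg T g) (un g) (Nat.card R) fun v _ => by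
        rw [Nat.card_eq_fintype_card]
        exact Finset.card_le_univ _
      exact_mod_cast h1
    convert key using 5
    ext y
    simp only [Finset.mem_filter]
  · refine mul_le_mul_of_nonneg_right ?_ hB'
    refine pow_le_pow_left₀ (Nat.cast_nonneg _) ?_ r
    exact cfn_card D.toRD0 E g

private theorem cl3_phase (D : RD0 K p ζ) {J : Type} [Fintype J] (u : J → Pl K → ZMod p)
    (lam : J → J → ZMod p) (g : J → Finset (Pl K)) (τ : Fin 3 → J) (a b d : Pl K) :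
    (∑ i, ff1 D u lam g (τ i) ((![a, b, d] : Fin 3 → Pl K) i) +
      ∑ i, ∑ j, (if i = j then 0 else lam (τ i) (τ j) *
        D.LL ((![a, b, d] : Fin 3 → Pl K) i) (D.pi ((![a, b, d] : Fin 3 → Pl K) j)))) =
    ff1 D u lam g (τ 0) a + ff1 D u lam g (τ 1) b + ff1 D u lam g (τ 2) d +
      (lam (τ 0) (τ 1) * D.LL a (D.pi b) + lam (τ 1) (τ 0) * D.LL b (D.pi a)) +
      (lam (τ 0) (τ 2) * D.LL a (D.pi d) + lam (τ 2) (τ 0) * D.LL d (D.pi a)) +
      (lam (τ 1) (τ 2) * D.LL b (D.pi d) + lam (τ 2) (τ 1) * D.LL d (D.pi b)) := by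
  have e0 : (![a, b, d] : Fin 3 → Pl K) 0 = a := rfl
  have e1 : (![a, b, d] : Fin 3 → Pl K) 1 = b := rfl
  have e2 : (![a, b, d] : Fin 3 → Pl K) 2 = d := rfl
  have n01 : (0 : Fin 3) ≠ 1 := by decide
  have n02 : (0 : Fin 3) ≠ 2 := by decide
  have n10 : (1 : Fin 3) ≠ 0 := by decide
  have n12 : (1 : Fin 3) ≠ 2 := by decide
  have n20 : (2 : Fin 3) ≠ 0 := by decide
  have n21 : (2 : Fin 3) ≠ 1 := by decide
  simp only [Fin.sum_univ_three, e0, e1, e2, if_true, if_neg n01, if_neg n02, if_neg n10,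
    if_neg n12, if_neg n20, if_neg n21]
  ring

theorem bxs3os [NeZero p] [Finite R] (hp : p.Prime) (hp2 : MOne p K) (hζ : IsPrimitiveRoot ζ p)
    (hz : Z2 p K) (D : RD K p ζ) (L : LDs D.toRD0 Ω) (Fr : FR L) (Dg : GP p m l w N P R) (Λ : SF D.toRD0 Ω Dg)
    (J : Type) [Fintype J] :
    ∃ (c C : ℝ) (k : ℕ), 0 < c ∧ 1 ≤ C ∧ ∀ (E : Finset (Pl K)) (b : Fin m → Kˣ),
      BS2 D.toRD0 b E → ∀ (ε : Pl K → Gal(Ω/K) → R) (T : TY N w p J) (u : J → Pl K → ZMod p)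
      (lam : J → J → ZMod p) (τ : Fin 3 → J), Th3 Dg T (τ 0) (τ 1) (τ 2) ≠ 0 →
      ∀ (g : J → Finset (Pl K)) (Tt : ℝ) (Z : Fin 3 → ℝ) (Q : Fin 3 → Finset (Pl K)),
      BxH D.toRD0 E g Tt Z Q → Z 0 ≤ Z 2 → Z 1 ≤ Z 2 →
      ‖∑ q ∈ Fintype.piFinset Q, (if Function.Injective q then
        PFs Dg Λ Fr T b E ε (addr g τ q) * ep p (UU D.toRD0 u lam (addr g τ q)) else 0)‖ ≤
        C ^ (1 + (un g).card + E.card) * (∏ i, Z i) * Tt ^ (-c) * (1 + ∑ i, Real.log (Z i)) ^ k := by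
  obtain ⟨c, C₁, k, hc, hC₁, hbox⟩ := box3 hp hp2 hζ D L Fr
  have hR : 1 ≤ Nat.card R := Nat.card_pos
  refine ⟨c, ((p : ℝ) * (Nat.card R : ℕ) * (1 + (Nat.card (H1 L Dg) : ℕ)) * C₁) ^
    (3 * ((D.r + m) + 1) + 3 + 2), k, hc, ?_, ?_⟩
  · have h1 : (1 : ℝ) ≤ p := by exact_mod_cast hp.one_lt.le
    have h2 : (1 : ℝ) ≤ (Nat.card R : ℕ) := by exact_mod_cast hR
    have h3 : (1 : ℝ) ≤ 1 + (Nat.card (H1 L Dg) : ℕ) := by
      have : (0 : ℝ) ≤ (Nat.card (H1 L Dg) : ℕ) := Nat.cast_nonneg _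
      linarith
    exact one_le_pow₀ (one_le_mul_of_one_le_of_one_le (one_le_mul_of_one_le_of_one_le
      (one_le_mul_of_one_le_of_one_le h1 h2) h3) hC₁)
  intro E b hb ε T u lam τ hth g Tt Z Q hBx hZ0 hZ1
  have hT0 : (0 : ℝ) ≤ Tt := by linarith [hBx.t2]
  have hZ2 : ∀ i, 2 ≤ Z i := fun i => hBx.t2.trans (hBx.tz i)
  have hlog : ∀ i, 0 ≤ Real.log (Z i) := fun i => Real.log_nonneg (by linarith [hZ2 i])
  have hPi : ∏ i, Z i = Z 0 * Z 1 * Z 2 := Fin.prod_univ_three Z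
  have hP0 : 0 ≤ ∏ i, Z i := Finset.prod_nonneg fun i _ => by linarith [hZ2 i]
  have hTc : 0 ≤ Tt ^ (-c) := Real.rpow_nonneg hT0 _
  have hLk : (0 : ℝ) ≤ (1 + ∑ i, Real.log (Z i)) ^ k :=
    pow_nonneg (add_nonneg zero_le_one (Finset.sum_nonneg fun i _ => hlog i)) k
  have hX : 0 ≤ (∏ i, Z i) * Tt ^ (-c) * (1 + ∑ i, Real.log (Z i)) ^ k :=
    mul_nonneg (mul_nonneg hP0 hTc) hLk
  have hQd : ∀ i, ∀ v ∈ Q i, D.Gd v ∧ v ∉ E ∧ ∀ a, v ∉ g a := fun i v hv =>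
    ⟨(hBx.qd i v hv).1, (hBx.qd i v hv).2.2.2⟩
  have hgn : ∀ v ∈ un g, D.Gd v ∧ v ∉ E := by
    intro v hv
    obtain ⟨a, -, ha⟩ := Finset.mem_biUnion.1 hv
    exact hBx.gd a v ha
  have hBse : Bse D.toRD0 b E (un g) := ⟨hgn, hb⟩
  have hC0 : (0 : ℝ) ≤ C₁ := by linarith
  have hB0 : 0 ≤ (Nat.card R : ℝ) ^ 3 * C₁ *
      ((∏ i, Z i) * Tt ^ (-c) * (1 + ∑ i, Real.log (Z i)) ^ k) :=
    mul_nonneg (mul_nonneg (pow_nonneg (Nat.cast_nonneg _) 3) hC0) hX
  have hred := bxs_red hp hζ D Fr Dg Λ T b E hb.1 ε u lam hBx.dj hBx.gd τ Q hQd _ hB0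
    (fun cc σ hσ => by
      refine (norm_sum_le _ _).trans ?_
      have hone : ∀ x ∈ Fintype.piFinset (fun i => clR Dg (T.cls (τ i))),
          ‖∑ q ∈ Fintype.piFinset (fun i => (Q i).filter fun x =>
              cfn D.toRD0 Dg T b E g x = cc i),
            VFs Dg Λ Fr b E ε (un g) σ (psv T g) x (fun i => T.psi (τ i)) q *
              ep p (∑ i, ff1 D.toRD0 u lam g (τ i) (q i) +
                ∑ i, ∑ j, (if i = j then 0 else lam (τ i) (τ j) *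
                  D.LL (q i) (D.pi (q j))))‖ ≤
            C₁ * ((∏ i, Z i) * Tt ^ (-c) * (1 + ∑ i, Real.log (Z i)) ^ k) := by
        intro x hx
        have hxi := Fintype.mem_piFinset.1 hx
        have hcell : ∀ i, Cell D.toRD0 Dg b E (un g) σ
            ((Q i).filter fun x => cfn D.toRD0 Dg T b E g x = cc i) := fun i =>
          cfn_cell D.toRD0 Dg T b E hBx.dj hσ (Q i) (hQd i) (cc i)
        have hC3 := c3fs hp hp2 hζ hz D Fr Dg Λ b E ε (un g) σ (psv T g) hBse x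
          (fun i => clr_pow Dg (hxi i)) (fun i => T.psi (τ i)) _ hcell
        have hκ : - kp3 Dg (fun i => T.psi (τ i)) (fun i => pu Dg (x i)) ≠ 0 := by
          have h1 : kp3 Dg (fun i => T.psi (τ i)) (fun i => pu Dg (x i)) =
              Th3 Dg T (τ 0) (τ 1) (τ 2) := by
            have e1 : (fun i => pu Dg (x i)) = fun i => Dg.s (T.cls (τ i)) :=
              funext fun i => clr_pu Dg (hxi i)
            rw [e1]
            rfl
          rw [h1]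
          exact neg_ne_zero.2 hth
        have htw := c3_tw hp D.toRD0 Fr _ _ _ _ _ hC3 (ff1 D.toRD0 u lam g (τ 0))
          (ff1 D.toRD0 u lam g (τ 1)) (ff1 D.toRD0 u lam g (τ 2))
          (fun a b => lam (τ 0) (τ 1) * D.LL a (D.pi b) + lam (τ 1) (τ 0) * D.LL b (D.pi a))
          (fun a d => lam (τ 0) (τ 2) * D.LL a (D.pi d) + lam (τ 2) (τ 0) * D.LL d (D.pi a))
          (fun b d => lam (τ 1) (τ 2) * D.LL b (D.pi d) + lam (τ 2) (τ 1) * D.LL d (D.pi b))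
        have hq : ∀ i, ∀ v ∈ (Q i).filter fun x => cfn D.toRD0 Dg T b E g x = cc i,
            D.Gd v ∧ Z i < nm v ∧ (nm v : ℝ) ≤ 2 * Z i := fun i v hv =>
          ⟨(hBx.qd i v (Finset.mem_filter.1 hv).1).1,
            (hBx.qd i v (Finset.mem_filter.1 hv).1).2.1,
            (hBx.qd i v (Finset.mem_filter.1 hv).1).2.2.1⟩
        have hb3 := hbox Tt (Z 0) (Z 1) (Z 2) hBx.t2 (hBx.tz 0) (hBx.tz 1) hZ0 hZ1 _ _ _
          (hq 0) (hq 1) (hq 2) (hcell 0).cls (hcell 1).cls (hcell 2).cls _ hκ _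
          (fun x' y' z' => by
            show ‖_ * _‖ ≤ 1
            rw [norm_mul, ep_norm, mul_one]
            rcases vfs_norm Fr Dg Λ b E ε (un g) σ (psv T g) x (fun i => T.psi (τ i))
              ![x', y', z'] with h0 | h0
            · rw [h0, norm_zero]
              exact zero_le_one
            · rw [h0]) htw
        rw [cl3_pi3]
        refine (le_of_eq ?_).trans (hb3.trans ?_)
        · congr 1
          refine Finset.sum_congr rfl fun a' _ => Finset.sum_congr rfl fun b' _ =>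
            Finset.sum_congr rfl fun d' _ => ?_
          rw [cl3_phase D.toRD0 u lam g τ a' b' d']
        · rw [hPi]
          have h1 : (1 + Real.log (Z 2)) ^ k ≤ (1 + ∑ i, Real.log (Z i)) ^ k := by
            refine pow_le_pow_left₀ (by linarith [hlog 2]) ?_ k
            rw [Fin.sum_univ_three]
            linarith [hlog 0, hlog 1]
          have h2 : 0 ≤ C₁ * (Z 0 * Z 1 * Z 2) * Tt ^ (-c) :=
            mul_nonneg (mul_nonneg hC0 (by rw [← hPi]; exact hP0)) hTc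
          calc C₁ * (Z 0 * Z 1 * Z 2) * Tt ^ (-c) * (1 + Real.log (Z 2)) ^ k ≤
                C₁ * (Z 0 * Z 1 * Z 2) * Tt ^ (-c) * (1 + ∑ i, Real.log (Z i)) ^ k :=
                mul_le_mul_of_nonneg_left h1 h2
            _ = C₁ * (Z 0 * Z 1 * Z 2 * Tt ^ (-c) * (1 + ∑ i, Real.log (Z i)) ^ k) := by ring
      refine (Finset.sum_le_sum hone).trans ?_
      rw [Finset.sum_const, nsmul_eq_mul]
      calc ((Fintype.piFinset fun i => clR Dg (T.cls (τ i))).card : ℝ) *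
            (C₁ * ((∏ i, Z i) * Tt ^ (-c) * (1 + ∑ i, Real.log (Z i)) ^ k)) ≤
            (Nat.card R : ℝ) ^ 3 * (C₁ * ((∏ i, Z i) * Tt ^ (-c) *
              (1 + ∑ i, Real.log (Z i)) ^ k)) :=
            mul_le_mul_of_nonneg_right (bx_labels Dg T τ) (mul_nonneg hC0 hX)
        _ = (Nat.card R : ℝ) ^ 3 * C₁ * ((∏ i, Z i) * Tt ^ (-c) *
              (1 + ∑ i, Real.log (Z i)) ^ k) := by ring)
  refine hred.trans ?_
  have hcst := bx_const p (Nat.card R) (Nat.card (H1 L Dg)) 3 (D.r + m) (un g).card E.card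
    hp.one_lt.le hR C₁ hC₁
  calc ((p : ℝ) ^ (D.r + m + (un g).card + E.card)) ^ 3 * ((Nat.card (H1 L Dg) : ℝ) *
        ((Nat.card R : ℝ) ^ (un g).card * ((Nat.card R : ℝ) ^ 3 * C₁ *
          ((∏ i, Z i) * Tt ^ (-c) * (1 + ∑ i, Real.log (Z i)) ^ k)))) =
      (((p : ℝ) ^ (D.r + m + (un g).card + E.card)) ^ 3 * ((Nat.card (H1 L Dg) : ℝ) *
        ((Nat.card R : ℝ) ^ (un g).card * ((Nat.card R : ℝ) ^ 3 * C₁)))) *
          ((∏ i, Z i) * Tt ^ (-c) * (1 + ∑ i, Real.log (Z i)) ^ k) := by ring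
    _ ≤ (((p : ℝ) * (Nat.card R : ℕ) * (1 + (Nat.card (H1 L Dg) : ℕ)) * C₁) ^
          (3 * ((D.r + m) + 1) + 3 + 2)) ^ (1 + (un g).card + E.card) *
          ((∏ i, Z i) * Tt ^ (-c) * (1 + ∑ i, Real.log (Z i)) ^ k) :=
        mul_le_mul_of_nonneg_right hcst hX
    _ = _ := by ring

/-- the exchange of the indices of the added primes -/
theorem bxs_exch [NeZero p] {D : RD K p ζ} {L : LDs D.toRD0 Ω} (Fr : FR L)
    (Dg : GP p m l w N P R) (Λ : SF D.toRD0 Ω Dg) {J : Type} [Fintype J] (T : TY N w p J) (b : Fin m → Kˣ)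
    (E : Finset (Pl K)) (ε : Pl K → Gal(Ω/K) → R) (u : J → Pl K → ZMod p)
    (lam : J → J → ZMod p) {r : ℕ} (g : J → Finset (Pl K)) (τ : Fin r → J)
    (Q : Fin r → Finset (Pl K)) (e : Equiv.Perm (Fin r)) :
    ∑ q ∈ Fintype.piFinset (Q ∘ e), (if Function.Injective q then
        PFs Dg Λ Fr T b E ε (addr g (τ ∘ e) q) * ep p (UU D.toRD0 u lam (addr g (τ ∘ e) q)) else 0) =
      ∑ q ∈ Fintype.piFinset Q, (if Function.Injective q then
        PFs Dg Λ Fr T b E ε (addr g τ q) * ep p (UU D.toRD0 u lam (addr g τ q)) else 0) := by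
  rw [pi_perm]
  refine Finset.sum_congr rfl fun q _ => ?_
  rw [addr_perm]
  have h1 : Function.Injective (q ∘ e) ↔ Function.Injective q :=
    ⟨fun h => by
      have h2 := h.comp e.symm.injective
      rwa [Function.comp_assoc, Equiv.self_comp_symm, Function.comp_id] at h2,
      fun h => h.comp e.injective⟩
  by_cases h : Function.Injective q
  · rw [if_pos h, if_pos (h1.2 h)]
  · rw [if_neg h, if_neg fun h' => h (h1.1 h')]

theorem bxs3s [NeZero p] [Finite R] (hp : p.Prime) (hp2 : MOne p K) (hζ : IsPrimitiveRoot ζ p)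
    (hz : Z2 p K) (D : RD K p ζ) (L : LDs D.toRD0 Ω) (Fr : FR L) (Dg : GP p m l w N P R) (Λ : SF D.toRD0 Ω Dg)
    (J : Type) [Fintype J] :
    ∃ (c C : ℝ) (k : ℕ), 0 < c ∧ 1 ≤ C ∧ ∀ (E : Finset (Pl K)) (b : Fin m → Kˣ),
      BS2 D.toRD0 b E → ∀ (ε : Pl K → Gal(Ω/K) → R) (T : TY N w p J) (u : J → Pl K → ZMod p)
      (lam : J → J → ZMod p) (τ : Fin 3 → J), Th3 Dg T (τ 0) (τ 1) (τ 2) ≠ 0 →
      ∀ (g : J → Finset (Pl K)) (Tt : ℝ) (Z : Fin 3 → ℝ) (Q : Fin 3 → Finset (Pl K)),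
      BxH D.toRD0 E g Tt Z Q →
      ‖∑ q ∈ Fintype.piFinset Q, (if Function.Injective q then
        PFs Dg Λ Fr T b E ε (addr g τ q) * ep p (UU D.toRD0 u lam (addr g τ q)) else 0)‖ ≤
        C ^ (1 + (un g).card + E.card) * (∏ i, Z i) * Tt ^ (-c) * (1 + ∑ i, Real.log (Z i)) ^ k := by
  obtain ⟨c, C, k, hc, hC, h⟩ := bxs3os hp hp2 hζ hz D L Fr Dg Λ J
  refine ⟨c, C, k, hc, hC, ?_⟩
  intro E b hb ε T u lam τ hth g Tt Z Q hBx
  have key : ∀ e : Equiv.Perm (Fin 3), Z (e 0) ≤ Z (e 2) → Z (e 1) ≤ Z (e 2) →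
      Th3 Dg T (τ (e 0)) (τ (e 1)) (τ (e 2)) ≠ 0 →
      ‖∑ q ∈ Fintype.piFinset Q, (if Function.Injective q then
        PFs Dg Λ Fr T b E ε (addr g τ q) * ep p (UU D.toRD0 u lam (addr g τ q)) else 0)‖ ≤
        C ^ (1 + (un g).card + E.card) * (∏ i, Z i) * Tt ^ (-c) *
          (1 + ∑ i, Real.log (Z i)) ^ k := by
    intro e h1 h2 h3
    have h4 := h E b hb ε T u lam (τ ∘ e) h3 g Tt (Z ∘ e) (Q ∘ e) (hBx.exch e) h1 h2
    rw [bxs_exch Fr Dg Λ T b E ε u lam g τ Q e] at h4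
    have h5 : ∏ i, (Z ∘ e) i = ∏ i, Z i := Equiv.prod_comp e Z
    have h6 : ∑ i, Real.log ((Z ∘ e) i) = ∑ i, Real.log (Z i) :=
      Equiv.sum_comp e fun i => Real.log (Z i)
    rwa [h5, h6] at h4
  have hr1 : Th3 Dg T (τ 1) (τ 2) (τ 0) = Th3 Dg T (τ 0) (τ 1) (τ 2) := by
    unfold Th3
    ring
  have hr2 : Th3 Dg T (τ 2) (τ 0) (τ 1) = Th3 Dg T (τ 0) (τ 1) (τ 2) := by
    unfold Th3
    ring
  rcases le_total (Z 0) (Z 1) with h01 | h01
  · rcases le_total (Z 1) (Z 2) with h12 | h12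
    · exact key 1 (h01.trans h12) h12 hth
    · refine key (finRotate 3).symm ?_ ?_ ?_
      · exact h12
      · exact h01
      · show Th3 Dg T (τ 2) (τ 0) (τ 1) ≠ 0
        rw [hr2]
        exact hth
  · rcases le_total (Z 0) (Z 2) with h02 | h02
    · exact key 1 h02 (h01.trans h02) hth
    · refine key (finRotate 3) ?_ ?_ ?_
      · exact h01
      · exact h02
      · show Th3 Dg T (τ 1) (τ 2) (τ 0) ≠ 0
        rw [hr1]
        exact hth

end H51.CUD
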