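import Pool.Agent.H51.CUB.FNA
import Pool.Agent.H51.CUD.DL3

/-!
# [H51 CUD DFA] From box sums to `TSV`

As in `H51/CUB/FNA.lean` (read its header), with the phase at S0.
-/

set_option autoImplicit false

open scoped NumberField
open IsDedekindDomain
open scoped Classical

noncomputable section

namespace H51.CUD

open H63.MA H38.BB H38.BG H57.PC H77.PC3 H57.BRA H51.CUB

variable {K : Type} [Field K] [NumberField K] {p : ℕ} {ζ : K} {Ω : Type} [Field Ω] [Algebra K Ω]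
  [IsAlgClosure K Ω] {m l w N : ℕ} {P R : Type} [Group P] [Group R]

private theorem fna_bd {c C M A x s PZ : ℝ} {k r n u e : ℕ} (hC : 1 ≤ C) (hM : 1 ≤ M)
    (hx : 0 ≤ x) (hn : (n : ℝ) ≤ A * x) (hu : (u : ℝ) ≤ A * x) (he : (e : ℝ) ≤ 2 * x ^ 4)
    (hs0 : 0 ≤ s) (hs : s ≤ 2 * r * Real.exp x) (hPZ : 0 ≤ PZ) :
    M ^ (n + r) * (C ^ (1 + u + e) * PZ * (Real.exp (x ^ 5) / 2) ^ (-c) * (1 + s) ^ k) ≤
      (M ^ r * C * 2 ^ c * (1 + 2 * (r : ℝ)) ^ k) *
        Real.exp (-c * x ^ 5 + (2 * Real.log C) * x ^ 4 + (A * Real.log (M * C) + k) * x) * PZ := by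
  have hC0 : 0 < C := by linarith
  have hM0 : 0 < M := by linarith
  have hlC : 0 ≤ Real.log C := Real.log_nonneg hC
  have hlM : 0 ≤ Real.log M := Real.log_nonneg hM
  have h1 : M ^ (n + r) ≤ M ^ r * Real.exp (A * x * Real.log M) := by
    rw [pow_add, mul_comm]
    apply mul_le_mul_of_nonneg_left _ (by positivity)
    rw [← Real.rpow_natCast M n, Real.rpow_def_of_pos hM0]
    apply Real.exp_le_exp.2
    rw [mul_comm]
    exact mul_le_mul_of_nonneg_right hn hlM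
  have h2 : C ^ (1 + u + e) ≤ C * Real.exp ((A * x + 2 * x ^ 4) * Real.log C) := by
    rw [add_assoc, pow_add, pow_one]
    apply mul_le_mul_of_nonneg_left _ hC0.le
    rw [← Real.rpow_natCast C (u + e), Real.rpow_def_of_pos hC0]
    apply Real.exp_le_exp.2
    rw [mul_comm]
    apply mul_le_mul_of_nonneg_right _ hlC
    push_cast
    linarith
  have h3 : (Real.exp (x ^ 5) / 2) ^ (-c) = 2 ^ c * Real.exp (-c * x ^ 5) := by
    rw [Real.div_rpow (Real.exp_pos _).le (by norm_num), Real.rpow_neg (by norm_num : (0 : ℝ) ≤ 2),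
      div_inv_eq_mul, ← Real.exp_mul, mul_comm]
    congr 2
    ring
  have h4 : (1 + s) ^ k ≤ (1 + 2 * (r : ℝ)) ^ k * Real.exp (k * x) := by
    rw [Real.exp_nat_mul, ← mul_pow]
    apply pow_le_pow_left₀ (by linarith)
    have : 1 ≤ Real.exp x := Real.one_le_exp hx
    nlinarith
  have hE : Real.exp (-c * x ^ 5 + (2 * Real.log C) * x ^ 4 + (A * Real.log (M * C) + k) * x) =
      Real.exp (A * x * Real.log M) * Real.exp ((A * x + 2 * x ^ 4) * Real.log C) *
        Real.exp (-c * x ^ 5) * Real.exp (k * x) := by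
    rw [← Real.exp_add, ← Real.exp_add, ← Real.exp_add, Real.log_mul hM0.ne' hC0.ne']
    congr 1
    ring
  rw [h3, hE]
  have e1 : 0 < Real.exp (A * x * Real.log M) := Real.exp_pos _
  have e2 : 0 < Real.exp ((A * x + 2 * x ^ 4) * Real.log C) := Real.exp_pos _
  have e3 : 0 < Real.exp (-c * x ^ 5) := Real.exp_pos _
  have e4 : 0 < Real.exp (k * x) := Real.exp_pos _
  have h2c : (0 : ℝ) < 2 ^ c := by positivity
  calc M ^ (n + r) * (C ^ (1 + u + e) * PZ * (2 ^ c * Real.exp (-c * x ^ 5)) * (1 + s) ^ k)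
      ≤ (M ^ r * Real.exp (A * x * Real.log M)) *
        ((C * Real.exp ((A * x + 2 * x ^ 4) * Real.log C)) * PZ * (2 ^ c * Real.exp (-c * x ^ 5)) *
          ((1 + 2 * (r : ℝ)) ^ k * Real.exp (k * x))) := by gcongr
    _ = _ := by ring

private theorem fna_spt {J : Type} [Fintype J] {r : ℕ} (g : J → Finset (Pl K)) (τ : Fin r → J)
    (q : Fin r → Pl K) : spt (addr g τ q) = spt g ∪ Finset.univ.image τ := by
  ext a
  rw [spt_addr, Finset.mem_union, Finset.mem_image]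
  simp only [Finset.mem_univ, true_and]

omit [Algebra K Ω] [IsAlgClosure K Ω] [Field Ω] in
private theorem fna_clf {J : Type} [Fintype J] (T : TY N w p J) (g : J → Finset (Pl K))
    (i : Fin N) : clf T g i ≠ ∅ ↔ ∃ a ∈ spt g, T.cls a = i := by
  unfold clf spt
  rw [← Finset.nonempty_iff_ne_empty]
  constructor
  · rintro ⟨v, hv⟩
    obtain ⟨a, ha, hva⟩ := Finset.mem_biUnion.1 hv
    exact ⟨a, Finset.mem_filter.2 ⟨Finset.mem_univ _, Finset.ne_empty_of_mem hva⟩,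
      (Finset.mem_filter.1 ha).2⟩
  · rintro ⟨a, ha, hi⟩
    obtain ⟨v, hv⟩ := Finset.nonempty_iff_ne_empty.2 (Finset.mem_filter.1 ha).2
    exact ⟨v, Finset.mem_biUnion.2 ⟨a, Finset.mem_filter.2 ⟨Finset.mem_univ _, hi⟩, hv⟩⟩

private theorem fna_spr [NeZero p] {J : Type} [Fintype J] (c : CR p m N) (T : TY N w p J)
    (b : Fin m → Kˣ) (g g' : J → Finset (Pl K)) (h : spt g = spt g')
    (h1 : SpR c b (clf T g)) : SpR c b (clf T g') := by
  intro θ hθ
  rcases h1 θ hθ with ⟨i, hi, hd⟩ | h2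
  · rw [fna_clf, h, ← fna_clf] at hi
    exact Or.inl ⟨i, hi, hd⟩
  · exact Or.inr h2

private theorem fna_h1 [NeZero p] (hp : p.Prime) (hζ : IsPrimitiveRoot ζ p) (D : RD K p ζ)
    (L : LDs D.toRD0 Ω) (Fr : FR L) (Dg : GP p m l w N P R) :
    (1 : ℝ) ≤ (Nat.card (H1 L Dg) : ℝ) := by
  have h1 := h1_finite hp hζ D L Fr Dg
  have h2 : (1 : Gal(Ω/K) →* R) ∈ H1 L Dg := by
    refine ⟨⟨⊥, inferInstance, ?_⟩, fun g => ?_, fun v _ τ _ => rfl⟩
    · intro g _
      rfl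
    · rw [MonoidHom.one_apply, map_one]
  have : Finite (H1 L Dg) := h1.to_subtype
  have : Nonempty (H1 L Dg) := ⟨⟨1, h2⟩⟩
  exact_mod_cast Nat.card_pos

theorem fnas [NeZero p] [Finite R] (hp : p.Prime) (hζ : IsPrimitiveRoot ζ p) (D : RD K p ζ)
    (L : LDs D.toRD0 Ω) (Fr : FR L) (Dg : GP p m l w N P R) (Λ : SF D.toRD0 Ω Dg) (J : Type) [Fintype J] (r : ℕ)
    (M A c C : ℝ) (k : ℕ) (hc : 0 < c) (hC : 1 ≤ C) :
    ∃ C' A' Y₀ : ℝ, 0 < C' ∧ 0 < A' ∧ 3 ≤ Y₀ ∧ ∀ Y : ℝ, Y₀ ≤ Y → ∀ (E : Finset (Pl K))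
      (b : Fin m → Kˣ), BS2 D.toRD0 b E → nr E ≤ Real.exp (Real.log (Real.log Y) ^ 4) →
      ∀ (ε : Pl K → Gal(Ω/K) → R) (T : TY N w p J), (∀ a, 0 ≤ T.wt a ∧ T.wt a ≤ M) →
      ∀ (u : J → Pl K → ZMod p) (lam : J → J → ZMod p) (ω : Finset J → ℂ), (∀ S, ‖ω S‖ ≤ 1) →
      ∀ τ : Fin r → J, Function.Injective τ → (∀ S, ω S ≠ 0 → ∀ i, τ i ∈ S) →
      (∀ i, Real.exp (Real.log (Real.log Y) ^ 5) ≤ T.lo (τ i)) →
      (∀ g' : J → Finset (Pl K), (∀ a, ∀ v ∈ g' a, T.lo a < nm v ∧ (nm v : ℝ) ≤ T.hi a) →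
        ∏ a, nr (g' a) ≤ 2 * Y → ((∑ a, (g' a).card : ℕ) : ℝ) ≤ A' * Real.log (Real.log Y) →
        ω (spt g' ∪ Finset.univ.image τ) ≠ 0 →
        ∀ (Z : Fin r → ℝ) (Q : Fin r → Finset (Pl K)),
          BxH D.toRD0 E g' (Real.exp (Real.log (Real.log Y) ^ 5) / 2) Z Q →
          (∀ i, T.lo (τ i) ≤ 2 * Z i) →
          (∀ q ∈ Fintype.piFinset Q, SpR Dg.cr b (clf T (addr g' τ q))) →
          ‖∑ q ∈ Fintype.piFinset Q, (if Function.Injective q then
            PFs Dg Λ Fr T b E ε (addr g' τ q) * ep p (UU D.toRD0 u lam (addr g' τ q)) else 0)‖ ≤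
            C ^ (1 + (un g').card + E.card) * (∏ i, Z i) *
              (Real.exp (Real.log (Real.log Y) ^ 5) / 2) ^ (-c) * (1 + ∑ i, Real.log (Z i)) ^ k) →
      ‖TSV Dg Λ Fr T b E ε u lam ω Y‖ ≤ C' * Y * Real.log Y ^ (-A) := by
  obtain ⟨M', hM'⟩ : ∃ M' : ℝ, M' = max M 1 := ⟨_, rfl⟩
  have hM1 : 1 ≤ M' := by
    rw [hM']
    exact le_max_right _ _
  have hMM : M ≤ M' := by
    rw [hM']
    exact le_max_left _ _
  obtain ⟨h, hh⟩ : ∃ h : ℝ, h = (Nat.card (H1 L Dg) : ℝ) := ⟨_, rfl⟩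
  have hh1 : 1 ≤ h := by
    rw [hh]
    exact fna_h1 hp hζ D L Fr Dg
  have hh0 : 0 < h := by linarith
  obtain ⟨ρ, hρ⟩ : ∃ ρ : ℝ, ρ = (Nat.card R : ℝ) := ⟨_, rfl⟩
  have hρ1 : 1 ≤ ρ := by
    rw [hρ]
    exact_mod_cast Nat.card_pos
  have hMρ : 1 ≤ M' * ρ := one_le_mul_of_one_le_of_one_le hM1 hρ1
  obtain ⟨C₁, A', Y₁, hC₁, hA', hY₁, H₁⟩ := sumr D.toRD0 J r (M' * ρ) A hMρ
  obtain ⟨C₂, hC₂, H₂⟩ := exp_poly c (2 * Real.log C) (A' * Real.log (M' * C) + k + A' + A) hc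
  obtain ⟨K0, hK0⟩ : ∃ K0 : ℝ, K0 = M' ^ r * C * 2 ^ c * (1 + 2 * (r : ℝ)) ^ k := ⟨_, rfl⟩
  have hC0 : 0 < C := by linarith
  have hM0 : 0 < M' := by linarith
  have hK00 : 0 < K0 := by
    rw [hK0]
    positivity
  refine ⟨h * C₁ * (K0 * C₂ + 1), A', max Y₁ (Real.exp (Real.exp 2)), by positivity, hA',
    hY₁.trans (le_max_left _ _), ?_⟩
  intro Y hY E b hbs hE ε T hwt u lam ω hω τ hτ hωτ hlo hbox
  have hY1 : Y₁ ≤ Y := (le_max_left _ _).trans hY
  have hY2 : Real.exp (Real.exp 2) ≤ Y := (le_max_right _ _).trans hY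
  have hY0 : 0 < Y := (Real.exp_pos _).trans_le hY2
  have hL2 : Real.exp 2 ≤ Real.log Y := (Real.le_log_iff_exp_le hY0).2 hY2
  have hL0 : 0 < Real.log Y := (Real.exp_pos _).trans_le hL2
  obtain ⟨x, hx⟩ : ∃ x : ℝ, x = Real.log (Real.log Y) := ⟨_, rfl⟩
  have hx2 : 2 ≤ x := by
    rw [hx]
    exact (Real.le_log_iff_exp_le hL0).2 hL2
  have hx0 : 0 ≤ x := by linarith
  have hLx : Real.log Y = Real.exp x := by
    rw [hx, Real.exp_log hL0]
  have hL1 : 1 ≤ Real.log Y := by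
    rw [hLx]
    exact Real.one_le_exp hx0
  rw [← hx] at hE hlo hbox
  have hcardE : (E.card : ℝ) ≤ 2 * x ^ 4 := by
    have h1 := (two_pow_le_nr E).trans hE
    have h2 := Real.log_le_log (by positivity) h1
    rw [Real.log_pow, Real.log_exp] at h2
    have h3 := Real.log_two_gt_d9
    have h4 : (0 : ℝ) ≤ (E.card : ℝ) := Nat.cast_nonneg _
    nlinarith
  obtain ⟨ε₀, hε₀⟩ : ∃ ε₀ : ℝ, ε₀ = K0 *
    Real.exp (-c * x ^ 5 + (2 * Real.log C) * x ^ 4 + (A' * Real.log (M' * C) + k) * x) := ⟨_, rfl⟩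
  have hε0 : 0 ≤ ε₀ := by
    rw [hε₀]
    positivity
  -- the summand
  obtain ⟨G, hG⟩ : ∃ G : (J → Finset (Pl K)) → ℂ, G = fun g =>
    ω (spt g) * ((∏ a, T.wt a ^ (g a).card : ℝ) : ℂ) * (PFs Dg Λ Fr T b E ε g *
      ep p (UU D.toRD0 u lam g)) := ⟨_, rfl⟩
  obtain ⟨H, hH⟩ : ∃ H : (J → Finset (Pl K)) → ℂ, H = fun g =>
    if Dj g ∧ (∀ a, Disjoint (g a) E) ∧
      (∀ a, ∀ v ∈ g a, D.toRD0.Gd v ∧ T.lo a < nm v ∧ (nm v : ℝ) ≤ T.hi a) ∧
      SpR Dg.cr b (clf T g) then (h : ℂ)⁻¹ * G g else 0 := ⟨_, rfl⟩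
  have hwle : ∀ g : J → Finset (Pl K),
      |∏ a, T.wt a ^ (g a).card| ≤ M' ^ (∑ a, (g a).card) := by
    intro g
    rw [abs_of_nonneg (Finset.prod_nonneg fun a _ => pow_nonneg (hwt a).1 _),
      ← Finset.prod_pow_eq_pow_sum]
    exact Finset.prod_le_prod (fun a _ => pow_nonneg (hwt a).1 _) fun a _ =>
      pow_le_pow_left₀ (hwt a).1 ((hwt a).2.trans hMM) _
  have hHn : ∀ g, ‖H g‖ ≤ (M' * ρ) ^ (∑ a, (g a).card) := by
    intro g
    rw [hH]
    dsimp only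
    split_ifs with hg
    · obtain ⟨g1, g2, g3, g4⟩ := hg
      rw [hG]
      dsimp only
      rw [norm_mul, norm_mul, norm_mul, norm_mul, ep_norm, mul_one, norm_inv, Complex.norm_real,
        Complex.norm_real, Real.norm_eq_abs, Real.norm_eq_abs, abs_of_pos hh0]
      have h1 := pfs_le hp hζ D Fr Dg Λ T b E hbs.1 ε g1 (fun a v hv => (g3 a v hv).1.1)
      rw [← hh, ← hρ] at h1
      have h2 := hω (spt g)
      have h3 := hwle g
      calc h⁻¹ * (‖ω (spt g)‖ * |∏ a, T.wt a ^ (g a).card| * ‖PFs Dg Λ Fr T b E ε g‖)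
          ≤ h⁻¹ * (1 * M' ^ (∑ a, (g a).card) * (h * ρ ^ (∑ a, (g a).card))) := by gcongr
        _ = (M' * ρ) ^ (∑ a, (g a).card) := by
            rw [mul_pow]
            field_simp
    · rw [norm_zero]
      positivity
  have hbx : ∀ g' : J → Finset (Pl K), Dj g' → (∀ a, Disjoint (g' a) E) →
        (∀ a, ∀ v ∈ g' a, D.toRD0.Gd v ∧ T.lo a < nm v ∧ (nm v : ℝ) ≤ T.hi a) →
        ∏ a, nr (g' a) ≤ 2 * Y →
        ((∑ a, (g' a).card : ℕ) : ℝ) ≤ A' * x →
        ∀ (Z : Fin r → ℝ) (Q : Fin r → Finset (Pl K)), (∀ i, 1 ≤ Z i) →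
          ∏ i, Z i ≤ 2 * Y / ∏ a, nr (g' a) →
          (∀ i, ∀ v ∈ Q i, D.toRD0.Gd v ∧ Z i < nm v ∧ (nm v : ℝ) ≤ 2 * Z i ∧
            T.lo (τ i) < nm v ∧
            (nm v : ℝ) ≤ T.hi (τ i) ∧ v ∉ E ∧ ∀ a, v ∉ g' a) →
          ‖∑ q ∈ Fintype.piFinset Q, if Function.Injective q then H (addr g' τ q) else 0‖ ≤
            ε₀ * ∏ i, Z i := by
    intro g' hdj hdE hw hN hcard Z Q hZ1 hZ hQ
    have hPZ : 0 ≤ ∏ i, Z i := Finset.prod_nonneg fun i _ => by linarith [hZ1 i]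
    have hR0 : 0 ≤ ε₀ * ∏ i, Z i := mul_nonneg hε0 hPZ
    obtain ⟨S, hS⟩ : ∃ S : Finset J, S = spt g' ∪ Finset.univ.image τ := ⟨_, rfl⟩
    have hSq : ∀ q, spt (addr g' τ q) = S := fun q => by
      rw [hS]
      exact fna_spt g' τ q
    obtain ⟨W, hW⟩ : ∃ W : ℝ, W = (∏ a, T.wt a ^ (g' a).card) * ∏ i, T.wt (τ i) := ⟨_, rfl⟩
    have hterm : ∀ q ∈ Fintype.piFinset Q, (if Function.Injective q then H (addr g' τ q) else 0) =
        if Function.Injective q then (if SpR Dg.cr b (clf T (addr g' τ q)) then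
          ((h : ℂ)⁻¹ * (ω S * (W : ℂ))) * (PFs Dg Λ Fr T b E ε (addr g' τ q) *
            ep p (UU D.toRD0 u lam (addr g' τ q))) else 0) else 0 := by
      intro q hq
      rw [Fintype.mem_piFinset] at hq
      by_cases hi : Function.Injective q
      · rw [if_pos hi, if_pos hi]
        have ho : ∀ i a, q i ∉ g' a := fun i a => (hQ i _ (hq i)).2.2.2.2.2.2 a
        rw [hH]
        dsimp only
        by_cases hs : SpR Dg.cr b (clf T (addr g' τ q))
        · rw [if_pos hs, if_pos, hG]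
          · dsimp only
            rw [hSq q, prod_addr τ hi ho, ← hW]
            ring
          · refine ⟨addr_dj τ hdj hi ho, fun a => ?_, fun a v hv => ?_, hs⟩
            · rw [Finset.disjoint_left]
              intro v hv hvE
              rcases (mem_addr _ _ _ _ _).1 hv with hv | ⟨i, -, rfl⟩
              · exact Finset.disjoint_left.1 (hdE a) hv hvE
              · exact (hQ i _ (hq i)).2.2.2.2.2.1 hvE
            · rcases (mem_addr _ _ _ _ _).1 hv with hv | ⟨i, rfl, rfl⟩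
              · exact hw a v hv
              · obtain ⟨h1, h2, h3, h4, h5, h6, h7⟩ := hQ i _ (hq i)
                exact ⟨h1, h4, h5⟩
        · rw [if_neg hs, if_neg (fun h => hs h.2.2.2)]
      · rw [if_neg hi, if_neg hi]
    rw [Finset.sum_congr rfl hterm]
    by_cases hem : ∃ i, Q i = ∅
    · obtain ⟨i, hi⟩ := hem
      have : Fintype.piFinset Q = ∅ := by
        rw [Finset.eq_empty_iff_forall_notMem]
        intro q hq
        have h1 := Fintype.mem_piFinset.1 hq i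
        rw [hi] at h1
        exact absurd h1 (Finset.notMem_empty _)
      rw [this, Finset.sum_empty, norm_zero]
      exact hR0
    have hne : ∀ i, ∃ v, v ∈ Q i := by
      intro i
      by_contra h1
      push Not at h1
      exact hem ⟨i, Finset.eq_empty_iff_forall_notMem.2 h1⟩
    by_cases hωS : ω S = 0
    · rw [Finset.sum_eq_zero, norm_zero]
      · exact hR0
      · intro q _
        rw [hωS]
        simp
    by_cases hsp : ∀ q ∈ Fintype.piFinset Q, SpR Dg.cr b (clf T (addr g' τ q))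
    swap
    · push Not at hsp
      obtain ⟨q₀, -, hq₀⟩ := hsp
      rw [Finset.sum_eq_zero, norm_zero]
      · exact hR0
      · intro q _
        split_ifs with h1 h2
        · exact absurd (fna_spr Dg.cr T b (addr g' τ q) (addr g' τ q₀)
            ((hSq q).trans (hSq q₀).symm) h2) hq₀
        · rfl
        · rfl
    have hterm2 : ∀ q ∈ Fintype.piFinset Q, (if Function.Injective q then
        (if SpR Dg.cr b (clf T (addr g' τ q)) then
          ((h : ℂ)⁻¹ * (ω S * (W : ℂ))) * (PFs Dg Λ Fr T b E ε (addr g' τ q) *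
            ep p (UU D.toRD0 u lam (addr g' τ q))) else 0) else 0) =
        ((h : ℂ)⁻¹ * (ω S * (W : ℂ))) * (if Function.Injective q then
          PFs Dg Λ Fr T b E ε (addr g' τ q) * ep p (UU D.toRD0 u lam (addr g' τ q)) else 0) := by
      intro q hq
      rw [if_pos (hsp q hq)]
      split_ifs
      · rfl
      · rw [mul_zero]
    rw [Finset.sum_congr rfl hterm2, ← Finset.mul_sum, norm_mul]
    have hloZ : ∀ i, T.lo (τ i) ≤ 2 * Z i := by
      intro i
      obtain ⟨v, hv⟩ := hne i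
      obtain ⟨h1, h2, h3, h4, -⟩ := hQ i v hv
      linarith
    have hBx : BxH D.toRD0 E g' (Real.exp (x ^ 5) / 2) Z Q := by
      refine ⟨hdj, fun a v hv => ⟨(hw a v hv).1, Finset.disjoint_left.1 (hdE a) hv⟩, ?_, ?_, ?_⟩
      · have h1 : (4 : ℝ) ≤ x ^ 5 + 1 := by
          have h2 : (2 : ℝ) ^ 5 ≤ x ^ 5 := pow_le_pow_left₀ (by norm_num) hx2 5
          linarith
        have h2 := Real.add_one_le_exp (x ^ 5)
        linarith
      · intro i
        have h1 := hlo i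
        have h2 := hloZ i
        linarith
      · intro i v hv
        obtain ⟨h1, h2, h3, h4, h5, h6, h7⟩ := hQ i v hv
        exact ⟨h1, h2, h3, h6, h7⟩
    have hkey := hbox g' (fun a v hv => (hw a v hv).2) hN hcard (by rw [← hS]; exact hωS) Z Q hBx
      hloZ hsp
    have hWn : ‖(h : ℂ)⁻¹ * (ω S * (W : ℂ))‖ ≤ M' ^ ((∑ a, (g' a).card) + r) := by
      rw [norm_mul, norm_mul, norm_inv, Complex.norm_real, Complex.norm_real, Real.norm_eq_abs,
        Real.norm_eq_abs, abs_of_pos hh0]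
      have h1 : |W| ≤ M' ^ ((∑ a, (g' a).card) + r) := by
        rw [hW, abs_mul, pow_add]
        refine mul_le_mul (hwle g') ?_ (abs_nonneg _) (by positivity)
        rw [abs_of_nonneg (Finset.prod_nonneg fun i _ => (hwt _).1)]
        calc ∏ i, T.wt (τ i) ≤ ∏ _i : Fin r, M' :=
              Finset.prod_le_prod (fun i _ => (hwt _).1) fun i _ => (hwt _).2.trans hMM
          _ = M' ^ r := by rw [Finset.prod_const, Finset.card_univ, Fintype.card_fin]
      have h2 : h⁻¹ ≤ 1 := inv_le_one_of_one_le₀ hh1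
      have h3 := hω S
      calc h⁻¹ * (‖ω S‖ * |W|) ≤ 1 * (1 * M' ^ ((∑ a, (g' a).card) + r)) := by
            gcongr
        _ = _ := by ring
    have hun : (un g').card = ∑ a, (g' a).card := by
      unfold CUB.un
      rw [Finset.card_biUnion (fun a _ a' _ h => hdj a a' h)]
    have hlogZ : ∀ i, Real.log (Z i) ≤ 2 * Real.exp x := by
      intro i
      have hN1 : 1 ≤ ∏ a, nr (g' a) := by
        calc (1 : ℝ) = ∏ _a : J, (1 : ℝ) := by rw [Finset.prod_const_one]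
          _ ≤ ∏ a, nr (g' a) := Finset.prod_le_prod (fun _ _ => zero_le_one)
            fun a _ => one_le_nr _
      have h1 : Z i ≤ ∏ i, Z i := by
        rw [← Finset.mul_prod_erase Finset.univ Z (Finset.mem_univ i)]
        apply le_mul_of_one_le_right (by linarith [hZ1 i])
        calc (1 : ℝ) = ∏ _a ∈ Finset.univ.erase i, (1 : ℝ) := by rw [Finset.prod_const_one]
          _ ≤ _ := Finset.prod_le_prod (fun _ _ => zero_le_one) fun j _ => hZ1 j
      have h2 : Z i ≤ 2 * Y := h1.trans (hZ.trans (div_le_self (by linarith) hN1))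
      have h3 : Real.log (Z i) ≤ Real.log (2 * Y) := Real.log_le_log (by linarith [hZ1 i]) h2
      have h4 : Real.log (2 * Y) ≤ 2 * Real.log Y := by
        rw [Real.log_mul (by norm_num) hY0.ne']
        have := Real.log_two_lt_d9
        linarith
      rw [← hLx]
      exact h3.trans h4
    have hs0 : 0 ≤ ∑ i, Real.log (Z i) := Finset.sum_nonneg fun i _ => Real.log_nonneg (hZ1 i)
    have hs : ∑ i, Real.log (Z i) ≤ 2 * r * Real.exp x := by
      refine (Finset.sum_le_sum fun i _ => hlogZ i).trans (le_of_eq ?_)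
      rw [Finset.sum_const, Finset.card_univ, Fintype.card_fin, nsmul_eq_mul]
      ring
    have hfin := fna_bd (c := c) (C := C) (M := M') (A := A') (x := x)
      (s := ∑ i, Real.log (Z i)) (PZ := ∏ i, Z i) (k := k) (r := r) (n := ∑ a, (g' a).card)
      (u := (un g').card) (e := E.card) hC hM1 hx0 hcard (by rw [hun]; exact hcard) hcardE hs0 hs
      hPZ
    rw [hε₀, hK0]
    refine le_trans (mul_le_mul hWn hkey (norm_nonneg _) (by positivity)) hfin
  have hmain := H₁ Y hY1 E T.lo T.hi τ hτ H hHn ε₀ hε0 (by rw [← hx]; exact hbx)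
  have hTSU : TSV Dg Λ Fr T b E ε u lam ω Y = (h : ℂ) *
      ∑ g ∈ Fintype.piFinset (fun _ : J => GF D.toRD0 (2 * Y)),
          if Dj g ∧ (∀ a, Disjoint (g a) E) ∧ ∏ a, nr (g a) ≤ 2 * Y ∧
              (∀ a, ∀ v ∈ g a, T.lo a < nm v ∧ (nm v : ℝ) ≤ T.hi a) ∧ ∀ i, g (τ i) ≠ ∅ then
            ((wl ((∏ a, nr (g a)) / Y) : ℝ) : ℂ) * H g else 0 := by
    unfold TSV
    rw [Finset.mul_sum]
    refine Finset.sum_congr rfl fun g hg => ?_
    rw [Fintype.mem_piFinset] at hg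
    have hgd : ∀ a, ∀ v ∈ g a, D.toRD0.Gd v := fun a => (Finset.mem_filter.1 (hg a)).2
    have hhc : (h : ℂ) ≠ 0 := by
      exact_mod_cast hh0.ne'
    by_cases hω0 : ω (spt g) = 0
    · have hH0 : H g = 0 := by
        rw [hH, hG]
        dsimp only
        rw [hω0]
        simp
      rw [hω0, hH0]
      simp
    have hne : ∀ i, g (τ i) ≠ ∅ := by
      intro i
      have h1 := hωτ (spt g) hω0 i
      unfold spt at h1
      exact (Finset.mem_filter.1 h1).2
    by_cases hc1 : Wd D.toRD0 T E Y g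
    · obtain ⟨w1, w2, w3, w4⟩ := hc1
      rw [if_pos (⟨w1, w2, w3, w4, hne⟩ : Dj g ∧ (∀ a, Disjoint (g a) E) ∧
        ∏ a, nr (g a) ≤ 2 * Y ∧
              (∀ a, ∀ v ∈ g a, T.lo a < nm v ∧ (nm v : ℝ) ≤ T.hi a) ∧ ∀ i, g (τ i) ≠ ∅)]
      rw [hH]
      dsimp only
      by_cases hs : SpR Dg.cr b (clf T g)
      · rw [if_pos ⟨⟨w1, w2, w3, w4⟩, hs⟩, if_pos ⟨w1, w2, fun a v hv =>
          ⟨hgd a v hv, w4 a v hv⟩, hs⟩, hG]
        dsimp only
        field_simp
      · rw [if_neg (fun h => hs h.2), if_neg (fun h => hs h.2.2.2), mul_zero, mul_zero]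
    · rw [if_neg (fun h => hc1 h.1), if_neg (fun h => hc1 ⟨h.1, h.2.1, h.2.2.1, h.2.2.2.1⟩),
        mul_zero]
  rw [hTSU, norm_mul, Complex.norm_real, Real.norm_eq_abs, abs_of_pos hh0]
  have hεA : ε₀ * Real.log Y ^ A' ≤ K0 * C₂ * Real.log Y ^ (-A) := by
    have h1 := H₂ x hx0
    have e1 : Real.log Y ^ A' = Real.exp (A' * x) := by
      rw [hLx, ← Real.exp_mul, mul_comm]
    have e2 : Real.log Y ^ (-A) = Real.exp (-(A * x)) := by
      rw [hLx, ← Real.exp_mul]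
      congr 1
      ring
    have e3 : Real.exp (-c * x ^ 5 + (2 * Real.log C) * x ^ 4 +
        (A' * Real.log (M' * C) + k) * x) * Real.exp (A' * x) =
        Real.exp (-c * x ^ 5 + (2 * Real.log C) * x ^ 4 +
          (A' * Real.log (M' * C) + k + A' + A) * x) * Real.exp (-(A * x)) := by
      rw [← Real.exp_add, ← Real.exp_add]
      congr 1
      ring
    rw [hε₀, e1, e2, mul_assoc K0 _ (Real.exp (A' * x)), e3, mul_assoc K0 C₂]
    exact mul_le_mul_of_nonneg_left (mul_le_mul_of_nonneg_right h1 (Real.exp_pos _).le) hK00.le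
  calc h * ‖_‖ ≤ h * (C₁ * Y * (ε₀ * Real.log Y ^ A' + Real.log Y ^ (-A))) :=
        mul_le_mul_of_nonneg_left hmain hh0.le
    _ ≤ h * (C₁ * Y * (K0 * C₂ * Real.log Y ^ (-A) + Real.log Y ^ (-A))) := by gcongr
    _ = _ := by ring

end H51.CUD
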