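import Pool.Agent.H51.CUB.LBM
import Pool.Agent.H51.CUD.DLA
import Pool.Agent.H51.CUD.DDu

/-!
# [H51 CUD DLB] Vanishing label sums, main pattern, with the phase at S0

As `lbs_m` in `H51/CUB/LBM.lean` (read its header). `ll_du` replaces `ll_ps`.
-/

set_option autoImplicit false

open scoped NumberField
open IsDedekindDomain
open scoped Classical

noncomputable section

namespace H51.CUD

open H63.MA H38.BB H38.BG H57.PC H77.PC3 H51.CUB

variable {K : Type} [Field K] [NumberField K] {p : ℕ} {ζ : K} {Ω : Type} [Field Ω] [Algebra K Ω]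
  {m l w N : ℕ} {P R : Type} [Group P] [Group R]

theorem ll_du (hp : p.Prime) (hζ : IsPrimitiveRoot ζ p) (D : RD0 K p ζ) (F : Kˣ → ZMod p)
    (n : Finset (Pl K)) (hn : ∀ v ∈ n, D.Gd v) (A : Kˣ) (hA : DuA D F A)
    (hA1 : ∀ v, v ∉ D.S0 → v ∉ n → ((ord v A : ℤ) : ZMod p) = 0) (q : Pl K) (hq : D.Gd q)
    (hqn : q ∉ n) :
    D.LL q A = ∑ v ∈ n, ((ord v A : ℤ) : ZMod p) * D.LL v (D.pi q) + F (D.pi q) := by
  have h1 := hA (D.pi q) (insert q n) (by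
    intro v hv
    rcases Finset.mem_insert.1 hv with h | h
    · rw [h]
      exact hq
    · exact hn v h) (by
    intro v hv hvT
    rw [Finset.mem_insert, not_or] at hvT
    exact ⟨by rw [D.pi_ne q v hq.1 hv hvT.1, Int.cast_zero], hA1 v hv hvT.2⟩)
  rw [Finset.sum_insert hqn, ll_self hp hζ D hq.1, D.pi_self q hq.1, Int.cast_one, one_mul,
    mul_zero, zero_sub] at h1
  have h2 : ∑ v ∈ n, (((ord v A : ℤ) : ZMod p) * D.LL v (D.pi q) -
      ((ord v (D.pi q) : ℤ) : ZMod p) * D.LL v A) =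
      ∑ v ∈ n, ((ord v A : ℤ) : ZMod p) * D.LL v (D.pi q) := by
    refine Finset.sum_congr rfl fun v hv => ?_
    have hne : v ≠ q := fun h => hqn (h ▸ hv)
    rw [D.pi_ne q v hq.1 (hn v hv).1 hne, Int.cast_zero, zero_mul, sub_zero]
  rw [h2] at h1
  linear_combination -h1

private theorem lbm_neg (θ x : Fin w → ZMod p) : dt θ (-x) = -dt θ x := by
  simp only [dt, Pi.neg_apply, mul_neg, Finset.sum_neg_distrib]

private theorem lbm_zero (θ : Fin w → ZMod p) : dt θ 0 = 0 := by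
  simp only [dt, Pi.zero_apply, mul_zero, Finset.sum_const_zero]

private theorem lbm_conj (Dg : GP p m l w N P R) {x y : R} (h : IsConj x y) :
    pu Dg x = pu Dg y := by
  obtain ⟨c, hc⟩ := isConj_iff.1 h
  rw [← hc, pu_mul, pu_mul, pu_inv]
  abel

private theorem lbm_core [NeZero p] [Finite R] [IsAlgClosure K Ω] (hp : p.Prime)
    (hζ : IsPrimitiveRoot ζ p) {D : RD0 K p ζ} {L : LDs D Ω} (Fr : FR L) (Dg : GP p m l w N P R) (Λ : SF D Ω Dg)
    (b : Fin m → Kˣ) (E : Finset (Pl K)) (ε : Pl K → Gal(Ω/K) → R) (n : Finset (Pl K))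
    (σ : Pl K → R) (ψ : Pl K → Fin w → ZMod p) (s : Fin 2 → Fin m → ZMod p)
    (τ : Fin 2 → R) (hτ : ∀ i, pu Dg (τ i) = s i) (φ : Fin 2 → Fin w → ZMod p)
    (q : Fin 2 → Pl K) (hq : ∀ i, q i ∉ D.S0) (i i' : Fin 2) (hi : i' ≠ i)
    (h : VFs Dg Λ Fr b E ε n σ ψ τ φ q ≠ 0) :
    (∀ j, q j ∉ n) ∧ ∃ a : Fin m → ZMod p,
      a = (fun k => D.LL (q i) (ak D b n (sg Dg σ) k)) + ∑ j, D.LL (q i) (D.pi (q j)) • s j ∧
      Dg.kV (s i) a = 0 ∧
      CUB.Lam D Dg b n σ ψ τ φ q i (vof Dg (Dg.kV (s i) (s i'))) =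
        ∑ v ∈ n, dt (ψ v) (Dg.β (Dg.kV (s i) (s i')) (sg Dg σ v)) * D.LL v (D.pi (q i)) +
        dt (φ i') (Dg.β (Dg.kV (s i) (s i')) (s i')) * D.LL (q i') (D.pi (q i)) +
        dt (φ i) (Dg.β (Dg.kV (s i') a) (s i)) := by
  unfold VFs at h
  by_cases hc : Function.Injective q ∧ ∀ i, q i ∉ n
  swap
  · rw [if_neg hc] at h
    exact absurd rfl h
  rw [if_pos hc] at h
  obtain ⟨-, ρ, hρ⟩ := ffs_ne Fr Dg Λ b E ε _ _ _ h
  have h1 := pu_Fq hp hζ Fr Dg b E ε n σ τ q hc.1 hc.2 hρ (q i) (hq i)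
  have h2 := com_q Fr Dg b E ε n σ τ q hc.1 hρ i (hq i)
  simp only [hτ] at h1 h2
  refine ⟨hc.2, pu Dg (ρ (Fr.F (q i))), h1, h2, ?_⟩
  have hcv : (fun k => Dg.cv k (vof Dg (Dg.kV (s i) (s i')))) = Dg.kV (s i) (s i') :=
    funext fun k => vof_cv Dg _ k
  unfold CUB.Lam
  simp only [hτ]
  rw [hcv, ← h1]
  have h3 : ∑ j, (if j = i then 0 else
      dt (φ j) (Dg.β (Dg.kV (s i) (s i')) (s j)) * D.LL (q j) (D.pi (q i))) =
      dt (φ i') (Dg.β (Dg.kV (s i) (s i')) (s i')) * D.LL (q i') (D.pi (q i)) := by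
    rw [Finset.sum_eq_single i']
    · rw [if_neg hi]
    · intro j _ hj
      have : j = i := by omega
      rw [if_pos this]
    · intro h
      exact absurd (Finset.mem_univ _) h
  have h4 : Dg.kV (pu Dg (ρ (Fr.F (q i)))) (s i) = 0 := by
    rw [kV_swap, h2, neg_zero]
  have h5 : Dg.β (Dg.kV (s i) (s i')) (pu Dg (ρ (Fr.F (q i)))) =
      -Dg.β (Dg.kV (s i') (pu Dg (ρ (Fr.F (q i))))) (s i) := by
    have h6 := jac Dg (s i) (s i') (pu Dg (ρ (Fr.F (q i))))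
    rw [h4, map_zero, LinearMap.zero_apply, add_zero] at h6
    exact eq_neg_of_add_eq_zero_left h6
  rw [h3, h5, lbm_neg]
  ring

theorem lbs_ms [NeZero p] [Finite R] [IsAlgClosure K Ω] (hp : p.Prime)
    (hζ : IsPrimitiveRoot ζ p) {D : RD0 K p ζ} {L : LDs D Ω} (Fr : FR L) (Dg : GP p m l w N P R) (Λ : SF D Ω Dg)
    (b : Fin m → Kˣ) (E : Finset (Pl K)) (ε : Pl K → Gal(Ω/K) → R) (n : Finset (Pl K))
    (σ : Pl K → R) (ψ : Pl K → Fin w → ZMod p) (hB : Bse D b E n) (s : Fin 2 → Fin m → ZMod p)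
    (τ : Fin 2 → R) (hτ : ∀ i, pu Dg (τ i) = s i) (φ : Fin 2 → Fin w → ZMod p)
    (hφ : ∀ i (v : Fin l → ZMod p), dt (φ i) (Dg.β v (s i)) = 0) (A : Kˣ)
    (hA : DuA D (fun x => Lam1 Dg Λ (Dg.kV (s 1) (s 0)) (fun g => kk p ζ x g)) A) (hA1 : ∀ v, v ∉ D.S0 → v ∉ n → ((ord v A : ℤ) : ZMod p) = 0)
    (hA2 : ∀ v ∈ n, ((ord v A : ℤ) : ZMod p) =
      dt (ψ v) (Dg.β (Dg.kV (s 1) (s 0)) (sg Dg σ v)))
    (q : Fin 2 → Pl K) (hq : ∀ i, D.Gd (q i) ∧ q i ∉ E) (i : Fin 2) (hi : D.LL (q i) A ≠ 0)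
    (y : R) (hy : pu Dg y = s i) (C : Finset R) (hC : ∀ x, x ∈ C ↔ IsConj x y) :
    ∑ x ∈ C, VFs Dg Λ Fr b E ε n σ ψ (Function.update τ i x) φ q = 0 := by
  have hpx : ∀ x ∈ C, pu Dg x = s i := fun x hx => by rw [lbm_conj Dg ((hC x).1 hx), hy]
  have hup : ∀ x ∈ C, ∀ j, pu Dg (Function.update τ i x j) = s j := by
    intro x hx j
    by_cases hj : j = i
    · rw [hj, Function.update_self, hpx x hx]
    · rw [Function.update_of_ne hj, hτ]
  have hq' : ∀ i, q i ∉ D.S0 ∧ q i ∉ E := fun i => ⟨(hq i).1.1, (hq i).2⟩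
  obtain ⟨i', hi'⟩ : ∃ i' : Fin 2, i' ≠ i := ⟨1 - i, by omega⟩
  have hcl : ∀ x ∈ C, x * vof Dg (Dg.kV (s i) (s i')) ∈ C := by
    intro x hx
    rw [hC]
    have h1 := cl_closed Dg ((hC x).1 hx) (s i')
    rw [hpx x hx] at h1
    exact h1
  have hval : ∀ x ∈ C, VFs Dg Λ Fr b E ε n σ ψ (Function.update τ i x) φ q ≠ 0 →
      LamQ Dg Λ b n σ ψ (Function.update τ i x) φ q i (vof Dg (Dg.kV (s i) (s i'))) =
        if i = 0 then -D.LL (q i) A else D.LL (q i) A := by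
    intro x hx hne
    obtain ⟨hn, a, -, -, hL⟩ := lbm_core hp hζ Fr Dg Λ b E ε n σ ψ s (Function.update τ i x)
      (hup x hx) φ q (fun j => (hq j).1.1) i i' hi' hne
    have hcv : (fun k => Dg.cv k (vof Dg (Dg.kV (s i) (s i')))) = Dg.kV (s i) (s i') :=
      funext fun k => vof_cv Dg _ k
    unfold LamQ
    rw [hL, hφ, hφ, zero_mul, add_zero, add_zero, hcv]
    have h1 := ll_du hp hζ D _ n (fun v hv => (hB.gn v hv).1) A hA hA1 (q i) (hq i).1 (hn i)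
    by_cases h0 : i = 0
    · have h1' : i' = 1 := by omega
      rw [if_pos h0, h1, neg_add, ← Finset.sum_neg_distrib]
      refine congrArg₂ (· + ·) (Finset.sum_congr rfl fun v hv => ?_) ?_
      · rw [hA2 v hv, h0, h1', kV_swap, map_neg, LinearMap.neg_apply, lbm_neg, neg_mul]
      · rw [h0, h1']
        unfold Lam1
        rw [← Finset.sum_neg_distrib]
        refine Finset.sum_congr rfl fun j _ => ?_
        rw [kV_swap, lbm_neg, neg_mul]
    · have h00 : i = 1 := by omega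
      have h1' : i' = 0 := by omega
      rw [if_neg h0, h1]
      refine congrArg₂ (· + ·) (Finset.sum_congr rfl fun v hv => ?_) ?_
      · rw [hA2 v hv, h00, h1']
      · rw [h00, h1']
  refine lbss hp hζ Fr Dg Λ b E ε n σ ψ hB τ φ q hq' i (vof Dg (Dg.kV (s i) (s i')))
    (vof_pi Dg _) C hcl (if i = 0 then -D.LL (q i) A else D.LL (q i) A) ?_ hval
  split_ifs
  · exact neg_ne_zero.2 hi
  · exact hi

end H51.CUD
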