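import Pool.Agent.H51.CUD.DDu
import Pool.Agent.H51.CUB.DUD

/-!
# [H51 CUD DSF] Duality at S0 with a functional (150-200 lines). PROOF

As `H51/CUB/DUD.lean` (copy its private lemmas: `dud_grp`, `dudF`, `dudP`, `dudF_mul`, `dudP_apply`, `dudF_pi`, `dudF_unit`, `dudF_ps`, `dud_LL_prod`, `dud_surj`, `dud_ind`).
There: `lam`, `k`, `u : Fin k → Kˣ` (`S0`-units), `φ = dudP D lam u : Kˣ →* Multiplicative (Fin k → ZMod p)`, `φ y i = dudF D lam (u i) y = ∑ᶠ v ∉ S0, ord v y * lam v * LL v (u i)`; `φ` is surjective and `ker φ ≤ PS ⊔ UT S0`.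
* `gd_rep`: the proof of `dud_surj` shows more: the `φ (pi v)`, `v` good, span everything (only `D.pi v` with `v` good is used). So for `x ∈ Kˣ` there is `z`, a product of powers of `D.pi v` with `v` in a finite set `T` of good primes, with `φ z = φ x` (induction over the span: the set of the `z` supported (`ord v z = 0`) on `S0` and finitely many good primes
is closed under products and powers); `x * z⁻¹ ∈ ker φ`, so `x * z⁻¹ = s * u'`, `s ∈ PS`, `u' ∈ UT S0`, and `x' = z * u'`.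
* `dufs`: `A₀ = ∏ v ∈ n, pi v ^ (c v).val`. For `y ∈ Kˣ` put `Φ y = F y + ∑ᶠ v ∉ S0, lam v * B v y A₀` (`B v y A₀ = LL v y * ord v A₀ - ord v y * LL v A₀`, `b_LL`; finite support). `Φ` is additive in `y`. `Φ y = 0` for `y ∈ PS`: `F y = 0` and `∑ᶠ v, lam v * B v y A₀ = 0` (`IsRec.sum`, `y` is `Prim`), the terms at `S0` vanish (`lam = 0` above `p`, `PS` at the others).
`Φ y = 0` for an `S0`-unit `y`: `Φ y = F y + ∑ v ∈ n, c v * LL v y = 0` (hypothesis `h`). So `Φ` vanishes on `ker φ`, and there is `a : Fin k → ZMod p` with `Φ y = ∑ i, a i * φ y i` for all `y` (`φ` surjective: `Φ = Ψ ∘ φ` with `Ψ` additive on `(ZMod p)^k`, hence linear). Put `A = A₀ * ∏ i, u i ^ (a i).val`: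
`∑ᶠ v ∉ S0, lam v * B v y A = ∑ᶠ v ∉ S0, lam v * B v y A₀ - ∑ i, a i * φ y i` (`ord v (u i) = 0`), so `F y + ∑ᶠ v ∉ S0, lam v * B v y A = 0` for all `y`. For `T` as in `DuA`: `lam v = 1` on `T` (good primes), the other terms are `0` (orders `0` mod `p`), so this is `DuA`. The orders of `A` are those of `A₀` (see `clm_ord` in `CLM.lean`).
-/

set_option autoImplicit false

open scoped NumberField
open IsDedekindDomain
open scoped Classical

noncomputable section

namespace H51.CUD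

open H63.MA H51.CUB

variable {K : Type} [Field K] [NumberField K] {p : ℕ} {ζ : K}

private theorem dsf_grp {G : Type} [CommGroup G] (H U : Subgroup G) {p k : ℕ} (hp : p.Prime)
    (φ : G →* Multiplicative (Fin k → ZMod p)) (hs : Function.Surjective φ) (hH : H ≤ φ.ker)
    (hU : U ≤ φ.ker) (R : Finset G) (hRc : R.card ≤ p ^ (2 * k))
    (hR : ∀ x, ∃ y ∈ R, x * y⁻¹ ∈ H) (u : Fin k → G) (hu : ∀ i, u i ∈ U)
    (hind : ∀ a b : Fin k → Fin p,
      (∏ i, u i ^ (a i : ℕ))⁻¹ * ∏ i, u i ^ (b i : ℕ) ∈ H → a = b) : φ.ker ≤ H ⊔ U := by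
  have hF : Fact p.Prime := ⟨hp⟩
  have hp0 : 0 < p := hp.pos
  -- the index of `H`
  have hsur : Function.Surjective (fun y : R => (QuotientGroup.mk (y : G) : G ⧸ H)) := by
    intro q
    obtain ⟨x, rfl⟩ := QuotientGroup.mk_surjective q
    obtain ⟨y, hy, hxy⟩ := hR x
    refine ⟨⟨y, hy⟩, ?_⟩
    show (QuotientGroup.mk y : G ⧸ H) = QuotientGroup.mk x
    rw [QuotientGroup.eq, mul_comm]
    exact hxy
  have hfin : Finite (G ⧸ H) := Finite.of_surjective _ hsur
  have hidx : H.index ≤ p ^ (2 * k) := by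
    have h1 : Nat.card (G ⧸ H) ≤ Nat.card R := Nat.card_le_card_of_surjective _ hsur
    rw [Subgroup.index_eq_card]
    refine h1.trans (le_trans (le_of_eq ?_) hRc)
    simp
  have hidx0 : H.index ≠ 0 := Subgroup.index_ne_zero_of_finite
  have hFI : H.FiniteIndex := ⟨hidx0⟩
  -- the index of `H` in `U`
  have hrel : p ^ k ≤ H.relIndex U := by
    have hfin2 : Finite (U ⧸ H.subgroupOf U) := Subgroup.finite_quotient_of_finiteIndex
    have hmem : ∀ a : Fin k → Fin p, ∏ i, u i ^ (a i : ℕ) ∈ U := fun a =>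
      Subgroup.prod_mem _ fun i _ => U.pow_mem (hu i) _
    have hinj : Function.Injective (fun a : Fin k → Fin p =>
        (QuotientGroup.mk (⟨∏ i, u i ^ (a i : ℕ), hmem a⟩ : U) : U ⧸ H.subgroupOf U)) := by
      intro a b hab
      have h1 := QuotientGroup.eq.1 hab
      rw [Subgroup.mem_subgroupOf] at h1
      exact hind a b h1
    have h1 := Nat.card_le_card_of_injective _ hinj
    rw [Nat.card_fun, Nat.card_fin, Nat.card_fin] at h1
    exact h1
  have hker : φ.ker.index = p ^ k := by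
    rw [Subgroup.index_ker, MonoidHom.range_eq_top.mpr hs, Subgroup.card_top]
    have h1 : Nat.card (Multiplicative (Fin k → ZMod p)) = Nat.card (Fin k → ZMod p) := rfl
    rw [h1, Nat.card_fun, Nat.card_fin, Nat.card_zmod]
  have hle : H ⊔ U ≤ φ.ker := sup_le hH hU
  have h1 : H.relIndex (H ⊔ U) * (H ⊔ U).index = H.index :=
    Subgroup.relIndex_mul_index le_sup_left
  rw [Subgroup.relIndex_sup_left] at h1
  have h2 : (H ⊔ U).relIndex φ.ker * φ.ker.index = (H ⊔ U).index :=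
    Subgroup.relIndex_mul_index hle
  rw [hker] at h2
  have hpk : 0 < p ^ k := pow_pos hp0 k
  have h3 : p ^ k * (H ⊔ U).index ≤ p ^ k * p ^ k := by
    calc p ^ k * (H ⊔ U).index ≤ H.relIndex U * (H ⊔ U).index := Nat.mul_le_mul_right _ hrel
      _ = H.index := h1
      _ ≤ p ^ (2 * k) := hidx
      _ = p ^ k * p ^ k := by rw [two_mul, pow_add]
  have h4 : (H ⊔ U).index ≤ p ^ k := Nat.le_of_mul_le_mul_left h3 hpk
  rw [← h2] at h4
  have h5 : (H ⊔ U).relIndex φ.ker ≤ 1 := by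
    by_contra hcon
    have h6 : 2 * p ^ k ≤ (H ⊔ U).relIndex φ.ker * p ^ k :=
      Nat.mul_le_mul_right _ (by omega)
    omega
  have h6 : (H ⊔ U).relIndex φ.ker ≠ 0 := by
    intro h0
    rw [h0, zero_mul] at h2
    have h7 : (H ⊔ U).index ≠ 0 := by
      intro h8
      rw [h8, mul_zero] at h1
      exact hidx0 h1.symm
    exact h7 h2.symm
  exact Subgroup.relIndex_eq_one.mp (by omega)

private theorem dsf_fin (y : Kˣ) (S : Finset (Pl K)) (f : Pl K → ZMod p) :
    (Function.support fun v => if v ∈ S then 0 else ((ord v y : ℤ) : ZMod p) * f v).Finite := by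
  refine (finite_ord y).subset fun v hv => ?_
  intro h0
  apply hv
  show (if v ∈ S then 0 else ((ord v y : ℤ) : ZMod p) * f v) = 0
  have h1 : ord v y = 0 := h0
  rw [h1, Int.cast_zero, zero_mul, ite_self]

/-- the pairing of `y` with the unit `u` -/
private def dsfF (D : RD K p ζ) (lam : Pl K → ZMod p) (u y : Kˣ) : ZMod p :=
  ∑ᶠ v, if v ∈ D.S0 then 0 else ((ord v y : ℤ) : ZMod p) * (lam v * D.LL v u)

private theorem dsfF_mul (D : RD K p ζ) (lam : Pl K → ZMod p) (u y y' : Kˣ) :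
    dsfF D lam u (y * y') = dsfF D lam u y + dsfF D lam u y' := by
  unfold dsfF
  rw [← finsum_add_distrib (dsf_fin y D.S0 _) (dsf_fin y' D.S0 _)]
  congr 1
  funext v
  rw [ord_mul]
  split_ifs
  · rw [add_zero]
  · push_cast
    ring

/-- the pairing with the units as a homomorphism -/
private def dsfP (D : RD K p ζ) (lam : Pl K → ZMod p) {k : ℕ} (u : Fin k → Kˣ) :
    Kˣ →* Multiplicative (Fin k → ZMod p) :=
  MonoidHom.mk' (fun y => Multiplicative.ofAdd fun i => dsfF D lam (u i) y) (by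
    intro y y'
    show Multiplicative.ofAdd _ = Multiplicative.ofAdd _ * Multiplicative.ofAdd _
    rw [← ofAdd_add]
    congr 1
    funext i
    exact dsfF_mul D lam (u i) y y')

private theorem dsfP_apply (D : RD K p ζ) (lam : Pl K → ZMod p) {k : ℕ} (u : Fin k → Kˣ)
    (y : Kˣ) (i : Fin k) : Multiplicative.toAdd (dsfP D lam u y) i = dsfF D lam (u i) y := rfl

private theorem dsfF_pi (D : RD K p ζ) {lam : Pl K → ZMod p} {w : Pl K} (hw : w ∉ D.S0)
    (hl : lam w = 1) (u : Kˣ) : dsfF D lam u (D.pi w) = D.LL w u := by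
  unfold dsfF
  rw [finsum_eq_single _ w]
  · rw [if_neg hw, D.pi_self w hw, hl]
    push_cast
    ring
  · intro v hv
    split_ifs with hvS
    · rfl
    · rw [D.pi_ne w v hw hvS hv, Int.cast_zero, zero_mul]

private theorem dsfF_unit (D : RD K p ζ) (lam : Pl K → ZMod p) (u : Kˣ) {y : Kˣ}
    (hy : TUnit D.S0 y) : dsfF D lam u y = 0 := by
  unfold dsfF
  have h1 : (fun v => if v ∈ D.S0 then (0 : ZMod p) else ((ord v y : ℤ) : ZMod p) *
      (lam v * D.LL v u)) = fun _ => 0 := by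
    funext v
    split_ifs with hv
    · rfl
    · rw [hy v hv, Int.cast_zero, zero_mul]
  rw [h1, finsum_zero]

private theorem dsfF_ps (hp : p.Prime) (hζ : IsPrimitiveRoot ζ p) (D : RD K p ζ)
    {lam : Pl K → ZMod p} (hlam : IsRec p ζ lam) {u : Kˣ} (hu : TUnit D.S0 u) {y : Kˣ}
    (hy : PS p ζ D.S0 y) : dsfF D lam u y = 0 := by
  have h1 := hlam.sum y hy.1 u
  have h2 : (fun v => lam v * B p ζ v y u) = fun v => -(if v ∈ D.S0 then (0 : ZMod p) else
      ((ord v y : ℤ) : ZMod p) * (lam v * D.LL v u)) := by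
    funext v
    split_ifs with hv
    · rw [neg_zero]
      by_cases ha : Above p v
      · rw [hlam.above v ha, zero_mul]
      · rw [hy.2 v hv ha u, mul_zero]
    · rw [B_eq hp hζ D.toRD0 hv, hu v hv]
      push_cast
      ring
  rw [h2, finsum_neg_distrib, neg_eq_zero] at h1
  exact h1

private theorem dsf_LL_prod (hp : p.Prime) (hζ : IsPrimitiveRoot ζ p) (D : RD0 K p ζ) {v : Pl K}
    (hv : v ∉ D.S0) {ι : Type} (s : Finset ι) (u : ι → Kˣ) (a : ι → ℕ) :
    D.LL v (∏ i ∈ s, u i ^ a i) = ∑ i ∈ s, (a i : ZMod p) * D.LL v (u i) := by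
  induction s using Finset.induction_on with
  | empty => rw [Finset.prod_empty, Finset.sum_empty, LL_one hp hζ D hv]
  | insert i s hi ih =>
    rw [Finset.prod_insert hi, Finset.sum_insert hi, LL_mul hp hζ D hv, ih]
    congr 1
    have h1 := LL_zpow hp hζ D hv (u i) (a i : ℤ)
    rw [zpow_natCast] at h1
    rw [h1, Int.cast_natCast]

private theorem dsf_span (hp : p.Prime) (hζ : IsPrimitiveRoot ζ p) (D : RD K p ζ)
    {lam : Pl K → ZMod p} (hone : ∀ v : Pl K, ¬ Above p v → (nm v).Prime → lam v = 1)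
    {k : ℕ} (u : Fin k → Kˣ)
    (hind : ∀ a : Fin k → ℕ, IsPow p (∏ i, u i ^ a i) → ∀ i, p ∣ a i) (x : Fin k → ZMod p) :
    ∃ (z : Kˣ) (T : Finset (Pl K)), (∀ v ∈ T, D.Gd v) ∧
      (∀ v, v ∉ D.S0 → v ∉ T → ord v z = 0) ∧ Multiplicative.toAdd (dsfP D lam u z) = x := by
  have hF : Fact p.Prime := ⟨hp⟩
  obtain ⟨W, hW⟩ : ∃ W : Submodule (ZMod p) (Fin k → ZMod p), W =
    Submodule.span (ZMod p) ((fun v => Multiplicative.toAdd (dsfP D lam u (D.pi v))) ''
      {v | D.Gd v}) := ⟨_, rfl⟩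
  have hWtop : W = ⊤ := by
    by_contra hne
    obtain ⟨f, hf0, hf⟩ := Submodule.exists_le_ker_of_lt_top W (lt_top_iff_ne_top.mpr hne)
    apply hf0
    set a : Fin k → ZMod p := fun i => f (fun j => if i = j then 1 else 0) with ha
    have hfa : ∀ w, f w = ∑ i, w i * a i := by
      intro w
      rw [LinearMap.pi_apply_eq_sum_univ f w]
      rfl
    set z : Kˣ := ∏ i, u i ^ (a i).val with hz
    have hgood : ∀ v, D.Gd v → D.LL v z = 0 := by
      intro v hv
      have hl : lam v = 1 := hone v (fun h => hv.1 (D.above v h)) hv.2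
      rw [hz, dsf_LL_prod hp hζ D.toRD0 hv.1]
      have h1 : f (Multiplicative.toAdd (dsfP D lam u (D.pi v))) = 0 := by
        have h2 : Multiplicative.toAdd (dsfP D lam u (D.pi v)) ∈ W := by
          rw [hW]
          exact Submodule.subset_span ⟨v, hv, rfl⟩
        exact hf h2
      rw [hfa] at h1
      rw [← h1]
      refine Finset.sum_congr rfl fun i _ => ?_
      rw [dsfP_apply, dsfF_pi D hv.1 hl, ZMod.natCast_zmod_val]
      ring
    have hpow : IsPow p z := by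
      by_contra hcon
      obtain ⟨v, hv, _, _, h2⟩ := D.non z hcon ∅
      exact h2 (hgood v hv)
    have ha0 : ∀ i, a i = 0 := by
      intro i
      have h1 := hind (fun i => (a i).val) hpow i
      have h2 : (a i).val < p := ZMod.val_lt _
      have h3 : (a i).val = 0 := Nat.eq_zero_of_dvd_of_lt h1 h2
      exact (ZMod.val_eq_zero _).mp h3
    apply LinearMap.ext
    intro w
    rw [hfa, LinearMap.zero_apply]
    exact Finset.sum_eq_zero fun i _ => by rw [ha0 i, mul_zero]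
  have key : ∀ x ∈ W, ∃ (z : Kˣ) (T : Finset (Pl K)), (∀ v ∈ T, D.Gd v) ∧
      (∀ v, v ∉ D.S0 → v ∉ T → ord v z = 0) ∧ Multiplicative.toAdd (dsfP D lam u z) = x := by
    intro x hx
    rw [hW] at hx
    induction hx using Submodule.span_induction with
    | mem x hx =>
      obtain ⟨v, hv, rfl⟩ := hx
      refine ⟨D.pi v, {v}, fun w hw => ?_, fun w hw1 hw2 => ?_, rfl⟩
      · rw [Finset.mem_singleton] at hw
        rw [hw]
        exact hv
      · rw [Finset.mem_singleton] at hw2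
        exact D.pi_ne v w hv.1 hw1 hw2
    | zero => exact ⟨1, ∅, fun v hv => absurd hv (Finset.notMem_empty v), fun v _ _ => ord_one v,
        by rw [map_one, toAdd_one]⟩
    | add x x' _ _ h1 h2 =>
      obtain ⟨y, T, hT, hy, rfl⟩ := h1
      obtain ⟨y', T', hT', hy', rfl⟩ := h2
      refine ⟨y * y', T ∪ T', fun v hv => ?_, fun v h3 h4 => ?_, by rw [map_mul, toAdd_mul]⟩
      · rcases Finset.mem_union.1 hv with h | h
        · exact hT v h
        · exact hT' v h
      · rw [Finset.mem_union, not_or] at h4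
        rw [ord_mul, hy v h3 h4.1, hy' v h3 h4.2, add_zero]
    | smul c x _ h1 =>
      obtain ⟨y, T, hT, hy, rfl⟩ := h1
      refine ⟨y ^ c.val, T, hT, fun v h3 h4 => ?_, ?_⟩
      · rw [ord_pow, hy v h3 h4, mul_zero]
      · rw [map_pow, toAdd_pow]
        funext i
        rw [Pi.smul_apply, Pi.smul_apply, smul_eq_mul, nsmul_eq_mul, ZMod.natCast_zmod_val]
  exact key x (by rw [hWtop]; exact Submodule.mem_top)

private theorem dsf_surj (hp : p.Prime) (hζ : IsPrimitiveRoot ζ p) (D : RD K p ζ)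
    {lam : Pl K → ZMod p} (hone : ∀ v : Pl K, ¬ Above p v → (nm v).Prime → lam v = 1)
    {k : ℕ} (u : Fin k → Kˣ)
    (hind : ∀ a : Fin k → ℕ, IsPow p (∏ i, u i ^ a i) → ∀ i, p ∣ a i) :
    Function.Surjective (dsfP D lam u) := by
  intro w
  obtain ⟨z, -, -, -, hz⟩ := dsf_span hp hζ D hone u hind (Multiplicative.toAdd w)
  exact ⟨z, hz⟩

private theorem dsf_ind (D : RD K p ζ) {k : ℕ} (u : Fin k → Kˣ) (hu : ∀ i, u i ∈ UT D.S0)
    (hp : p.Prime)
    (hind : ∀ a : Fin k → ℕ, IsPow p (∏ i, u i ^ a i) → ∀ i, p ∣ a i) (a b : Fin k → Fin p)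
    (h : PS p ζ D.S0 ((∏ i, u i ^ (a i : ℕ))⁻¹ * ∏ i, u i ^ (b i : ℕ))) : a = b := by
  have hmem : ∀ a : Fin k → Fin p, ∏ i, u i ^ (a i : ℕ) ∈ UT D.S0 := fun a =>
    Subgroup.prod_mem _ fun i _ => (UT D.S0).pow_mem (hu i) _
  have h1 : (∏ i, u i ^ (a i : ℕ))⁻¹ * ∏ i, u i ^ (b i : ℕ) ∈ UT D.S0 :=
    (UT D.S0).mul_mem ((UT D.S0).inv_mem (hmem a)) (hmem b)
  obtain ⟨t, ht⟩ := D.unit _ h1 h
  have h2 : IsPow p (∏ i, u i ^ ((b i : ℕ) + (p - 1) * (a i : ℕ))) := by
    refine ⟨t * ∏ i, u i ^ (a i : ℕ), ?_⟩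
    have h3 : ∏ i, u i ^ ((b i : ℕ) + (p - 1) * (a i : ℕ)) =
        (∏ i, u i ^ (b i : ℕ)) * (∏ i, u i ^ (a i : ℕ)) ^ (p - 1) := by
      rw [← Finset.prod_pow, ← Finset.prod_mul_distrib]
      refine Finset.prod_congr rfl fun i _ => ?_
      rw [pow_add, ← pow_mul, mul_comm (p - 1)]
    rw [h3, mul_pow, ht]
    have h4 : (∏ i, u i ^ (a i : ℕ)) ^ p =
        (∏ i, u i ^ (a i : ℕ)) * (∏ i, u i ^ (a i : ℕ)) ^ (p - 1) := by
      rw [← pow_succ']
      congr 1
      have := hp.pos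
      omega
    rw [h4, mul_mul_mul_comm, inv_mul_cancel, one_mul]
  funext i
  have h3 := hind _ h2 i
  apply Fin.ext
  have ha := (a i).isLt
  have hb := (b i).isLt
  have h4 : (p : ℤ) ∣ ((b i : ℕ) : ℤ) - ((a i : ℕ) : ℤ) := by
    have h5 : (p : ℤ) ∣ (((b i : ℕ) + (p - 1) * (a i : ℕ) : ℕ) : ℤ) := by exact_mod_cast h3
    have h6 : (((b i : ℕ) + (p - 1) * (a i : ℕ) : ℕ) : ℤ) =
        ((b i : ℕ) : ℤ) - ((a i : ℕ) : ℤ) + (p : ℤ) * ((a i : ℕ) : ℤ) := by
      have h7 : ((p - 1 : ℕ) : ℤ) = (p : ℤ) - 1 := by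
        have := hp.one_le
        push_cast [Nat.cast_sub this]
        ring
      rw [Nat.cast_add, Nat.cast_mul, h7]
      ring
    rw [h6] at h5
    exact (Int.dvd_add_left (Dvd.intro _ rfl)).mp h5
  have h5 := Int.eq_zero_of_abs_lt_dvd h4 (by
    rw [abs_lt]
    constructor <;> omega)
  omega

/-- the kernel of the pairing with the units -/
private theorem dsf_ker (hp : p.Prime) (hp2 : MOne p K) (hζ : IsPrimitiveRoot ζ p) (D : RD K p ζ) :
    ∃ (lam : Pl K → ZMod p) (k : ℕ) (u : Fin k → Kˣ), IsRec p ζ lam ∧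
      (∀ v : Pl K, ¬ Above p v → (nm v).Prime → lam v = 1) ∧ (∀ i, u i ∈ UT D.S0) ∧
      (∀ a : Fin k → ℕ, IsPow p (∏ i, u i ^ a i) → ∀ i, p ∣ a i) ∧
      (dsfP D lam u).ker ≤ RMkA_G hp hp2 hζ D.S0 ⊔ UT D.S0 := by
  have hF : Fact p.Prime := ⟨hp⟩
  obtain ⟨lam, hlam, hone⟩ := exists_rec_one K hp hp2 hζ
  obtain ⟨k, u, hk, hu, hind⟩ := duc hp hp2 hζ D.S0
  obtain ⟨R, hRc, hR⟩ := dub hp hp2 hζ D.S0 D.above
  rw [← hk] at hRc
  refine ⟨lam, k, u, hlam, hone, hu, hind, ?_⟩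
  exact dsf_grp (RMkA_G hp hp2 hζ D.S0) (UT D.S0) hp (dsfP D lam u)
    (dsf_surj hp hζ D hone u hind)
    (fun y hy => by
      rw [MonoidHom.mem_ker]
      apply Multiplicative.toAdd.injective
      funext i
      exact dsfF_ps hp hζ D hlam (hu i) hy)
    (fun y hy => by
      rw [MonoidHom.mem_ker]
      apply Multiplicative.toAdd.injective
      funext i
      exact dsfF_unit D lam (u i) hy)
    R hRc hR u hu (fun a b hab => dsf_ind D u hu hp hind a b hab)

/-- the pairing `∑ lam v B v y X` over the primes outside `S0` -/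
private def dsfX (D : RD K p ζ) (lam : Pl K → ZMod p) (y X : Kˣ) : ZMod p :=
  ∑ᶠ v, if v ∈ D.S0 then 0 else lam v * B p ζ v y X

private theorem dsfX_fin (hp : p.Prime) (hζ : IsPrimitiveRoot ζ p) (D : RD K p ζ)
    (lam : Pl K → ZMod p) (y X : Kˣ) :
    (Function.support fun v => if v ∈ D.S0 then 0 else lam v * B p ζ v y X).Finite := by
  refine ((finite_ord y).union (finite_ord X)).subset fun v hv => ?_
  by_contra h0
  apply hv
  rw [Set.mem_union, not_or] at h0
  have h1 : ord v y = 0 := by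
    by_contra h
    exact h0.1 h
  have h2 : ord v X = 0 := by
    by_contra h
    exact h0.2 h
  show (if v ∈ D.S0 then 0 else lam v * B p ζ v y X) = 0
  split_ifs with hvS
  · rfl
  · rw [b_LL hp hζ D.toRD0 v hvS, h1, h2, Int.cast_zero]
    ring

private theorem dsfX_right (hp : p.Prime) (hζ : IsPrimitiveRoot ζ p) (D : RD K p ζ)
    (lam : Pl K → ZMod p) (y X X' : Kˣ) :
    dsfX D lam y (X * X') = dsfX D lam y X + dsfX D lam y X' := by
  unfold dsfX
  rw [← finsum_add_distrib (dsfX_fin hp hζ D lam y X) (dsfX_fin hp hζ D lam y X')]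
  congr 1
  funext v
  split_ifs with hv
  · rw [add_zero]
  · rw [b_LL hp hζ D.toRD0 v hv, b_LL hp hζ D.toRD0 v hv, b_LL hp hζ D.toRD0 v hv, ord_mul,
      LL_mul hp hζ D.toRD0 hv]
    push_cast
    ring

private theorem dsfX_neg (hp : p.Prime) (hζ : IsPrimitiveRoot ζ p) (D : RD K p ζ)
    (lam : Pl K → ZMod p) (y X : Kˣ) : dsfX D lam y X = -dsfX D lam X y := by
  unfold dsfX
  rw [← finsum_neg_distrib]
  congr 1
  funext v
  split_ifs with hv
  · rw [neg_zero]
  · rw [b_LL hp hζ D.toRD0 v hv, b_LL hp hζ D.toRD0 v hv]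
    ring

private theorem dsfX_left (hp : p.Prime) (hζ : IsPrimitiveRoot ζ p) (D : RD K p ζ)
    (lam : Pl K → ZMod p) (y y' X : Kˣ) :
    dsfX D lam (y * y') X = dsfX D lam y X + dsfX D lam y' X := by
  rw [dsfX_neg hp hζ, dsfX_right hp hζ, dsfX_neg hp hζ D lam y X, dsfX_neg hp hζ D lam y' X]
  ring

/-- the pairing as a homomorphism in the second argument -/
private def dsfH (hp : p.Prime) (hζ : IsPrimitiveRoot ζ p) (D : RD K p ζ)
    (lam : Pl K → ZMod p) (y : Kˣ) : Kˣ →* Multiplicative (ZMod p) :=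
  MonoidHom.mk' (fun X => Multiplicative.ofAdd (dsfX D lam y X)) (by
    intro X X'
    show Multiplicative.ofAdd _ = Multiplicative.ofAdd _ * Multiplicative.ofAdd _
    rw [← ofAdd_add, dsfX_right hp hζ])

private theorem dsfX_unit (hp : p.Prime) (hζ : IsPrimitiveRoot ζ p) (D : RD K p ζ)
    (lam : Pl K → ZMod p) (y : Kˣ) {u : Kˣ} (hu : TUnit D.S0 u) :
    dsfX D lam y u = -dsfF D lam u y := by
  unfold dsfX dsfF
  rw [← finsum_neg_distrib]
  congr 1
  funext v
  split_ifs with hv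
  · rw [neg_zero]
  · rw [b_LL hp hζ D.toRD0 v hv, hu v hv, Int.cast_zero]
    ring

private theorem dsfX_prod (hp : p.Prime) (hζ : IsPrimitiveRoot ζ p) (D : RD K p ζ)
    (lam : Pl K → ZMod p) (y : Kˣ) {k : ℕ} (u : Fin k → Kˣ) (hu : ∀ i, u i ∈ UT D.S0)
    [NeZero p] (a : Fin k → ZMod p) :
    dsfX D lam y (∏ i, u i ^ (a i).val) = -∑ i, a i * dsfF D lam (u i) y := by
  have h1 : Multiplicative.toAdd (dsfH hp hζ D lam y (∏ i, u i ^ (a i).val)) =
      ∑ i, Multiplicative.toAdd (dsfH hp hζ D lam y (u i ^ (a i).val)) := by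
    rw [map_prod, toAdd_prod]
  have h2 : dsfX D lam y (∏ i, u i ^ (a i).val) =
      Multiplicative.toAdd (dsfH hp hζ D lam y (∏ i, u i ^ (a i).val)) := rfl
  rw [h2, h1, ← Finset.sum_neg_distrib]
  refine Finset.sum_congr rfl fun i _ => ?_
  rw [map_pow, toAdd_pow, nsmul_eq_mul, ZMod.natCast_zmod_val]
  have h3 : Multiplicative.toAdd (dsfH hp hζ D lam y (u i)) = dsfX D lam y (u i) := rfl
  rw [h3, dsfX_unit hp hζ D lam y (hu i)]
  ring

private theorem dsfX_ps (D : RD K p ζ) {lam : Pl K → ZMod p} (hlam : IsRec p ζ lam) {y : Kˣ}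
    (hy : PS p ζ D.S0 y) (X : Kˣ) : dsfX D lam y X = 0 := by
  have h1 := hlam.sum y hy.1 X
  unfold dsfX
  refine Eq.trans ?_ h1
  congr 1
  funext v
  split_ifs with hv
  · by_cases ha : Above p v
    · rw [hlam.above v ha, zero_mul]
    · rw [hy.2 v hv ha X, mul_zero]
  · rfl

private theorem dsf_ord (D : RD0 K p ζ) [NeZero p] (n : Finset (Pl K)) (hn : ∀ v ∈ n, v ∉ D.S0)
    (c : Pl K → ZMod p) (v : Pl K) (hv : v ∉ D.S0) :
    ((ord v (∏ w ∈ n, D.pi w ^ (c w).val) : ℤ) : ZMod p) = if v ∈ n then c v else 0 := by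
  rw [ord_prod, Int.cast_sum]
  have h1 : ∀ w ∈ n, ((ord v (D.pi w ^ (c w).val) : ℤ) : ZMod p) = if w = v then c v else 0 := by
    intro w hw
    rw [ord_pow, Int.cast_mul, Int.cast_natCast, ZMod.natCast_zmod_val]
    by_cases hwv : w = v
    · rw [if_pos hwv, hwv, D.pi_self v hv, Int.cast_one, mul_one]
    · rw [if_neg hwv, D.pi_ne w v (hn w hw) hv fun h => hwv h.symm, Int.cast_zero, mul_zero]
  rw [Finset.sum_congr rfl h1, Finset.sum_ite_eq']

theorem gd_rep (hp : p.Prime) (hp2 : MOne p K) (hζ : IsPrimitiveRoot ζ p) (D : RD K p ζ) :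
    GdRep D.toRD0 := by
  intro x
  obtain ⟨lam, k, u, hlam, hone, hu, hind, hle⟩ := dsf_ker hp hp2 hζ D
  obtain ⟨z, T, hT, hz, hzx⟩ := dsf_span hp hζ D hone u hind
    (Multiplicative.toAdd (dsfP D lam u x))
  have hk : x * z⁻¹ ∈ (dsfP D lam u).ker := by
    rw [MonoidHom.mem_ker, map_mul, map_inv, mul_inv_eq_one]
    exact hzx.symm
  obtain ⟨s, hs, w, hw, hsw⟩ := Subgroup.mem_sup.1 (hle hk)
  refine ⟨z * w, T, hT, fun v h1 h2 => ?_, ?_⟩
  · rw [ord_mul, hz v h1 h2, hw v h1, add_zero]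
  · have e : x * (z * w)⁻¹ = s := by
      rw [mul_inv, ← mul_assoc, ← hsw, mul_inv_cancel_right]
    rw [e]
    exact hs

theorem dufs (hp : p.Prime) (hp2 : MOne p K) (hζ : IsPrimitiveRoot ζ p) (D : RD K p ζ)
    (n : Finset (Pl K)) (hn : ∀ v ∈ n, D.Gd v) (c : Pl K → ZMod p) (F : Kˣ → ZMod p)
    (hF : ∀ x y, F (x * y) = F x + F y) (hFps : ∀ x, PS p ζ D.S0 x → F x = 0)
    (h : ∀ u : Kˣ, TUnit D.S0 u → ∑ v ∈ n, c v * D.LL v u + F u = 0) :
    ∃ A : Kˣ, (∀ v, v ∉ D.S0 → ((ord v A : ℤ) : ZMod p) = if v ∈ n then c v else 0) ∧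
      DuA D.toRD0 F A := by
  have hFp : Fact p.Prime := ⟨hp⟩
  obtain ⟨lam, k, u, hlam, hone, hu, hind, hle⟩ := dsf_ker hp hp2 hζ D
  obtain ⟨A₀, hA₀⟩ : ∃ A₀ : Kˣ, A₀ = ∏ v ∈ n, D.pi v ^ (c v).val := ⟨_, rfl⟩
  have hordA₀ : ∀ v, v ∉ D.S0 → ((ord v A₀ : ℤ) : ZMod p) = if v ∈ n then c v else 0 := by
    intro v hv
    rw [hA₀]
    exact dsf_ord D.toRD0 n (fun w hw => (hn w hw).1) c v hv
  -- the functional
  obtain ⟨Φ, hΦ⟩ : ∃ Φ : Kˣ →* Multiplicative (ZMod p),
      ∀ y, Multiplicative.toAdd (Φ y) = F y + dsfX D lam y A₀ := by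
    refine ⟨MonoidHom.mk' (fun y => Multiplicative.ofAdd (F y + dsfX D lam y A₀)) ?_, fun y => rfl⟩
    intro y y'
    show Multiplicative.ofAdd _ = Multiplicative.ofAdd _ * Multiplicative.ofAdd _
    rw [← ofAdd_add, hF, dsfX_left hp hζ]
    congr 1
    ring
  have hΦps : ∀ y, PS p ζ D.S0 y → Φ y = 1 := by
    intro y hy
    apply Multiplicative.toAdd.injective
    rw [hΦ, hFps y hy, dsfX_ps D hlam hy, add_zero]
    rfl
  have hΦu : ∀ y, TUnit D.S0 y → Φ y = 1 := by
    intro y hy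
    apply Multiplicative.toAdd.injective
    rw [hΦ]
    have h1 : dsfX D lam y A₀ = ∑ v ∈ n, c v * D.LL v y := by
      unfold dsfX
      have h2 : (fun v => if v ∈ D.S0 then 0 else lam v * B p ζ v y A₀) =
          fun v => if v ∈ n then c v * D.LL v y else 0 := by
        funext v
        by_cases hv : v ∈ D.S0
        · rw [if_pos hv, if_neg fun h => (hn v h).1 hv]
        · rw [if_neg hv, b_LL hp hζ D.toRD0 v hv, hy v hv, hordA₀ v hv]
          by_cases hvn : v ∈ n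
          · have hl : lam v = 1 := hone v (fun h => (hn v hvn).1 (D.above v h)) (hn v hvn).2
            rw [if_pos hvn, if_pos hvn, hl]
            push_cast
            ring
          · rw [if_neg hvn, if_neg hvn]
            push_cast
            ring
      rw [h2, finsum_eq_sum_of_support_subset (s := n)]
      · exact Finset.sum_congr rfl fun v hv => if_pos hv
      · intro v hv
        by_contra hcon
        exact hv (if_neg hcon)
    rw [h1, add_comm, h y hy]
    rfl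
  have hΦk : ∀ y, y ∈ (dsfP D lam u).ker → Φ y = 1 := by
    intro y hy
    obtain ⟨s, hs, w, hw, rfl⟩ := Subgroup.mem_sup.1 (hle hy)
    rw [map_mul, hΦps s hs, hΦu w hw, mul_one]
  -- the coefficients
  choose e he using fun i : Fin k => dsf_surj hp hζ D hone u hind
    (Multiplicative.ofAdd (fun j => if i = j then 1 else 0))
  obtain ⟨a, ha⟩ : ∃ a : Fin k → ZMod p, a = fun i => Multiplicative.toAdd (Φ (e i)) := ⟨_, rfl⟩
  have hlin : ∀ y, Multiplicative.toAdd (Φ y) = ∑ i, a i * dsfF D lam (u i) y := by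
    intro y
    have hk : y * (∏ i, e i ^ (dsfF D lam (u i) y).val)⁻¹ ∈ (dsfP D lam u).ker := by
      rw [MonoidHom.mem_ker, map_mul, map_inv, mul_inv_eq_one, map_prod]
      apply Multiplicative.toAdd.injective
      rw [toAdd_prod]
      funext j
      rw [dsfP_apply, Finset.sum_apply]
      have h1 : ∀ i ∈ Finset.univ, Multiplicative.toAdd (dsfP D lam u
          (e i ^ (dsfF D lam (u i) y).val)) j = if i = j then dsfF D lam (u j) y else 0 := by
        intro i _
        rw [map_pow, toAdd_pow, he, Pi.smul_apply, nsmul_eq_mul, ZMod.natCast_zmod_val]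
        show dsfF D lam (u i) y * (if i = j then 1 else 0) = _
        split_ifs with hij
        · rw [mul_one, hij]
        · rw [mul_zero]
      rw [Finset.sum_congr rfl h1, Finset.sum_ite_eq']
      rw [if_pos (Finset.mem_univ j)]
    have h1 := hΦk _ hk
    rw [map_mul, map_inv, mul_inv_eq_one, map_prod] at h1
    rw [h1, toAdd_prod]
    refine Finset.sum_congr rfl fun i _ => ?_
    rw [map_pow, toAdd_pow, nsmul_eq_mul, ZMod.natCast_zmod_val, ha]
    ring
  obtain ⟨U, hU⟩ : ∃ U : Kˣ, U = ∏ i, u i ^ (a i).val := ⟨_, rfl⟩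
  have hUu : U ∈ UT D.S0 := by
    rw [hU]
    exact Subgroup.prod_mem _ fun i _ => (UT D.S0).pow_mem (hu i) _
  refine ⟨A₀ * U, fun v hv => ?_, ?_⟩
  · rw [ord_mul, hUu v hv, add_zero]
    exact hordA₀ v hv
  · intro x T hT hz
    have h1 : F x + dsfX D lam x (A₀ * U) = 0 := by
      rw [dsfX_right hp hζ, hU, dsfX_prod hp hζ D lam x u hu a, ← hlin x, hΦ]
      ring
    rw [← h1]
    congr 1
    unfold dsfX
    rw [finsum_eq_sum_of_support_subset (s := T)]
    · refine Finset.sum_congr rfl fun v hv => ?_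
      have hl : lam v = 1 := hone v (fun h => (hT v hv).1 (D.above v h)) (hT v hv).2
      rw [if_neg (hT v hv).1, b_LL hp hζ D.toRD0 v (hT v hv).1, hl]
      ring
    · intro v hv
      by_contra hcon
      apply hv
      show (if v ∈ D.S0 then 0 else lam v * B p ζ v x (A₀ * U)) = 0
      split_ifs with hvS
      · rfl
      · obtain ⟨h2, h3⟩ := hz v hvS hcon
        rw [b_LL hp hζ D.toRD0 v hvS, h2, h3]
        ring

end H51.CUD
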