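import Pool.Agent.H51.CUB.CLM
import Pool.Agent.H51.CUD.DL3
import Pool.Agent.H51.CUD.DLB
import Pool.Agent.H51.CUD.DC2
import Pool.Agent.H51.CUD.DSF

/-!
# [H51 CUD DLM] Two added primes, main pattern: sums over boxes, with the phase at S0

As in `H51/CUB/CLM.lean` (read its header). The element `A` comes from `dufs` (duality with the functional `Lam1 Λ kv (kk x)`); it is not a `p`-th power if `nv kv` is not zero or `Nps Λ kv` (`du_npow`).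
-/

set_option autoImplicit false

open scoped NumberField
open IsDedekindDomain
open scoped Classical

noncomputable section

namespace H51.CUD

open H63.MA H38.BB H38.BG H57.PC H77.PC3 H57.BRA H51.CUB

variable {K : Type} [Field K] [NumberField K] {p : ℕ} {ζ : K} {Ω : Type} [Field Ω] [Algebra K Ω]
  [IsAlgClosure K Ω] {m l w N : ℕ} {P R : Type} [Group P] [Group R]

private theorem clm_un {J : Type} [Fintype J] {g : J → Finset (Pl K)} {v : Pl K} :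
    v ∈ un g ↔ ∃ a, v ∈ g a := by
  unfold CUB.un
  rw [Finset.mem_biUnion]
  exact ⟨fun ⟨a, _, h⟩ => ⟨a, h⟩, fun ⟨a, h⟩ => ⟨a, Finset.mem_univ _, h⟩⟩

private theorem clm_smul (θ x : Fin w → ZMod p) (c : ZMod p) : dt θ (c • x) = c * dt θ x := by
  simp only [dt, Pi.smul_apply, smul_eq_mul, Finset.mul_sum]
  exact Finset.sum_congr rfl fun k _ => by ring

private theorem dlm_smul {k : ℕ} (θ x : Fin k → ZMod p) (c : ZMod p) :
    dt θ (c • x) = c * dt θ x := by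
  simp only [dt, Pi.smul_apply, smul_eq_mul, Finset.mul_sum]
  exact Finset.sum_congr rfl fun k _ => by ring

private theorem clm_neg (θ x : Fin w → ZMod p) : dt θ (-x) = -dt θ x := by
  simp only [dt, Pi.neg_apply, mul_neg, Finset.sum_neg_distrib]

private theorem clm_two {α : Type} (C : Fin 2 → Finset α) (f : (Fin 2 → α) → ℂ) :
    ∑ q ∈ Fintype.piFinset C, f q = ∑ a ∈ C 0, ∑ b ∈ C 1, f ![a, b] := by
  rw [← Finset.sum_product' (C 0) (C 1) (fun a b => f ![a, b])]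
  refine Finset.sum_nbij' (fun q => (q 0, q 1)) (fun z => ![z.1, z.2]) ?_ ?_ ?_ ?_ ?_
  · intro q hq
    rw [Fintype.mem_piFinset] at hq
    exact Finset.mem_product.2 ⟨hq 0, hq 1⟩
  · intro z hz
    rw [Finset.mem_product] at hz
    rw [Fintype.mem_piFinset]
    intro i
    fin_cases i
    · exact hz.1
    · exact hz.2
  · intro q _
    funext i
    fin_cases i <;> rfl
  · intro z _
    rfl
  · intro q _
    congr 1
    funext i
    fin_cases i <;> rfl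

theorem his_unit [NeZero p] [Finite R] (hp : p.Prime) (hζ : IsPrimitiveRoot ζ p) {D : RD0 K p ζ}
    {L : LDs D Ω} (Fr : FR L) (Dg : GP p m l w N P R) (Λ : SF D Ω Dg) {J : Type} [Fintype J] (T : TY N w p J)
    {g : J → Finset (Pl K)} (hg : Dj g) (hG : ∀ a, ∀ v ∈ g a, D.Gd v)
    {σ : Pl K → R} (hσ : σ ∈ LB (clv Dg T g) (un g)) {r : ℕ} (τ : Fin r → R)
    (φ : Fin r → Fin w → ZMod p) (q : Fin r → Pl K) (hq : Function.Injective q)
    (ho : ∀ i, q i ∉ un g) (hφ : ∀ i (v : Fin l → ZMod p), dt (φ i) (Dg.β v (pu Dg (τ i))) = 0)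
    (h : HIs Dg Λ Fr (vn (un g) q) (vs σ q τ) (vs (psv T g) q φ)) (t : Fin l → ZMod p) (u : Kˣ)
    (hu : TUnit D.S0 u) : ∑ v ∈ un g, nv Dg T g t v * D.LL v u +
      Lam1 Dg Λ t (fun g => kk p ζ u g) = 0 := by
  obtain ⟨h0, hh0, he⟩ := h1_of_unit hp hζ L Dg u hu t
  have h1 := h h0 hh0
  have hdis : Disjoint (un g) (Finset.univ.image q) := by
    rw [Finset.disjoint_right]
    intro v hv
    obtain ⟨j, -, rfl⟩ := Finset.mem_image.1 hv
    exact ho j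
  unfold vn at h1
  rw [Finset.sum_union hdis, Finset.sum_image (fun a _ b _ h => hq h)] at h1
  have h2 : ∀ i, dt (vs (psv T g) q φ (q i)) (Dg.β (fun j => Dg.cv j (h0 (Fr.F (q i))))
      (sg Dg (vs σ q τ) (q i))) = 0 := by
    intro i
    unfold sg
    rw [vs_q (psv T g) hq φ i, vs_q σ hq τ i]
    exact hφ i _
  rw [Finset.sum_eq_zero (fun i _ => h2 i), add_zero] at h1
  rw [← h1]
  refine congrArg₂ (· + ·) (Finset.sum_congr rfl fun v hv => ?_) ?_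
  swap
  · unfold Lam1 LamH
    refine Finset.sum_congr rfl fun j _ => ?_
    have h3 : (fun k => Dg.cv k (h0 (Λ.σ j))) = kk p ζ u (Λ.σ j) • t := by
      funext k
      rw [he, Pi.smul_apply, smul_eq_mul, mul_comm]
    rw [h3, dlm_smul, mul_comm]
  have hvq : ∀ i, q i ≠ v := by
    rintro i rfl
    exact ho i hv
  obtain ⟨a, ha⟩ := clm_un.1 hv
  have h3 : (fun j => Dg.cv j (h0 (Fr.F v))) = D.LL v u • t := by
    funext j
    rw [he, Fr.kf v (hG a v ha).1, Pi.smul_apply, smul_eq_mul, mul_comm]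
  have h4 : sg Dg (vs σ q τ) v = sv Dg T g v := by
    unfold sg
    rw [vs_out σ τ hvq]
    exact sg_LB Dg T hg hσ hv
  rw [h3, h4, vs_out (psv T g) φ hvq, map_smul, LinearMap.smul_apply, clm_smul, mul_comm]
  rfl

theorem lam1_mul (hp : p.Prime) (hζ : IsPrimitiveRoot ζ p) {D : RD0 K p ζ}
    (Dg : GP p m l w N P R) (Λ : SF D Ω Dg) (t : Fin l → ZMod p) (x y : Kˣ) :
    Lam1 Dg Λ t (fun g => kk p ζ (x * y) g) =
      Lam1 Dg Λ t (fun g => kk p ζ x g) + Lam1 Dg Λ t (fun g => kk p ζ y g) := by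
  unfold Lam1
  rw [← Finset.sum_add_distrib]
  refine Finset.sum_congr rfl fun j _ => ?_
  show dt (Λ.c j) t * kk p ζ (x * y) (Λ.σ j) = dt (Λ.c j) t * kk p ζ x (Λ.σ j) +
    dt (Λ.c j) t * kk p ζ y (Λ.σ j)
  rw [kk_mul_arg hp hζ, mul_add]

theorem lam1_ps (hp : p.Prime) (hp2 : MOne p K) (hζ : IsPrimitiveRoot ζ p) {D : RD0 K p ζ}
    (Dg : GP p m l w N P R) (Λ : SF D Ω Dg) (t : Fin l → ZMod p) (x : Kˣ)
    (hx : PS p ζ D.S0 x) : Lam1 Dg Λ t (fun g => kk p ζ x g) = 0 := by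
  unfold Lam1
  refine Finset.sum_eq_zero fun j _ => ?_
  show dt (Λ.c j) t * kk p ζ x (Λ.σ j) = 0
  rw [sf_ps hp hp2 hζ Dg Λ hx j, mul_zero]

theorem nps_swap {D : RD0 K p ζ} (Dg : GP p m l w N P R) (Λ : SF D Ω Dg) (s t : Fin m → ZMod p)
    (h : Nps Dg Λ (Dg.kV s t)) : Nps Dg Λ (Dg.kV t s) := by
  obtain ⟨x, hx⟩ := h
  refine ⟨x, fun h1 => hx ?_⟩
  have h2 : Lam1 Dg Λ (Dg.kV s t) (fun g => kk p ζ x g) =
      -Lam1 Dg Λ (Dg.kV t s) (fun g => kk p ζ x g) := by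
    unfold Lam1
    rw [← Finset.sum_neg_distrib]
    refine Finset.sum_congr rfl fun j _ => ?_
    have h3 : dt (Λ.c j) (-Dg.kV t s) = -dt (Λ.c j) (Dg.kV t s) := by
      have h4 := dlm_smul (Λ.c j) (Dg.kV t s) (-1)
      rw [neg_one_smul, neg_one_mul] at h4
      exact h4
    rw [kV_swap, h3, neg_mul]
  rw [h2, h1, neg_zero]

omit [IsAlgClosure K Ω] [Algebra K Ω] [Field Ω] in
theorem du_npow (hp : p.Prime) (hζ : IsPrimitiveRoot ζ p) (D : RD0 K p ζ) (hG : GdRep D)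
    (F : Kˣ → ZMod p) (hF : ∀ x y, F (x * y) = F x + F y) (hFps : ∀ x, PS p ζ D.S0 x → F x = 0)
    (A : Kˣ) (hA : DuA D F A) (hpow : IsPow p A) (x : Kˣ) : F x = 0 := by
  obtain ⟨y, hy⟩ := hpow
  obtain ⟨x', T, hT, hx', hps⟩ := hG x
  have hordA : ∀ v, ((ord v A : ℤ) : ZMod p) = 0 := by
    intro v
    rw [← hy, ord_pow, Int.cast_mul, Int.cast_natCast, CharP.cast_eq_zero, zero_mul]
  have h1 := hA x' T hT fun v hv hvT => ⟨by rw [hx' v hv hvT, Int.cast_zero], hordA v⟩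
  have h2 : ∑ v ∈ T, (((ord v A : ℤ) : ZMod p) * D.LL v x' -
      ((ord v x' : ℤ) : ZMod p) * D.LL v A) = 0 := by
    refine Finset.sum_eq_zero fun v hv => ?_
    have h3 : D.LL v A = 0 := by
      have h4 := LL_zpow hp hζ D (hT v hv).1 y (p : ℤ)
      rw [zpow_natCast, hy] at h4
      rw [h4, Int.cast_natCast, CharP.cast_eq_zero, zero_mul]
    rw [hordA v, h3, zero_mul, mul_zero, sub_zero]
  rw [h2, add_zero] at h1
  have h5 : F x = F (x * x'⁻¹) + F x' := by rw [← hF, inv_mul_cancel_right]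
  rw [h5, hFps _ hps, h1, add_zero]

/-- the conclusion of `box2` -/
private def ClmBox {D : RD K p ζ} {L : LDs D.toRD0 Ω} (Fr : FR L) (c C : ℝ) (n : ℕ) : Prop :=
  ∀ (T Z₁ Z₂ : ℝ), 2 ≤ T → T ≤ Z₁ → Z₁ ≤ Z₂ →
      ∀ (A : Kˣ) (S : Finset (Pl K)), ¬ IsPow p A → (∀ v ∈ S, v ∉ D.S0) →
      (∀ v, v ∉ D.S0 → v ∉ S → ((ord v A : ℤ) : ZMod p) = 0) → nr S ≤ Z₂ →
      ∀ Q₁ Q₂ : Finset (Pl K),
      (∀ v ∈ Q₁, D.Gd v ∧ v ∉ S ∧ D.LL v A = 0 ∧ Z₁ < nm v ∧ (nm v : ℝ) ≤ 2 * Z₁) →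
      (∀ v ∈ Q₂, D.Gd v ∧ v ∉ S ∧ D.LL v A = 0 ∧ Z₂ < nm v ∧ (nm v : ℝ) ≤ 2 * Z₂) →
      (∀ v ∈ Q₁, ∀ v' ∈ Q₁, D.q v = D.q v' ∧ ∀ u ∈ S, D.LL u (D.pi v) = D.LL u (D.pi v')) →
      (∀ v ∈ Q₂, ∀ v' ∈ Q₂, D.q v = D.q v' ∧ ∀ u ∈ S, D.LL u (D.pi v) = D.LL u (D.pi v')) →
      ∀ κ : ZMod p, κ ≠ 0 → ∀ G : Pl K → Pl K → ℂ, (∀ a b, ‖G a b‖ ≤ 1) →
        C2 D.toRD0 Fr κ A Q₁ Q₂ G →
        ‖∑ a ∈ Q₁, ∑ b ∈ Q₂, G a b‖ ≤ C * (Z₁ * Z₂) * T ^ (-c) * (1 + Real.log Z₂) ^ n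

private theorem clm_ord (D : RD0 K p ζ) [NeZero p] (n : Finset (Pl K)) (hn : ∀ v ∈ n, v ∉ D.S0)
    (c : Pl K → ZMod p) {u : Kˣ} (hu : TUnit D.S0 u) (v : Pl K) (hv : v ∉ D.S0) :
    ((ord v (u * ∏ w ∈ n, D.pi w ^ (c w).val) : ℤ) : ZMod p) = if v ∈ n then c v else 0 := by
  rw [ord_mul, hu v hv, zero_add, ord_prod, Int.cast_sum]
  have h1 : ∀ w ∈ n, ((ord v (D.pi w ^ (c w).val) : ℤ) : ZMod p) = if w = v then c v else 0 := by
    intro w hw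
    rw [ord_pow, Int.cast_mul, Int.cast_natCast, ZMod.natCast_zmod_val]
    by_cases hwv : w = v
    · rw [if_pos hwv, hwv, D.pi_self v hv, Int.cast_one, mul_one]
    · rw [if_neg hwv, D.pi_ne w v (hn w hw) hv fun h => hwv h.symm, Int.cast_zero, mul_zero]
  rw [Finset.sum_congr rfl h1, Finset.sum_ite_eq']

private theorem clm_card {R' : Type} [Fintype R'] (C : Fin 2 → Finset R') :
    ((Fintype.piFinset C).card : ℝ) ≤ (Fintype.card R' : ℝ) ^ 2 := by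
  rw [Fintype.card_piFinset, Fin.prod_univ_two, sq]
  push_cast
  exact mul_le_mul (by exact_mod_cast Finset.card_le_univ _)
    (by exact_mod_cast Finset.card_le_univ _) (Nat.cast_nonneg _) (Nat.cast_nonneg _)

/-- the label sum vanishes -/
private theorem clm_lab [NeZero p] [Finite R] (hp : p.Prime) (hp2 : MOne p K)
    (hζ : IsPrimitiveRoot ζ p) {D : RD0 K p ζ} {L : LDs D Ω} (Fr : FR L) (Dg : GP p m l w N P R) (Λ : SF D Ω Dg)
    (b : Fin m → Kˣ) (E : Finset (Pl K)) (ε : Pl K → Gal(Ω/K) → R) (n : Finset (Pl K))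
    (σ : Pl K → R) (ψ : Pl K → Fin w → ZMod p) (hB : Bse D b E n) (cl : Fin 2 → Fin N)
    (φ : Fin 2 → Fin w → ZMod p)
    (hφ : ∀ i (v : Fin l → ZMod p), dt (φ i) (Dg.β v (Dg.s (cl i))) = 0) (A : Kˣ)
    (hA : DuA D (fun x => Lam1 Dg Λ (Dg.kV (Dg.s (cl 1)) (Dg.s (cl 0)))
      (fun g => kk p ζ x g)) A) (hA1 : ∀ v, v ∉ D.S0 → v ∉ n → ((ord v A : ℤ) : ZMod p) = 0)
    (hA2 : ∀ v ∈ n, ((ord v A : ℤ) : ZMod p) =
      dt (ψ v) (Dg.β (Dg.kV (Dg.s (cl 1)) (Dg.s (cl 0))) (sg Dg σ v)))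
    (q : Fin 2 → Pl K) (hq : ∀ i, D.Gd (q i) ∧ q i ∉ E) (i : Fin 2) (hi : D.LL (q i) A ≠ 0) :
    ∑ x ∈ Fintype.piFinset (fun i => clR Dg (cl i)), VFs Dg Λ Fr b E ε n σ ψ x φ q = 0 := by
  rw [clm_two]
  have hs : ∀ (i : Fin 2) (τ : Fin 2 → R), (∀ j, pu Dg (τ j) = Dg.s (cl j)) → D.LL (q i) A ≠ 0 →
      ∑ x ∈ clR Dg (cl i), VFs Dg Λ Fr b E ε n σ ψ (Function.update τ i x) φ q = 0 := by
    intro i τ hτ hi
    exact lbs_ms hp hζ Fr Dg Λ b E ε n σ ψ hB (fun j => Dg.s (cl j)) τ hτ φ hφ A hA hA1 hA2 q hq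
      i hi (Dg.q (Dg.g (cl i))) rfl (clR Dg (cl i)) (fun x => mem_clR Dg (cl i) x)
  rcases (show i = 0 ∨ i = 1 by omega) with h | h
  · subst h
    rw [Finset.sum_comm]
    refine Finset.sum_eq_zero fun y hy => ?_
    have h1 := hs 0 ![Dg.q (Dg.g (cl 0)), y] (by
      intro j
      fin_cases j
      · rfl
      · exact clr_pu Dg hy) hi
    rw [← h1]
    refine Finset.sum_congr rfl fun x _ => ?_
    congr 1
    funext j
    fin_cases j <;> rfl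
  · subst h
    refine Finset.sum_eq_zero fun x hx => ?_
    have h1 := hs 1 ![x, Dg.q (Dg.g (cl 1))] (by
      intro j
      fin_cases j
      · exact clr_pu Dg hx
      · rfl) hi
    rw [← h1]
    refine Finset.sum_congr rfl fun y _ => ?_
    congr 1
    funext j
    fin_cases j <;> rfl

private theorem clm_sig [NeZero p] [Finite R] (hp : p.Prime) (hp2 : MOne p K)
    (hζ : IsPrimitiveRoot ζ p) (hz : Z2 p K) (D : RD K p ζ) (L : LDs D.toRD0 Ω) (Fr : FR L)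
    (Dg : GP p m l w N P R) (Λ : SF D.toRD0 Ω Dg) {J : Type} [Fintype J] {c C₁ : ℝ} {n₁ : ℕ} (hC₁ : 0 ≤ C₁)
    (hbox : ClmBox Fr c C₁ n₁) {E : Finset (Pl K)} {b : Fin m → Kˣ} (hb : BS2 D.toRD0 b E)
    (ε : Pl K → Gal(Ω/K) → R) (T : TY N w p J) (u : J → Pl K → ZMod p)
    (lam : J → J → ZMod p) (τ : Fin 2 → J)
    (hφ : ∀ i (v : Fin l → ZMod p), dt (T.psi (τ i)) (Dg.β v (Dg.s (T.cls (τ i)))) = 0)
    {g : J → Finset (Pl K)} {Tt : ℝ} {Z : Fin 2 → ℝ} {Q : Fin 2 → Finset (Pl K)}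
    (hB : BxH D.toRD0 E g Tt Z Q)
    (hne : (∃ v ∈ un g, nv Dg T g (Dg.kV (Dg.s (T.cls (τ 1))) (Dg.s (T.cls (τ 0)))) v ≠ 0) ∨
      Nps Dg Λ (Dg.kV (Dg.s (T.cls (τ 1))) (Dg.s (T.cls (τ 0)))))
    (hnr : nr ((un g).filter fun v =>
        nv Dg T g (Dg.kV (Dg.s (T.cls (τ 1))) (Dg.s (T.cls (τ 0)))) v ≠ 0) ≤ Z 1)
    (h01 : Z 0 ≤ Z 1)
    (cc : Fin 2 → (Fin D.r → ZMod p) × (↥(un g ∪ E) → ZMod p) × (Fin m → ZMod p))
    {σ : Pl K → R} (hσ : σ ∈ LB (clv Dg T g) (un g)) :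
    ‖∑ x ∈ Fintype.piFinset (fun i => clR Dg (T.cls (τ i))),
      ∑ q ∈ Fintype.piFinset (fun i => (Q i).filter fun x => cfn D.toRD0 Dg T b E g x = cc i),
          VFs Dg Λ Fr b E ε (un g) σ (psv T g) x (fun i => T.psi (τ i)) q *
            ep p (∑ i, ff1 D.toRD0 u lam g (τ i) (q i) +
              ∑ i, ∑ j, (if i = j then 0 else lam (τ i) (τ j) * D.LL (q i) (D.pi (q j))))‖ ≤
      (Nat.card R : ℝ) ^ 2 * (C₁ * (Z 0 * Z 1) * Tt ^ (-c) * (1 + Real.log (Z 1)) ^ n₁) := by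
  have hgn : ∀ v ∈ un g, D.Gd v ∧ v ∉ E := by
    intro v hv
    obtain ⟨a, ha⟩ := clm_un.1 hv
    exact hB.gd a v ha
  have hBse : Bse D.toRD0 b E (un g) := ⟨hgn, hb⟩
  have hcell : ∀ i, Cell D.toRD0 Dg b E (un g) σ
      ((Q i).filter fun x => cfn D.toRD0 Dg T b E g x = cc i) := fun i =>
    cfn_cell D.toRD0 Dg T b E hB.dj hσ (Q i) (fun v hv => by
      obtain ⟨h1, -, -, h2, h3⟩ := hB.qd i v hv
      exact ⟨h1, h2, h3⟩) (cc i)
  have hTt : 0 < Tt := by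
    have := hB.t2
    linarith
  have hZ0 : 0 < Z 0 := lt_of_lt_of_le hTt (hB.tz 0)
  have hZ1 : 0 < Z 1 := lt_of_lt_of_le hTt (hB.tz 1)
  have hl1 : 0 ≤ Real.log (Z 1) := Real.log_nonneg (by
    have h1 := hB.t2
    have h2 := hB.tz 1
    linarith)
  have hrhs : 0 ≤ C₁ * (Z 0 * Z 1) * Tt ^ (-c) * (1 + Real.log (Z 1)) ^ n₁ := by positivity
  obtain ⟨kv, hkv⟩ : ∃ kv, kv = Dg.kV (Dg.s (T.cls (τ 1))) (Dg.s (T.cls (τ 0))) := ⟨_, rfl⟩
  rw [← hkv] at hne hnr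
  have hpus : ∀ x ∈ Fintype.piFinset (fun i => clR Dg (T.cls (τ i))), ∀ i,
      pu Dg (x i) = Dg.s (T.cls (τ i)) := by
    intro x hx i
    exact clr_pu Dg (Fintype.mem_piFinset.1 hx i)
  by_cases hA : ∀ u : Kˣ, TUnit D.S0 u → ∑ v ∈ un g, nv Dg T g kv v * D.LL v u +
      (fun x => Lam1 Dg Λ kv (fun g => kk p ζ x g)) u = 0
  swap
  · have h0 : ∀ x ∈ Fintype.piFinset (fun i => clR Dg (T.cls (τ i))), ∀ q : Fin 2 → Pl K,
        VFs Dg Λ Fr b E ε (un g) σ (psv T g) x (fun i => T.psi (τ i)) q = 0 := by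
      intro x hx q
      by_contra hne
      apply hA
      intro u' hu'
      unfold VFs at hne
      by_cases hc : Function.Injective q ∧ ∀ i, q i ∉ un g
      · rw [if_pos hc] at hne
        obtain ⟨h1, -⟩ := ffs_ne Fr Dg Λ b E ε _ _ _ hne
        refine his_unit hp hζ Fr Dg Λ T hB.dj (fun a v hv => (hB.gd a v hv).1) hσ x
          (fun i => T.psi (τ i)) q hc.1 hc.2 (fun i v => ?_) h1 kv u' hu'
        rw [hpus x hx i]
        exact hφ i v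
      · rw [if_neg hc] at hne
        exact absurd rfl hne
    rw [Finset.sum_eq_zero (fun x hx => Finset.sum_eq_zero fun q _ => by
      rw [h0 x hx q, zero_mul]), norm_zero]
    positivity
  have hG := gd_rep hp hp2 hζ D
  obtain ⟨A, hord, hPS⟩ := dufs hp hp2 hζ D (un g) (fun v hv => (hgn v hv).1) (nv Dg T g kv)
    (fun x => Lam1 Dg Λ kv (fun g => kk p ζ x g)) (lam1_mul hp hζ Dg Λ kv)
    (lam1_ps hp hp2 hζ Dg Λ kv) hA
  have hA1 : ∀ v, v ∉ D.S0 → v ∉ un g → ((ord v A : ℤ) : ZMod p) = 0 := by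
    intro v hv hvn
    rw [hord v hv, if_neg hvn]
  have hA2 : ∀ v ∈ un g, ((ord v A : ℤ) : ZMod p) =
      dt (psv T g v) (Dg.β kv (sg Dg σ v)) := by
    intro v hv
    rw [hord v (hgn v hv).1.1, if_pos hv, sg_LB Dg T hB.dj hσ hv]
    rfl
  have hnp : ¬ IsPow p A := by
    intro hpow
    rcases hne with ⟨v, hv, hv0⟩ | ⟨x, hx⟩
    · obtain ⟨y, hy⟩ := hpow
      apply hv0
      have h1 := hord v (hgn v hv).1.1
      rw [if_pos hv] at h1
      rw [← h1, ← hy, ord_pow, Int.cast_mul, Int.cast_natCast, CharP.cast_eq_zero, zero_mul]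
    · exact hx (du_npow hp hζ D.toRD0 hG _ (lam1_mul hp hζ Dg Λ kv)
        (lam1_ps hp hp2 hζ Dg Λ kv) A hPS hpow x)
  have hcf : ∀ i, ∀ x ∈ (Q i).filter (fun x => cfn D.toRD0 Dg T b E g x = cc i),
      ∀ x' ∈ (Q i).filter (fun x => cfn D.toRD0 Dg T b E g x = cc i), D.LL x A = D.LL x' A := by
    intro i x hx x' hx'
    have h1 := (hcell i).gd x hx
    have h2 := (hcell i).gd x' hx'
    rw [ll_du hp hζ D.toRD0 _ (un g) (fun v hv => (hgn v hv).1) A hPS hA1 x h1.1 h1.2.2,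
      ll_du hp hζ D.toRD0 _ (un g) (fun v hv => (hgn v hv).1) A hPS hA1 x' h2.1 h2.2.2]
    refine congrArg₂ (· + ·) (Finset.sum_congr rfl fun v hv => ?_) ?_
    · rw [(hcell i).ln v hv x hx x' hx']
    · unfold Lam1
      refine Finset.sum_congr rfl fun j _ => ?_
      show dt (Λ.c j) kv * kk p ζ (D.pi x) (Λ.σ j) = dt (Λ.c j) kv * kk p ζ (D.pi x') (Λ.σ j)
      rw [sf_pi hp hp2 hζ Dg Λ h1.1.1 h2.1.1 ((hcell i).cls x hx x' hx') j]
  by_cases hz0 : ∃ i, ∃ x ∈ (Q i).filter (fun x => cfn D.toRD0 Dg T b E g x = cc i),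
      D.LL x A ≠ 0
  · obtain ⟨i, x₀, hx₀, hx₀'⟩ := hz0
    rw [Finset.sum_comm, Finset.sum_eq_zero, norm_zero]
    · positivity
    · intro q hq
      rw [← Finset.sum_mul]
      rw [Fintype.mem_piFinset] at hq
      rw [clm_lab hp hp2 hζ Fr Dg Λ b E ε (un g) σ (psv T g) hBse (fun i => T.cls (τ i))
        (fun i => T.psi (τ i)) hφ A (by rw [← hkv]; exact hPS) hA1 (by rw [← hkv]; exact hA2) q
        (fun i => ⟨((hcell i).gd _ (hq i)).1, ((hcell i).gd _ (hq i)).2.1⟩) i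
        (by rw [hcf i _ (hq i) x₀ hx₀]; exact hx₀'), zero_mul]
  push Not at hz0
  refine (norm_sum_le _ _).trans ?_
  have hone : ∀ x ∈ Fintype.piFinset (fun i => clR Dg (T.cls (τ i))),
      ‖∑ q ∈ Fintype.piFinset (fun i => (Q i).filter fun x => cfn D.toRD0 Dg T b E g x = cc i),
          VFs Dg Λ Fr b E ε (un g) σ (psv T g) x (fun i => T.psi (τ i)) q *
            ep p (∑ i, ff1 D.toRD0 u lam g (τ i) (q i) +
              ∑ i, ∑ j, (if i = j then 0 else lam (τ i) (τ j) * D.LL (q i) (D.pi (q j))))‖ ≤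
      C₁ * (Z 0 * Z 1) * Tt ^ (-c) * (1 + Real.log (Z 1)) ^ n₁ := by
    intro x hx
    rw [clm_two]
    have hC2 := c2ms hp hp2 hζ hz D Fr Dg Λ b E ε (un g) σ (psv T g) hBse x
      (fun i => clr_pow Dg (Fintype.mem_piFinset.1 hx i)) (fun i => T.psi (τ i))
      (fun i => (Q i).filter fun x => cfn D.toRD0 Dg T b E g x = cc i) hcell
      (fun i v => by rw [hpus x hx i]; exact hφ i v) A hG
      (by rw [hpus x hx 1, hpus x hx 0, ← hkv]; exact hPS) hA1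
      (by rw [hpus x hx 1, hpus x hx 0, ← hkv]; exact hA2)
    have hG := c2_tw hp D.toRD0 Fr 1 A _ _ _ hC2 (ff1 D.toRD0 u lam g (τ 0))
      (ff1 D.toRD0 u lam g (τ 1)) (fun a b' => lam (τ 0) (τ 1) * D.LL a (D.pi b') +
        lam (τ 1) (τ 0) * D.LL b' (D.pi a)) (by
      intro a ha a' ha' b₁ hb₁ b₁' hb₁' hab hab' heq
      have g1 := ((hcell 0).gd a ha).1
      have g2 := ((hcell 0).gd a' ha').1
      have g3 := ((hcell 1).gd b₁ hb₁).1
      have g4 := ((hcell 1).gd b₁' hb₁').1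
      have r1 := D.rec2 a b₁ g1 g3 hab
      have r2 := D.rec2 a' b₁' g2 g4 hab'
      have q1 := (hcell 0).cls a ha a' ha'
      have q2 := (hcell 1).cls b₁ hb₁ b₁' hb₁'
      rw [← q1, ← q2, ← r1] at r2
      have r3 : D.LL a' (D.pi b₁') = D.LL a (D.pi b₁) := by
        rw [heq] at r2
        exact sub_left_inj.1 r2
      show lam (τ 0) (τ 1) * D.LL a' (D.pi b₁') + lam (τ 1) (τ 0) * D.LL b₁' (D.pi a') = _
      rw [r3, heq])
    have hbd := hbox Tt (Z 0) (Z 1) hB.t2 (hB.tz 0) h01 A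
      ((un g).filter fun v => nv Dg T g kv v ≠ 0) hnp
      (fun v hv => (hgn v (Finset.mem_filter.1 hv).1).1.1)
      (fun v hv hvS => by
        rw [hord v hv]
        by_cases hvn : v ∈ un g
        · rw [if_pos hvn]
          by_contra hcon
          exact hvS (Finset.mem_filter.2 ⟨hvn, hcon⟩)
        · rw [if_neg hvn]) hnr
      ((Q 0).filter fun x => cfn D.toRD0 Dg T b E g x = cc 0)
      ((Q 1).filter fun x => cfn D.toRD0 Dg T b E g x = cc 1)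
      (fun v hv => ⟨((hcell 0).gd v hv).1,
        fun h => ((hcell 0).gd v hv).2.2 (Finset.mem_filter.1 h).1, hz0 0 v hv,
        (hB.qd 0 v (Finset.mem_filter.1 hv).1).2.1, (hB.qd 0 v (Finset.mem_filter.1 hv).1).2.2.1⟩)
      (fun v hv => ⟨((hcell 1).gd v hv).1,
        fun h => ((hcell 1).gd v hv).2.2 (Finset.mem_filter.1 h).1, hz0 1 v hv,
        (hB.qd 1 v (Finset.mem_filter.1 hv).1).2.1, (hB.qd 1 v (Finset.mem_filter.1 hv).1).2.2.1⟩)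
      (fun v hv v' hv' => ⟨(hcell 0).cls v hv v' hv',
        fun u' hu' => (hcell 0).ln u' (Finset.mem_filter.1 hu').1 v hv v' hv'⟩)
      (fun v hv v' hv' => ⟨(hcell 1).cls v hv v' hv',
        fun u' hu' => (hcell 1).ln u' (Finset.mem_filter.1 hu').1 v hv v' hv'⟩)
      1 (by
        have : Fact p.Prime := ⟨hp⟩
        exact one_ne_zero) _ (fun a b' => by
        rw [norm_mul, ep_norm, mul_one]
        rcases vfs_norm Fr Dg Λ b E ε (un g) σ (psv T g) x (fun i => T.psi (τ i)) ![a, b'] with h | h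
        · rw [h, norm_zero]
          exact zero_le_one
        · exact h.le) hG
    refine le_trans (le_of_eq ?_) hbd
    congr 1
    refine Finset.sum_congr rfl fun a _ => Finset.sum_congr rfl fun b' _ => ?_
    congr 2
    simp only [Fin.sum_univ_two, Matrix.cons_val_zero, Matrix.cons_val_one]
    rw [if_pos trivial, if_pos trivial, if_neg (by decide : ¬ (0 : Fin 2) = 1),
      if_neg (by decide : ¬ (1 : Fin 2) = 0)]
    ring
  refine (Finset.sum_le_sum hone).trans ?_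
  rw [Finset.sum_const, nsmul_eq_mul]
  have hR : Fintype R := Fintype.ofFinite R
  refine mul_le_mul_of_nonneg_right ?_ hrhs
  rw [Nat.card_eq_fintype_card]
  exact clm_card _

private theorem clm_real {P h R' C₁ X V V' : ℝ} (k a e : ℕ) (hP : 1 ≤ P) (hh : 0 ≤ h)
    (hR : 0 ≤ R') (hC₁ : 1 ≤ C₁) (hX0 : 0 ≤ X) (hX : X ≤ P ^ (k + a + e)) (hV : 0 ≤ V)
    (hVV : V ≤ V') :
    X ^ 2 * (h * (R' ^ a * (R' ^ 2 * (C₁ * V)))) ≤
      (P ^ (2 * k + 2) * (1 + h) * (1 + R') ^ 3 * C₁) ^ (1 + a + e) * V' := by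
  have hP0 : 0 ≤ P := by linarith
  have hC0 : 0 ≤ C₁ := by linarith
  obtain ⟨C, hC⟩ : ∃ C, C = P ^ (2 * k + 2) * (1 + h) * (1 + R') ^ 3 * C₁ := ⟨_, rfl⟩
  rw [← hC]
  have i1 : P ^ (2 * k) ≤ P ^ (2 * k + 2) := pow_le_pow_right₀ hP (by omega)
  have i2 : P ^ 2 ≤ P ^ (2 * k + 2) := pow_le_pow_right₀ hP (by omega)
  have i3 : R' ^ 2 ≤ (1 + R') ^ 3 := by nlinarith [pow_nonneg hR 3]
  have i4 : R' ≤ (1 + R') ^ 3 := by nlinarith [pow_nonneg hR 3, sq_nonneg R']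
  have i5 : (1 : ℝ) ≤ (1 + R') ^ 3 := one_le_pow₀ (by linarith)
  have i6 : (1 : ℝ) ≤ 1 + h := by linarith
  have h1 : P ^ (2 * k) * h * R' ^ 2 * C₁ ≤ C := by
    rw [hC]
    gcongr
    linarith
  have h2 : P ^ 2 * R' ≤ C := by
    calc P ^ 2 * R' = P ^ 2 * 1 * R' * 1 := by ring
      _ ≤ C := by
        rw [hC]
        gcongr
  have h3 : P ^ 2 ≤ C := by
    calc P ^ 2 = P ^ 2 * 1 * 1 * 1 := by ring
      _ ≤ C := by
        rw [hC]
        gcongr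
  have hC0' : 0 ≤ C := le_trans (by positivity) h3
  have hX2 : X ^ 2 ≤ P ^ (2 * k) * (P ^ 2) ^ a * (P ^ 2) ^ e := by
    calc X ^ 2 ≤ (P ^ (k + a + e)) ^ 2 := pow_le_pow_left₀ hX0 hX 2
      _ = P ^ (2 * k) * (P ^ 2) ^ a * (P ^ 2) ^ e := by
        rw [← pow_mul, ← pow_mul, ← pow_mul, ← pow_add, ← pow_add]
        congr 1
        ring
  calc X ^ 2 * (h * (R' ^ a * (R' ^ 2 * (C₁ * V))))
      ≤ (P ^ (2 * k) * (P ^ 2) ^ a * (P ^ 2) ^ e) * (h * (R' ^ a * (R' ^ 2 * (C₁ * V)))) :=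
        mul_le_mul_of_nonneg_right hX2 (by positivity)
    _ = (P ^ (2 * k) * h * R' ^ 2 * C₁) * (P ^ 2 * R') ^ a * (P ^ 2) ^ e * V := by
        rw [mul_pow]
        ring
    _ ≤ C * C ^ a * C ^ e * V' := by
        gcongr
    _ = C ^ (1 + a + e) * V' := by
        rw [pow_add, pow_add, pow_one]

theorem bxs2mos [NeZero p] [Finite R] (hp : p.Prime) (hp2 : MOne p K) (hζ : IsPrimitiveRoot ζ p)
    (hz : Z2 p K) (D : RD K p ζ) (L : LDs D.toRD0 Ω) (Fr : FR L) (Dg : GP p m l w N P R) (Λ : SF D.toRD0 Ω Dg)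
    (J : Type) [Fintype J] :
    ∃ (c C : ℝ) (k : ℕ), 0 < c ∧ 1 ≤ C ∧ ∀ (E : Finset (Pl K)) (b : Fin m → Kˣ),
      BS2 D.toRD0 b E → ∀ (ε : Pl K → Gal(Ω/K) → R) (T : TY N w p J) (u : J → Pl K → ZMod p)
      (lam : J → J → ZMod p) (τ : Fin 2 → J),
      (∀ i (v : Fin l → ZMod p), dt (T.psi (τ i)) (Dg.β v (Dg.s (T.cls (τ i)))) = 0) →
      ∀ (g : J → Finset (Pl K)) (Tt : ℝ) (Z : Fin 2 → ℝ) (Q : Fin 2 → Finset (Pl K)),
      BxH D.toRD0 E g Tt Z Q →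
      ((∃ v ∈ un g, nv Dg T g (Dg.kV (Dg.s (T.cls (τ 1))) (Dg.s (T.cls (τ 0)))) v ≠ 0) ∨
        Nps Dg Λ (Dg.kV (Dg.s (T.cls (τ 1))) (Dg.s (T.cls (τ 0))))) →
      (∀ i, nr ((un g).filter fun v =>
        nv Dg T g (Dg.kV (Dg.s (T.cls (τ 1))) (Dg.s (T.cls (τ 0)))) v ≠ 0) ≤ Z i) →
      Z 0 ≤ Z 1 →
      ‖∑ q ∈ Fintype.piFinset Q, (if Function.Injective q then
        PFs Dg Λ Fr T b E ε (addr g τ q) * ep p (UU D.toRD0 u lam (addr g τ q)) else 0)‖ ≤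
        C ^ (1 + (un g).card + E.card) * (∏ i, Z i) * Tt ^ (-c) * (1 + ∑ i, Real.log (Z i)) ^ k := by
  obtain ⟨c, C₁, n₁, hc, hC₁, hbox⟩ := box2 hp hp2 hζ D L Fr
  have hp1 : (1 : ℝ) ≤ p := by exact_mod_cast hp.one_lt.le
  have hh0 : (0 : ℝ) ≤ (Nat.card (H1 L Dg) : ℝ) := Nat.cast_nonneg _
  have hR0 : (0 : ℝ) ≤ (Nat.card R : ℝ) := Nat.cast_nonneg _
  refine ⟨c, (p : ℝ) ^ (2 * (D.r + m) + 2) * (1 + (Nat.card (H1 L Dg) : ℝ)) *
    (1 + (Nat.card R : ℝ)) ^ 3 * C₁, n₁, hc, ?_, ?_⟩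
  · refine one_le_mul_of_one_le_of_one_le (one_le_mul_of_one_le_of_one_le
      (one_le_mul_of_one_le_of_one_le (one_le_pow₀ hp1) (by linarith))
      (one_le_pow₀ (by linarith))) hC₁
  intro E b hb ε T u lam τ hφ g Tt Z Q hB hne hnr h01
  have hTt : 0 < Tt := by
    have := hB.t2
    linarith
  have hZ0 : 0 < Z 0 := lt_of_lt_of_le hTt (hB.tz 0)
  have hZ1 : 0 < Z 1 := lt_of_lt_of_le hTt (hB.tz 1)
  have hl0 : 0 ≤ Real.log (Z 0) := Real.log_nonneg (by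
    have h1 := hB.t2
    have h2 := hB.tz 0
    linarith)
  have hl1 : 0 ≤ Real.log (Z 1) := Real.log_nonneg (by
    have h1 := hB.t2
    have h2 := hB.tz 1
    linarith)
  obtain ⟨V, hV⟩ : ∃ V, V = (Z 0 * Z 1) * Tt ^ (-c) * (1 + Real.log (Z 1)) ^ n₁ := ⟨_, rfl⟩
  have hV0 : 0 ≤ V := by
    rw [hV]
    positivity
  have hVV : V ≤ (∏ i, Z i) * Tt ^ (-c) * (1 + ∑ i, Real.log (Z i)) ^ n₁ := by
    rw [hV, Fin.prod_univ_two, Fin.sum_univ_two]
    refine mul_le_mul_of_nonneg_left (pow_le_pow_left₀ (by linarith) (by linarith) _)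
      (by positivity)
  have hcs := cells_sum Q (cfn D.toRD0 Dg T b E g) (fun q => if Function.Injective q then
      PFs Dg Λ Fr T b E ε (addr g τ q) * ep p (UU D.toRD0 u lam (addr g τ q)) else 0)
    ((Nat.card (H1 L Dg) : ℝ) * ((Nat.card R : ℝ) ^ (un g).card *
      ((Nat.card R : ℝ) ^ 2 * (C₁ * V)))) (fun cc => by
    have hpc := pfs_cells hp hζ D Fr Dg Λ T b E hb.1 ε u lam hB.dj hB.gd τ
      (fun i => (Q i).filter fun x => cfn D.toRD0 Dg T b E g x = cc i) (fun i v hv => by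
        obtain ⟨h1, -, -, h2, h3⟩ := hB.qd i v (Finset.mem_filter.1 hv).1
        exact ⟨h1, h2, h3⟩)
    refine le_trans (le_of_eq (congrArg norm (Eq.trans ?_ hpc))) ?_
    · congr!
    rw [norm_mul, norm_mul, ep_norm, mul_one, Complex.norm_natCast]
    refine mul_le_mul_of_nonneg_left ?_ hh0
    refine (norm_sum_le _ _).trans ?_
    refine (Finset.sum_le_sum fun σ hσ => clm_sig hp hp2 hζ hz D L Fr Dg Λ (by linarith) hbox hb ε T
      u lam τ hφ hB hne (hnr 1) h01 cc hσ).trans ?_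
    rw [Finset.sum_const, nsmul_eq_mul]
    have hcard : ((LB (clv Dg T g) (un g)).card : ℝ) ≤ (Nat.card R : ℝ) ^ (un g).card := by
      have hR : Fintype R := Fintype.ofFinite R
      have h1 := card_LB (clv Dg T g) (un g) (Nat.card R) (fun v _ => by
        rw [Nat.card_eq_fintype_card]
        exact Finset.card_le_univ _)
      exact_mod_cast h1
    have heq : C₁ * (Z 0 * Z 1) * Tt ^ (-c) * (1 + Real.log (Z 1)) ^ n₁ = C₁ * V := by
      rw [hV]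
      ring
    rw [heq]
    exact mul_le_mul_of_nonneg_right hcard (by positivity))
  refine hcs.trans ?_
  have hreal := clm_real (D.r + m) (un g).card E.card hp1 hh0 hR0 hC₁ (Nat.cast_nonneg _)
    (cfn_card D.toRD0 E g) hV0 hVV
  refine hreal.trans (le_of_eq ?_)
  ring

theorem bxs2ms [NeZero p] [Finite R] (hp : p.Prime) (hp2 : MOne p K) (hζ : IsPrimitiveRoot ζ p)
    (hz : Z2 p K) (D : RD K p ζ) (L : LDs D.toRD0 Ω) (Fr : FR L) (Dg : GP p m l w N P R) (Λ : SF D.toRD0 Ω Dg)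
    (J : Type) [Fintype J] :
    ∃ (c C : ℝ) (k : ℕ), 0 < c ∧ 1 ≤ C ∧ ∀ (E : Finset (Pl K)) (b : Fin m → Kˣ),
      BS2 D.toRD0 b E → ∀ (ε : Pl K → Gal(Ω/K) → R) (T : TY N w p J) (u : J → Pl K → ZMod p)
      (lam : J → J → ZMod p) (τ : Fin 2 → J),
      (∀ i (v : Fin l → ZMod p), dt (T.psi (τ i)) (Dg.β v (Dg.s (T.cls (τ i)))) = 0) →
      ∀ (g : J → Finset (Pl K)) (Tt : ℝ) (Z : Fin 2 → ℝ) (Q : Fin 2 → Finset (Pl K)),
      BxH D.toRD0 E g Tt Z Q →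
      ((∃ v ∈ un g, nv Dg T g (Dg.kV (Dg.s (T.cls (τ 1))) (Dg.s (T.cls (τ 0)))) v ≠ 0) ∨
        Nps Dg Λ (Dg.kV (Dg.s (T.cls (τ 1))) (Dg.s (T.cls (τ 0))))) →
      (∀ i, nr ((un g).filter fun v =>
        nv Dg T g (Dg.kV (Dg.s (T.cls (τ 1))) (Dg.s (T.cls (τ 0)))) v ≠ 0) ≤ Z i) →
      ‖∑ q ∈ Fintype.piFinset Q, (if Function.Injective q then
        PFs Dg Λ Fr T b E ε (addr g τ q) * ep p (UU D.toRD0 u lam (addr g τ q)) else 0)‖ ≤
        C ^ (1 + (un g).card + E.card) * (∏ i, Z i) * Tt ^ (-c) * (1 + ∑ i, Real.log (Z i)) ^ k := by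
  obtain ⟨c, C, k, hc, hC, h⟩ := bxs2mos hp hp2 hζ hz D L Fr Dg Λ J
  refine ⟨c, C, k, hc, hC, ?_⟩
  intro E b hb ε T u lam τ hφ g Tt Z Q hB hne hnr
  rcases le_or_gt (Z 0) (Z 1) with h01 | h01
  · exact h E b hb ε T u lam τ hφ g Tt Z Q hB hne hnr h01
  have hneg : ∀ v, nv Dg T g (Dg.kV (Dg.s (T.cls (τ 0))) (Dg.s (T.cls (τ 1)))) v =
      -nv Dg T g (Dg.kV (Dg.s (T.cls (τ 1))) (Dg.s (T.cls (τ 0)))) v := by
    intro v
    unfold nv
    rw [kV_swap, map_neg, LinearMap.neg_apply, clm_neg]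
  obtain ⟨e, he⟩ : ∃ e : Equiv.Perm (Fin 2), e = Equiv.swap 0 1 := ⟨_, rfl⟩
  have e0 : e 0 = 1 := by rw [he, Equiv.swap_apply_left]
  have e1 : e 1 = 0 := by rw [he, Equiv.swap_apply_right]
  have hB' : BxH D.toRD0 E g Tt (Z ∘ e) (Q ∘ e) :=
    ⟨hB.dj, hB.gd, hB.t2, fun i => hB.tz (e i), fun i => hB.qd (e i)⟩
  have h1 := h E b hb ε T u lam (τ ∘ e) (fun i => hφ (e i)) g Tt (Z ∘ e) (Q ∘ e) hB' (by
    simp only [Function.comp_apply, e0, e1]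
    rcases hne with ⟨v, hv, hv'⟩ | hne
    · refine Or.inl ⟨v, hv, ?_⟩
      rw [hneg]
      exact neg_ne_zero.2 hv'
    · exact Or.inr (nps_swap Dg Λ _ _ hne)) (by
    intro i
    simp only [Function.comp_apply, e0, e1, hneg, ne_eq, neg_eq_zero]
    exact hnr (e i)) (by
    simp only [Function.comp_apply, e0, e1]
    exact h01.le)
  rw [pi_perm Q e] at h1
  have h2 : ∏ i, (Z ∘ e) i = ∏ i, Z i := Equiv.prod_comp e Z
  have h3 : ∑ i, Real.log ((Z ∘ e) i) = ∑ i, Real.log (Z i) :=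
    Equiv.sum_comp e fun i => Real.log (Z i)
  rw [h2, h3] at h1
  refine le_trans (le_of_eq ?_) h1
  congr 1
  refine Finset.sum_congr rfl fun q _ => ?_
  rw [addr_perm]
  by_cases hq : Function.Injective q
  · rw [if_pos hq, if_pos (hq.comp e.injective)]
  · rw [if_neg hq, if_neg fun hc => hq ?_]
    intro x y hxy
    have h4 : (q ∘ e) (e.symm x) = (q ∘ e) (e.symm y) := by
      simp only [Function.comp_apply, Equiv.apply_symm_apply]
      exact hxy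
    exact e.symm.injective (hc h4)

end H51.CUD
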