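import Pool.Agent.H51.CUB.FN3
import Pool.Agent.H51.CUD.DFA

/-!
# [H51 CUD DN3] Three linked types: `lllV`

As `lllU` in `H51/CUB/FN3.lean`, with the phase at S0.
-/

set_option autoImplicit false

open scoped NumberField
open IsDedekindDomain
open scoped Classical

noncomputable section

namespace H51.CUD

open H63.MA H38.BB H38.BG H57.PC H77.PC3 H57.BRA H51.CUB

variable {K : Type} [Field K] [NumberField K] {p : ℕ} {ζ : K} {Ω : Type} [Field Ω] [Algebra K Ω]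
  [IsAlgClosure K Ω] {m l w N : ℕ} {P R : Type} [Group P] [Group R]

theorem lllV_p [NeZero p] [Finite P] [Finite R] (hp : p.Prime) (hp2 : MOne p K)
    (hζ : IsPrimitiveRoot ζ p) (hz : Z2 p K) (D : RD K p ζ) (L : LDs D.toRD0 Ω) (Fr : FR L)
    (Dg : GP p m l w N P R) (Λ : SF D.toRD0 Ω Dg) (J : Type) [Fintype J] (M A : ℝ) :
    ∃ C Y₀ : ℝ, 0 < C ∧ 3 ≤ Y₀ ∧ ∀ Y : ℝ, Y₀ ≤ Y → ∀ (E : Finset (Pl K)) (b : Fin m → Kˣ),
      BS2 D.toRD0 b E → nr E ≤ Real.exp (Real.log (Real.log Y) ^ 4) →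
      ∀ (ε : Pl K → Gal(Ω/K) → R) (T : TY N w p J), (∀ a, 0 ≤ T.wt a ∧ T.wt a ≤ M) →
      ∀ (u : J → Pl K → ZMod p) (lam : J → J → ZMod p) (ω : Finset J → ℂ), (∀ S, ‖ω S‖ ≤ 1) → ∀ a₁ a₂ a₃ : J,
        Th3 Dg T a₁ a₂ a₃ ≠ 0 →
        (∀ a ∈ ({a₁, a₂, a₃} : Finset J), Real.exp (Real.log (Real.log Y) ^ 5) ≤ T.lo a) →
        (∀ S, ω S ≠ 0 → a₁ ∈ S ∧ a₂ ∈ S ∧ a₃ ∈ S) →
        ‖TSV Dg Λ Fr T b E ε u lam ω Y‖ ≤ C * Y * Real.log Y ^ (-A) := by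
  obtain ⟨c, C, k, hc, hC, hb⟩ := bxs3s hp hp2 hζ hz D L Fr Dg Λ J
  obtain ⟨C', A', Y₀, hC', hA', hY₀, hf⟩ := fnas hp hζ D L Fr Dg Λ J 3 M A c C k hc hC
  refine ⟨C', Y₀, hC', hY₀, ?_⟩
  intro Y hY E b hBS hE ε T hwt u lam ω hω a₁ a₂ a₃ hth hlo hS
  refine hf Y hY E b hBS hE ε T hwt u lam ω hω ![a₁, a₂, a₃] (th3_ne Dg T hth) ?_ ?_ ?_
  · intro S hS0 i
    obtain ⟨h1, h2, h3⟩ := hS S hS0
    fin_cases i
    · exact h1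
    · exact h2
    · exact h3
  · intro i
    fin_cases i
    · exact hlo a₁ (by simp)
    · exact hlo a₂ (by simp)
    · exact hlo a₃ (by simp)
  · intro g' _ _ _ _ Z Q hQ _ _
    exact hb E b hBS ε T u lam ![a₁, a₂, a₃] hth g' _ Z Q hQ

end H51.CUD
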